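import Pool.Agent.TH954.V.DoubL

/-!
# Canonical heights, uniformly over all number fields containing `K`
-/

set_option autoImplicit false
set_option linter.unusedSectionVars false

open MvPolynomial WeierstrassCurve NumberField Height Pool.Agent.TH942

namespace Pool.Agent.TH954.V

lemma arch4 {x B : ℝ} (h : ∀ n : ℕ, 4 ^ n * x ≤ B) : x ≤ 0 := by
  by_contra hx
  push Not at hx
  obtain ⟨n, hn⟩ := pow_unbounded_of_one_lt (B / x) (show (1 : ℝ) < 4 by norm_num)
  have h1 := h n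
  rw [div_lt_iff₀ hx] at hn
  linarith

/-- canonical heights compared with the naive heights, with a uniform constant -/
theorem can_unif {K : Type} [Field K] [NumberField K] {a b : K}
    (hD : 4 * a ^ 3 + 27 * b ^ 2 ≠ 0) :
    ∃ C : ℝ, 0 ≤ C ∧ ∀ (L : Type) [Field L] [NumberField L] [DecidableEq L] [Algebra K L],
      ∃ q : SPt (algebraMap K L a) (algebraMap K L b) → ℝ, (∀ P, 0 ≤ q P) ∧
        (∀ P Q, q (P + Q) + q (P - Q) = 2 * (q P + q Q)) ∧
        (∀ P, q P ≤ logHeight (crd P) + C * Module.finrank ℚ L) ∧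
        (∀ P, logHeight (crd P) ≤ 3 / 2 * q P + C * Module.finrank ℚ L) := by
  obtain ⟨C, hC, hdbl⟩ := dbl_bound hD
  refine ⟨C, hC, fun L _ _ _ _ => ?_⟩
  have hD' : 4 * (algebraMap K L a) ^ 3 + 27 * (algebraMap K L b) ^ 2 ≠ 0 := by
    intro h0
    apply hD
    apply (algebraMap K L).injective
    rw [map_zero, ← h0]
    simp only [map_add, map_mul, map_pow, map_ofNat]
  obtain ⟨q, Cq, hCq, hq1, hq2, hq3⟩ := canonical hD'
  obtain ⟨C1, hC1, hC1'⟩ := ht_crd (algebraMap K L a) (algebraMap K L b)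
  set E : ℝ := C * Module.finrank ℚ L with hE
  have hE0 : 0 ≤ E := mul_nonneg hC (Nat.cast_nonneg _)
  have hiter : ∀ (n : ℕ) (R : SPt (algebraMap K L a) (algebraMap K L b)),
      |logHeight (crd ((2 ^ n : ℤ) • R)) - 4 ^ n * logHeight (crd R)| ≤ E * 4 ^ n := by
    intro n R
    have h1 : |logHeight (crd ((2 ^ n : ℤ) • R)) - 4 ^ n * logHeight (crd R)| ≤
        E * ((4 ^ n - 1) / 3) := by
      induction n with
      | zero => simp
      | succ n ih =>
        have h2 := hdbl L ((2 ^ n : ℤ) • R)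
        rw [smul_smul] at h2
        have h3 : (2 : ℤ) * 2 ^ n = 2 ^ (n + 1) := by ring
        rw [h3] at h2
        rw [abs_le] at h2 ih ⊢
        have h4 : (4 : ℝ) ^ (n + 1) = 4 * 4 ^ n := by ring
        rw [h4]
        constructor <;> nlinarith [h2.1, h2.2, ih.1, ih.2]
    refine h1.trans (mul_le_mul_of_nonneg_left ?_ hE0)
    have : (0 : ℝ) < 4 ^ n := by positivity
    linarith
  have hq4 : ∀ (n : ℕ) (R : SPt (algebraMap K L a) (algebraMap K L b)),
      q ((2 ^ n : ℤ) • R) = 4 ^ n * q R := by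
    intro n R
    have h1 : ((2 ^ n : ℤ) • R) = (2 ^ n : ℕ) • R := by
      rw [← natCast_zsmul]
      push_cast
      rfl
    rw [h1, q_nsmul hq3]
    push_cast
    rw [← pow_mul, mul_comm n 2, pow_mul]
    norm_num
  refine ⟨q, hq2, hq3, fun R => ?_, fun R => ?_⟩
  · have h1 : q R - logHeight (crd R) - E ≤ 0 := by
      refine arch4 (B := Cq) (fun n => ?_)
      have h2 := (abs_le.mp (hq1 ((2 ^ n : ℤ) • R))).2
      have h3 := sht_le ((2 ^ n : ℤ) • R)
      have h4 := (abs_le.mp (hiter n R)).2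
      rw [hq4] at h2
      linarith
    linarith
  · have h1 : logHeight (crd R) - 3 / 2 * q R - E ≤ 0 := by
      refine arch4 (B := 3 / 2 * Cq + C1) (fun n => ?_)
      have h2 := (abs_le.mp (hq1 ((2 ^ n : ℤ) • R))).1
      have h3 := hC1' ((2 ^ n : ℤ) • R)
      have h4 := (abs_le.mp (hiter n R)).1
      rw [hq4] at h2
      linarith
    linarith

/-- The form `q` restricted to integral combinations of the `P_j` is a sum of `r` squares of real
linear forms if the `P_j` generate a group of rank at most `r`. -/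
theorem gram_decomp {A : Type} [AddCommGroup A] {k r : ℕ} (P : Fin k → A)
    (hfg : AddGroup.FG (AddSubgroup.closure (Set.range P)))
    (hr : Module.finrank ℤ (AddSubgroup.closure (Set.range P)) ≤ r) (q0 : A → ℝ)
    (hq2' : ∀ P, 0 ≤ q0 P) (hq3' : ∀ P Q, q0 (P + Q) + q0 (P - Q) = 2 * (q0 P + q0 Q)) :
    ∃ N : Fin r → Fin k → ℝ, ∀ u : Fin k → ℤ,
      q0 (∑ j, u j • P j) = ∑ l, (∑ j, (u j : ℝ) * N l j) ^ 2 := by
  classical
  set Γ := AddSubgroup.closure (Set.range P) with hΓ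
  obtain ⟨r', g, hg⟩ := exists_basis hfg
  have hr' : Module.finrank ℤ Γ = r' := by
    rw [card_basis hg, Fintype.card_fin]
  rw [hr'] at hr
  set q : Γ → ℝ := fun P => q0 P.1 with hq
  have hq2 : ∀ P : Γ, 0 ≤ q P := fun P => hq2' P.1
  have hq3 : ∀ P Q : Γ, q (P + Q) + q (P - Q) = 2 * (q P + q Q) := fun P Q => hq3' P.1 Q.1
  have hps : (gram q g).PosSemidef := by
    apply posSemidef_of_int' _ (gram_symm q g)
    intro c
    have := q_comb q hq3 g 0 IsOfFinAddOrder.zero c
    rw [add_zero] at this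
    rw [← this]
    exact hq2 _
  obtain ⟨M, hM⟩ := exists_sqrt hps
  have hqP : ∀ P : Γ, q P = ‖emb M (fun i => (TH942.crd hg P i : ℝ))‖ ^ 2 := by
    intro P
    have h1 := q_comb q hq3 g _ (crd_spec hg P) (TH942.crd hg P)
    rw [add_sub_cancel] at h1
    rw [h1, emb_gram hM]
  have hmem : ∀ j, P j ∈ Γ := fun j => AddSubgroup.subset_closure (Set.mem_range_self j)
  set P' : Fin k → Γ := fun j => ⟨P j, hmem j⟩ with hP'
  refine ⟨fun l j => if h : l.1 < r' then (M.mulVec (fun i => (TH942.crd hg (P' j) i : ℝ)))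
    ⟨l.1, h⟩ else 0, fun u => ?_⟩
  have hcoe : (∑ j, u j • P' j : Γ).1 = ∑ j, u j • P j := by
    change Γ.subtype _ = _
    rw [map_sum]
    rfl
  rw [← hcoe]
  change q _ = _
  rw [hqP, emb_sq]
  have hvec : (fun i => (TH942.crd hg (∑ j, u j • P' j) i : ℝ)) =
      ∑ j, (u j : ℝ) • (fun i => (TH942.crd hg (P' j) i : ℝ)) := by
    funext i
    have h1 : TH942.crd hg (∑ j, u j • P' j) i = ∑ j, u j * TH942.crd hg (P' j) i := by
      change crdHom hg (∑ j, u j • P' j) i = _
      rw [map_sum, Finset.sum_apply]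
      refine Finset.sum_congr rfl (fun j _ => ?_)
      rw [map_zsmul, Pi.smul_apply, smul_eq_mul]
      rfl
    rw [h1, Finset.sum_apply]
    push_cast
    rfl
  have hrow : ∀ i : Fin r', (M.mulVec (fun i => (TH942.crd hg (∑ j, u j • P' j) i : ℝ))) i =
      ∑ j, (u j : ℝ) * (M.mulVec (fun i => (TH942.crd hg (P' j) i : ℝ))) i := by
    intro i
    rw [hvec, Matrix.mulVec_sum, Finset.sum_apply]
    refine Finset.sum_congr rfl (fun j _ => ?_)
    rw [Matrix.mulVec_smul, Pi.smul_apply, smul_eq_mul]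
  simp_rw [hrow]
  -- padding by zero
  have hpad : ∑ l : Fin r, (∑ j, (u j : ℝ) * (if h : l.1 < r' then
      (M.mulVec (fun i => (TH942.crd hg (P' j) i : ℝ))) ⟨l.1, h⟩ else 0)) ^ 2 =
      ∑ l : Fin r, (if h : l.1 < r' then
        (∑ j, (u j : ℝ) * (M.mulVec (fun i => (TH942.crd hg (P' j) i : ℝ))) ⟨l.1, h⟩) ^ 2
        else 0) := by
    refine Finset.sum_congr rfl (fun l _ => ?_)
    by_cases h : l.1 < r'
    · simp only [dif_pos h]
    · simp only [dif_neg h, mul_zero, Finset.sum_const_zero]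
      norm_num
  rw [hpad]
  set f : ℕ → ℝ := fun l => if h : l < r' then
        (∑ j, (u j : ℝ) * (M.mulVec (fun i => (TH942.crd hg (P' j) i : ℝ))) ⟨l, h⟩) ^ 2
        else 0 with hf
  have e1 : ∑ l : Fin r, (if h : l.1 < r' then
        (∑ j, (u j : ℝ) * (M.mulVec (fun i => (TH942.crd hg (P' j) i : ℝ))) ⟨l.1, h⟩) ^ 2
        else 0) = ∑ l : Fin r, f l.1 := rfl
  have e2 : ∑ i : Fin r', (∑ j, (u j : ℝ) *
      (M.mulVec (fun i => (TH942.crd hg (P' j) i : ℝ))) i) ^ 2 = ∑ i : Fin r', f i.1 := by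
    refine Finset.sum_congr rfl (fun i _ => ?_)
    simp only [hf]
    rw [dif_pos i.2]
  rw [e1, e2, Fin.sum_univ_eq_sum_range, Fin.sum_univ_eq_sum_range]
  refine Finset.sum_subset (Finset.range_mono hr) (fun l _ hl => ?_)
  rw [Finset.mem_range] at hl
  simp only [hf]
  rw [dif_neg hl]

end Pool.Agent.TH954.V
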