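import Pool.Agent.TH954.V.GlobL
import Pool.Agent.Helper259.HtExt

/-!
# Sums over all places, uniform over all number fields containing `K`
-/

set_option autoImplicit false
set_option linter.unusedSectionVars false

open MvPolynomial WeierstrassCurve NumberField Height Pool.Agent.TH942

namespace Pool.Agent.TH954.V

section general

variable {L : Type} [Field L] [NumberField L]

lemma sup_fin' {ι : Type} [Finite ι] {u : ι → L} (hu : u ≠ 0) :
    (fun v : FinitePlace L => ⨆ j, v (u j)).HasFiniteMulSupport := by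
  have : Nonempty {j // u j ≠ 0} := nonempty_subtype.mpr <| Function.ne_iff.mp hu
  suffices (fun v : FinitePlace L => ⨆ i : {j // u j ≠ 0}, v (u i)).HasFiniteMulSupport by
    convert! this with v
    obtain ⟨i, hi⟩ : ∃ j, u j ≠ 0 := Function.ne_iff.mp hu
    have : Nonempty ι := ⟨i⟩
    refine le_antisymm (ciSup_le fun j ↦ ?_) (ciSup_le fun ⟨j, hj⟩ ↦ Finite.le_ciSup_of_le j le_rfl)
    rcases eq_or_ne (u j) 0 with h | h
    · rw [h, map_zero]
      exact Real.iSup_nonneg' ⟨⟨i, hi⟩, apply_nonneg ..⟩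
    · exact Finite.le_ciSup_of_le ⟨j, h⟩ le_rfl
  refine Function.HasFiniteMulSupport.iSup (fun s => ?_)
  exact FinitePlace.hasFiniteMulSupport s.prop

lemma sup_pos' {ι : Type} [Finite ι] (v : AbsoluteValue L ℝ) {u : ι → L} (hu : u ≠ 0) :
    0 < ⨆ c, v (u c) := by
  obtain ⟨c, hc⟩ := Function.ne_iff.mp hu
  exact (v.pos hc).trans_le (le_ciSup (f := fun c => v (u c)) (Set.finite_range _).bddAbove c)

lemma FS_sup' {ι : Type} [Finite ι] {u : ι → L} (hu : u ≠ 0) :
    FS (fun v : AbsoluteValue L ℝ => Real.log (⨆ c, v (u c))) := by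
  have h1 := sup_fin' hu
  refine h1.subset (fun v hv => ?_)
  intro hcon
  apply hv
  change Real.log (⨆ c, av v (u c)) = 0
  have : (⨆ c, av v (u c)) = 1 := hcon
  rw [this, Real.log_one]

lemma tot_sup' {ι : Type} [Finite ι] {u : ι → L} (hu : u ≠ 0) :
    tot (fun v : AbsoluteValue L ℝ => Real.log (⨆ c, v (u c))) = logHeight u := by
  have hpos : ∀ v : FinitePlace L, 0 < ⨆ c, v (u c) := fun v => sup_pos' (av v) hu
  have hposi : ∀ w : InfinitePlace L, 0 < ⨆ c, w (u c) := fun w => sup_pos' (ai w) hu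
  rw [logHeight_eq_log_mulHeight, NumberField.mulHeight_eq hu, Real.log_mul, Real.log_prod,
    Real.log_finprod hpos]
  · unfold tot
    congr 1
    refine Finset.sum_congr rfl (fun w _ => ?_)
    rw [Real.log_pow]
    rfl
  · exact fun w _ => (pow_pos (hposi w) _).ne'
  · exact (Finset.prod_pos (fun w _ => pow_pos (hposi w) _)).ne'
  · exact (finprod_induction (fun x : ℝ => 0 < x) one_pos
      (fun _ _ h1 h2 => mul_pos h1 h2) hpos).ne'

end general

/-- The sum of the logarithms of the local constants is at most `C [L : ℚ]`. -/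
theorem tot_kap {K : Type} [Field K] [NumberField K] (A : Finset K) {M : ℕ} (hM : 1 ≤ M) (e : ℕ) :
    ∃ C : ℝ, 0 ≤ C ∧ ∀ (L : Type) [Field L] [NumberField L] [Algebra K L],
      FS (fun w : AbsoluteValue L ℝ => Real.log (kap A M e w)) ∧
      tot (fun w : AbsoluteValue L ℝ => Real.log (kap A M e w)) ≤ C * Module.finrank ℚ L := by
  classical
  have := fin_sub A
  set vec : {z : K // z = 1 ∨ z ∈ A} → K := fun z => z.1 with hvec
  refine ⟨Real.log M + e * logHeight vec, add_nonneg (Real.log_natCast_nonneg M)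
    (mul_nonneg (Nat.cast_nonneg _) (logHeight_nonneg _)), fun L _ _ _ => ?_⟩
  have hvecL : (fun z => algebraMap K L (vec z)) ≠ 0 := by
    intro h
    have := congrFun h ⟨1, Or.inl rfl⟩
    simp [hvec] at this
  have hcM : ∀ w : AbsoluteValue L ℝ, cM A w = ⨆ z, w (algebraMap K L (vec z)) := fun w => rfl
  have hcpos : ∀ w : AbsoluteValue L ℝ, 0 < cM A w := fun w =>
    zero_lt_one.trans_le (one_le_cM A w)
  have FcM : FS (fun w : AbsoluteValue L ℝ => Real.log (cM A w)) := FS_sup' hvecL
  have TcM : tot (fun w : AbsoluteValue L ℝ => Real.log (cM A w)) =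
      Module.finrank K L * logHeight vec := by
    rw [← Helper259.HtExt.logHeight_ext (L := L) vec, ← tot_sup' hvecL]
    rfl
  have hult : ∀ v : FinitePlace L, Ult (av v) := fun v => fin_ult v
  have hfinv : ∀ v : FinitePlace L, Real.log (kap A M e (av v)) =
      e * Real.log (cM A (av v)) := by
    intro v
    unfold kap
    rw [if_pos (hult v), one_mul, Real.log_pow]
  have hFS : FS (fun w : AbsoluteValue L ℝ => Real.log (kap A M e w)) := by
    refine FcM.subset (fun v hv => ?_)
    intro hcon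
    apply hv
    change Real.log (kap A M e (av v)) = 0
    rw [hfinv v]
    change (e : ℝ) * Real.log (cM A (av v)) = 0
    have h1 : Real.log (cM A (av v)) = 0 := hcon
    rw [h1, mul_zero]
  refine ⟨hFS, ?_⟩
  have h1 : tot (fun w : AbsoluteValue L ℝ => Real.log (kap A M e w)) ≤
      ∑ w : InfinitePlace L, (w.mult : ℝ) * (Real.log M + e * Real.log (cM A (ai w))) +
        ∑ᶠ v : FinitePlace L, (e : ℝ) * Real.log (cM A (av v)) := by
    unfold tot
    refine add_le_add (Finset.sum_le_sum (fun w _ => ?_)) (le_of_eq (finsum_congr hfinv))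
    refine mul_le_mul_of_nonneg_left ?_ (Nat.cast_nonneg _)
    change Real.log (kap A M e (ai w)) ≤ _
    unfold kap
    have hM0 : (0 : ℝ) < M := by exact_mod_cast hM
    have h2 : Real.log (cM A (ai w) ^ e) = e * Real.log (cM A (ai w)) := by rw [Real.log_pow]
    split_ifs
    · rw [one_mul, h2]
      have := Real.log_natCast_nonneg M
      linarith
    · rw [Real.log_mul hM0.ne' (pow_pos (hcpos _) _).ne', h2]
  have h3 : ∑ w : InfinitePlace L, (w.mult : ℝ) * (Real.log M + e * Real.log (cM A (ai w))) +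
        ∑ᶠ v : FinitePlace L, (e : ℝ) * Real.log (cM A (av v)) =
      Real.log M * ∑ w : InfinitePlace L, (w.mult : ℝ) +
        tot (fun w : AbsoluteValue L ℝ => (e : ℝ) * Real.log (cM A w)) := by
    unfold tot
    have h4 : ∑ w : InfinitePlace L, (w.mult : ℝ) * (Real.log M + e * Real.log (cM A (ai w))) =
        Real.log M * ∑ w : InfinitePlace L, (w.mult : ℝ) +
          ∑ w : InfinitePlace L, (w.mult : ℝ) * (e * Real.log (cM A (ai w))) := by
      rw [Finset.mul_sum, ← Finset.sum_add_distrib]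
      exact Finset.sum_congr rfl (fun w _ => by ring)
    rw [h4]
    ring
  rw [h3, tot_mul FcM, TcM] at h1
  have h5 : (∑ w : InfinitePlace L, (w.mult : ℝ)) = Module.finrank ℚ L := by
    exact_mod_cast InfinitePlace.sum_mult_eq (K := L)
  rw [h5] at h1
  have h6 : (Module.finrank K L : ℝ) ≤ Module.finrank ℚ L := by
    have h7 := Module.finrank_mul_finrank ℚ K L
    have h8 : 0 < Module.finrank ℚ K := Module.finrank_pos
    have h9 : Module.finrank K L ≤ Module.finrank ℚ L := by
      rw [← h7]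
      exact Nat.le_mul_of_pos_left _ h8
    exact_mod_cast h9
  have h10 : (e : ℝ) * (Module.finrank K L * logHeight vec) ≤
      e * (Module.finrank ℚ L * logHeight vec) := by
    refine mul_le_mul_of_nonneg_left ?_ (Nat.cast_nonneg _)
    exact mul_le_mul_of_nonneg_right h6 (logHeight_nonneg _)
  calc _ ≤ _ := h1
    _ ≤ Real.log M * Module.finrank ℚ L + e * (Module.finrank ℚ L * logHeight vec) := by linarith
    _ = _ := by ring

section glob

variable {K L : Type} [Field K] [NumberField K] [Field L] [NumberField L] [Algebra K L] {k : ℕ}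

/-- height with respect to the closed subscheme defined by the forms `f`, relative to `L` -/
noncomputable def hYL {a b : L} {s : ℕ} (f : Fin s → MvPolynomial (Fin k × Fin 3) K)
    (δ : Fin s → Fin k → ℕ) (P : Fin k → SPt a b) : ℝ :=
  tot (fun w => -Real.log (⨆ i, nvL w (δ i) (f i) (fun j => crd (P j))))

end glob

/-- From the local to the global inequality. -/
theorem globL {K : Type} [Field K] [NumberField K] {k : ℕ} {a b : K} {s : ℕ}
    (f : Fin s → MvPolynomial (Fin k × Fin 3) K)
    (δ : Fin s → Fin k → ℕ) (hf : ∀ i, MultiHom (δ i) (f i)) {N m : ℕ}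
    (n : Fin m → Fin k → ℤ) (G : MvPolynomial (Fin m) K) (d : Fin m → ℕ)
    (hloc : ∃ (A : Finset K) (M e : ℕ), 1 ≤ M ∧ ∀ (L : Type) [Field L] [DecidableEq L]
      [Algebra K L] (w : AbsoluteValue L ℝ)
      (P : Fin k → SPt (algebraMap K L a) (algebraMap K L b)),
        (w (hev G d (fun l => crd (∑ j, n l j • P j))) /
            ∏ l, (⨆ c, w (crd (∑ j, n l j • P j) c)) ^ d l) ^ N ≤
          kap A M e w * ⨆ i, nvL w (δ i) (f i) (fun j => crd (P j))) :
    ∃ C : ℝ, 0 ≤ C ∧ ∀ (L : Type) [Field L] [NumberField L] [DecidableEq L] [Algebra K L]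
      (P : Fin k → SPt (algebraMap K L a) (algebraMap K L b)),
      hev G d (fun l => crd (∑ j, n l j • P j)) ≠ 0 →
      (∃ i, evc (f i) (fun j => crd (P j)) ≠ 0) ∧
      FS (fun w : AbsoluteValue L ℝ =>
        -Real.log (⨆ i, nvL w (δ i) (f i) (fun j => crd (P j)))) ∧
      hYL f δ P ≤ N * ∑ l, (d l : ℝ) * logHeight (crd (∑ j, n l j • P j)) +
        C * Module.finrank ℚ L := by
  classical
  obtain ⟨A, M, e, hM1, hA⟩ := hloc
  obtain ⟨C, hC0, hC⟩ := tot_kap A hM1 e
  choose A' M' hM' hA' using fun i => nvL_le (f i) (δ i) (hf i)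
  refine ⟨C, hC0, fun L _ _ _ _ P hP => ?_⟩
  obtain ⟨FM, hCL⟩ := hC L
  set g : L := hev G d (fun l => crd (∑ j, n l j • P j)) with hg
  set w0 : Fin m → Fin 3 → L := fun l => crd (∑ j, n l j • P j) with hw
  have hw0 : ∀ l, w0 l ≠ 0 := fun l => crd_ne_zero _
  set T : AbsoluteValue L ℝ → ℝ := fun v => v g / ∏ l, (⨆ c, v (w0 l c)) ^ d l with hT
  set U : AbsoluteValue L ℝ → ℝ := fun v => ⨆ i, nvL v (δ i) (f i) (fun j => crd (P j)) with hU
  have hT0 : ∀ v, 0 < T v := fun v => div_pos (v.pos hP)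
    (Finset.prod_pos (fun l _ => pow_pos (sup_pos v (hw0 l)) _))
  have hloc : ∀ v, T v ^ N ≤ kap A M e v * U v := fun v => hA L v P
  have hM0 : ∀ v : AbsoluteValue L ℝ, 0 < kap A M e v := fun v =>
    zero_lt_one.trans_le (one_le_kap A hM1 e v)
  have hU0 : ∀ v, 0 < U v := by
    intro v
    by_contra hcon
    have h1 : kap A M e v * U v ≤ 0 :=
      mul_nonpos_of_nonneg_of_nonpos (hM0 v).le (not_lt.mp hcon)
    have h2 := pow_pos (hT0 v) N
    linarith [hloc v]
  have hlogT : ∀ v, Real.log (T v) =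
      Real.log (v g) - ∑ l, (d l : ℝ) * Real.log (⨆ c, v (w0 l c)) := by
    intro v
    rw [hT]
    simp only
    rw [Real.log_div (v.pos hP).ne' (Finset.prod_pos
      (fun l _ => pow_pos (sup_pos v (hw0 l)) _)).ne', Real.log_prod
      (fun l _ => (pow_pos (sup_pos v (hw0 l)) _).ne')]
    simp_rw [Real.log_pow]
  have hineq : ∀ v, -Real.log (U v) ≤
      Real.log (kap A M e v) + ((-N : ℝ) * Real.log (v g) +
        ∑ l, ((N : ℝ) * d l) * Real.log (⨆ c, v (w0 l c))) := by
    intro v
    have h1 := Real.log_le_log (pow_pos (hT0 v) N) (hloc v)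
    rw [Real.log_pow, Real.log_mul (hM0 v).ne' (hU0 v).ne', hlogT v] at h1
    have h2 : ∑ l, ((N : ℝ) * d l) * Real.log (⨆ c, v (w0 l c)) =
        N * ∑ l, (d l : ℝ) * Real.log (⨆ c, v (w0 l c)) := by
      rw [Finset.mul_sum]
      exact Finset.sum_congr rfl (fun l _ => by ring)
    rw [h2]
    linarith
  have Fg : FS (fun v : AbsoluteValue L ℝ => Real.log (v g)) := FS_log hP
  have Fw : ∀ l, FS (fun v : AbsoluteValue L ℝ => Real.log (⨆ c, v (w0 l c))) :=
    fun l => FS_sup (hw0 l)
  have Fsum : FS (fun v : AbsoluteValue L ℝ =>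
      ∑ l, ((N : ℝ) * d l) * Real.log (⨆ c, v (w0 l c))) :=
    FS_sum _ (fun l _ => FS_mul (Fw l) _)
  have FT : FS (fun v => Real.log (T v)) := by
    have h1 : (fun v => Real.log (T v)) = fun v => Real.log (v g) +
        ∑ l, (-(d l : ℝ)) * Real.log (⨆ c, v (w0 l c)) := by
      funext v
      rw [hlogT v, sub_eq_add_neg, ← Finset.sum_neg_distrib]
      congr 1
      exact Finset.sum_congr rfl (fun l _ => by ring)
    rw [h1]
    exact FS_add Fg (FS_sum _ (fun l _ => FS_mul (Fw l) _))
  have Fk : ∀ i, FS (fun v : AbsoluteValue L ℝ => Real.log (kap (A' i) (M' i) 1 v)) := by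
    intro i
    obtain ⟨C', -, hC'⟩ := tot_kap (A' i) (hM' i) 1
    exact (hC' L).1
  have FU : FS (fun v => -Real.log (U v)) := by
    refine ((FM.union FT).union (Set.finite_iUnion (fun i => Fk i))).subset
      (fun v hv => ?_)
    by_contra hcon
    simp only [Set.mem_union, Set.mem_iUnion, Set.mem_ofPred_eq, not_or, not_not, not_exists]
      at hcon
    obtain ⟨⟨h1, h2⟩, h3⟩ := hcon
    apply hv
    have hlog1 : ∀ x : ℝ, 0 < x → Real.log x = 0 → x = 1 := by
      intro x hx h
      rcases Real.log_eq_zero.mp h with h | h | h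
      · exact absurd h hx.ne'
      · exact h
      · linarith
    have hM : kap A M e (av v) = 1 := hlog1 _ (hM0 _) h1
    have hTv : T (av v) = 1 := hlog1 _ (hT0 _) h2
    have h4 := hloc (av v)
    rw [hM, hTv, one_pow, one_mul] at h4
    have h5 : U (av v) ≤ 1 := by
      rcases isEmpty_or_nonempty (Fin s) with he | he
      · simp only [hU, Real.iSup_of_isEmpty]
        exact zero_le_one
      · refine ciSup_le (fun i => ?_)
        have h6 : kap (A' i) (M' i) 1 (av v) = 1 :=
          hlog1 _ (zero_lt_one.trans_le (one_le_kap _ (hM' i) _ _)) (h3 i)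
        rw [← h6]
        exact hA' i L (av v) _ _ P
    change -Real.log (U (av v)) = 0
    rw [le_antisymm h5 h4, Real.log_one, neg_zero]
  refine ⟨?_, FU, ?_⟩
  · by_contra hcon
    push Not at hcon
    have w1 : InfinitePlace L := Classical.arbitrary _
    have h1 := hU0 (ai w1)
    have h2 : U (ai w1) = 0 := by
      have : (fun i => nvL (ai w1) (δ i) (f i) (fun j => crd (P j))) = fun _ => 0 := by
        funext i
        simp [nvL, hcon i]
      rw [hU]
      simp only
      rw [show (⨆ i, nvL (ai w1) (δ i) (f i) (fun j => crd (P j))) =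
        iSup (fun i => nvL (ai w1) (δ i) (f i) (fun j => crd (P j))) from rfl, this]
      rcases isEmpty_or_nonempty (Fin s) with he | he
      · rw [Real.iSup_of_isEmpty]
      · rw [ciSup_const]
    rw [h2] at h1
    exact lt_irrefl _ h1
  · have h1 : hYL f δ P ≤ tot (fun v => Real.log (kap A M e v) +
        ((-N : ℝ) * Real.log (v g) +
        ∑ l, ((N : ℝ) * d l) * Real.log (⨆ c, v (w0 l c)))) :=
      tot_le FU (FS_add FM (FS_add (FS_mul Fg _) Fsum)) (fun w => hineq (ai w))
        (fun v => hineq (av v))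
    rw [tot_add FM (FS_add (FS_mul Fg _) Fsum), tot_add (FS_mul Fg _) Fsum, tot_mul Fg,
      tot_log hP, tot_sum _ (fun l _ => FS_mul (Fw l) _)] at h1
    have h2 : ∑ l, tot (fun v : AbsoluteValue L ℝ =>
        ((N : ℝ) * d l) * Real.log (⨆ c, v (w0 l c))) =
        N * ∑ l, (d l : ℝ) * logHeight (w0 l) := by
      rw [Finset.mul_sum]
      refine Finset.sum_congr rfl (fun l _ => ?_)
      rw [tot_mul (Fw l), tot_sup (hw0 l)]
      ring
    rw [h2] at h1
    linarith

end Pool.Agent.TH954.V
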