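import Pool.Agent.TH954.V.Defs

/-!
# The height as a positive definite quadratic form
-/

set_option autoImplicit false
set_option linter.unusedSectionVars false

open MvPolynomial WeierstrassCurve Height Pool.Agent.TH942

namespace Pool.Agent.TH954.V

/-- coercivity of a positive definite quadratic form -/
lemma coercive' {κ : Type} [Fintype κ] (G : Matrix κ κ ℝ) (hG : G.PosDef) :
    ∃ c : ℝ, 0 < c ∧ ∀ x : κ → ℝ, c * ∑ i, x i ^ 2 ≤ ∑ i, ∑ k, x i * G i k * x k := by
  classical
  set q : (κ → ℝ) → ℝ := fun x => ∑ i, ∑ k, x i * G i k * x k with hq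
  have hqc : Continuous q := by
    rw [hq]; fun_prop
  have hpos : ∀ x : κ → ℝ, x ≠ 0 → 0 < q x := by
    intro x hx
    have := hG.dotProduct_mulVec_pos hx
    have e : q x = star x ⬝ᵥ (G.mulVec x) := by
      simp only [hq, dotProduct, Matrix.mulVec, Pi.star_apply, star_trivial, Finset.mul_sum]
      refine Finset.sum_congr rfl fun i _ => Finset.sum_congr rfl fun k _ => ?_
      ring
    rw [e]; exact this
  set S : Set (κ → ℝ) := {x | ∑ i, x i ^ 2 = 1} with hS
  have hScl : IsClosed S := isClosed_eq (by fun_prop) continuous_const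
  have hSb : Bornology.IsBounded S := by
    refine (Metric.isBounded_closedBall (x := (0 : κ → ℝ)) (r := 1)).subset (fun x hx => ?_)
    rw [mem_closedBall_zero_iff, pi_norm_le_iff_of_nonneg zero_le_one]
    intro i
    have h1 : x i ^ 2 ≤ ∑ i, x i ^ 2 :=
      Finset.single_le_sum (f := fun i => x i ^ 2) (fun i _ => sq_nonneg _) (Finset.mem_univ i)
    rw [show ∑ i, x i ^ 2 = 1 from hx] at h1
    rw [Real.norm_eq_abs]
    exact (sq_le_one_iff_abs_le_one _).mp h1
  have hSc : IsCompact S := Metric.isCompact_of_isClosed_isBounded hScl hSb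
  rcases S.eq_empty_or_nonempty with he | hne
  · refine ⟨1, one_pos, fun x => ?_⟩
    have hx : x = 0 := by
      by_contra hx
      have hs : 0 < ∑ i, x i ^ 2 := by
        obtain ⟨i, hi⟩ := Function.ne_iff.mp hx
        have h1 : x i ^ 2 ≤ ∑ i, x i ^ 2 :=
          Finset.single_le_sum (f := fun i => x i ^ 2) (fun i _ => sq_nonneg _) (Finset.mem_univ i)
        have h2 : 0 < x i ^ 2 := by
          have : x i ≠ 0 := hi
          positivity
        linarith
      have : (fun i => x i / √(∑ i, x i ^ 2)) ∈ S := by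
        change ∑ i, (x i / √(∑ i, x i ^ 2)) ^ 2 = 1
        simp_rw [div_pow, Real.sq_sqrt hs.le]
        rw [← Finset.sum_div, div_self hs.ne']
      rw [he] at this
      exact this
    rw [hx]
    simp
  · obtain ⟨y, hy, hmin⟩ := hSc.exists_isMinOn hne hqc.continuousOn
    have hy0 : y ≠ 0 := by
      rintro rfl
      have : ∑ i, (0 : κ → ℝ) i ^ 2 = 1 := hy
      simp at this
    refine ⟨q y, hpos y hy0, fun x => ?_⟩
    by_cases hx : ∑ i, x i ^ 2 = 0
    · rw [hx, mul_zero]
      rcases eq_or_ne x 0 with h | h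
      · rw [h]; simp
      · exact (hpos x h).le
    · have hs : 0 < ∑ i, x i ^ 2 :=
        lt_of_le_of_ne (Finset.sum_nonneg (fun i _ => sq_nonneg _)) (Ne.symm hx)
      have hmem : (fun i => x i / √(∑ i, x i ^ 2)) ∈ S := by
        change ∑ i, (x i / √(∑ i, x i ^ 2)) ^ 2 = 1
        simp_rw [div_pow, Real.sq_sqrt hs.le]
        rw [← Finset.sum_div, div_self hs.ne']
      have h1 : q y ≤ q (fun i => x i / √(∑ i, x i ^ 2)) := hmin hmem
      have h2 : q (fun i => x i / √(∑ i, x i ^ 2)) = q x / ∑ i, x i ^ 2 := by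
        simp only [hq]
        rw [Finset.sum_div]
        refine Finset.sum_congr rfl (fun i _ => ?_)
        rw [Finset.sum_div]
        refine Finset.sum_congr rfl (fun k _ => ?_)
        have h3 := Real.mul_self_sqrt hs.le
        have h4 : √(∑ i, x i ^ 2) ≠ 0 := (Real.sqrt_pos.mpr hs).ne'
        field_simp
        rw [Real.sq_sqrt hs.le]
        ring
      rw [h2, le_div_iff₀ hs] at h1
      exact h1

/-- the height of the abscissa is at most the height of the homogeneous coordinates -/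
lemma sht_le {K : Type} [Field K] [NumberField K] {a b : K} (P : SPt a b) :
    sht P ≤ logHeight (crd P) := by
  match P with
  | .zero =>
    have h0 : sht (Affine.Point.zero : SPt a b) = 0 := by
      change logHeight (Affine.Point.xRep (0 : SPt a b)) = 0
      rw [Affine.Point.xRep_zero]
      rw [logHeight_swap, ← logHeight₁_eq_logHeight, logHeight₁_zero]
    rw [h0]
    exact logHeight_nonneg _
  | .some x y h =>
    have h1 : sht (Affine.Point.some x y h : SPt a b) = logHeight ![x, 1] := by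
      rw [sht, Affine.Point.xRep_some]
    rw [h1]
    have h2 : (![x, 1] : Fin 2 → K) =
        (crd (Affine.Point.some x y h : SPt a b)) ∘ (![0, 2] : Fin 2 → Fin 3) := by
      funext i
      fin_cases i <;> rfl
    rw [h2]
    exact logHeight_comp_le _ _

theorem quad_setup {K : Type} [Field K] [NumberField K] [DecidableEq K] {a b : K}
    (hD : 4 * a ^ 3 + 27 * b ^ 2 ≠ 0) (Γ : AddSubgroup (SPt a b)) :
    ∃ (r : ℕ), Module.finrank ℤ Γ = r ∧
      ∃ (cd : Γ →+ (Fin r → ℤ)) (c1 c2 C : ℝ),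
      0 < c1 ∧ 0 ≤ c2 ∧ 0 ≤ C ∧
      (∀ P : Γ, c1 * ∑ i, (cd P i : ℝ) ^ 2 ≤ logHeight (crd P.1) + C) ∧
      (∀ P : Γ, logHeight (crd P.1) ≤ c2 * ∑ i, (cd P i : ℝ) ^ 2 + C) := by
  classical
  obtain ⟨q0, Cq, hCq, hq1, hq2', hq3'⟩ := canonical hD
  obtain ⟨C1, hC1, hC1'⟩ := ht_crd a b
  obtain ⟨r, g, hg⟩ := exists_basis (fg_of_inj Γ.subtype Γ.subtype_injective (sfg hD))
  have hr : Module.finrank ℤ Γ = r := by
    rw [card_basis hg, Fintype.card_fin]
  refine ⟨r, hr, ?_⟩
  set q : Γ → ℝ := fun P => q0 P.1 with hq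
  have hq2 : ∀ P : Γ, 0 ≤ q P := fun P => hq2' P.1
  have hq3 : ∀ P Q : Γ, q (P + Q) + q (P - Q) = 2 * (q P + q Q) := fun P Q => hq3' P.1 Q.1
  have hps : (gram q g).PosSemidef := by
    apply posSemidef_of_int' _ (gram_symm q g)
    intro c
    have := q_comb q hq3 g 0 IsOfFinAddOrder.zero c
    rw [add_zero] at this
    rw [← this]
    exact hq2 _
  obtain ⟨M, hM⟩ := exists_sqrt hps
  have hqM : ∀ c : Fin r → ℤ, q (∑ i, c i • g i) = ‖emb M (fun i => (c i : ℝ))‖ ^ 2 := by
    intro c
    have := q_comb q hq3 g 0 IsOfFinAddOrder.zero c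
    rw [add_zero] at this
    rw [this, emb_gram hM]
  have hqfin : ∀ B : ℝ, {P | q P ≤ B}.Finite := by
    intro B
    have h1 : {P : SPt a b | sht P ≤ B + Cq}.Finite := sfinite_ht (B + Cq)
    refine (h1.preimage (f := fun P : Γ => P.1) Subtype.val_injective.injOn).subset ?_
    intro P hP
    simp only [Set.mem_ofPred_eq, Set.mem_preimage] at hP ⊢
    have := abs_le.1 (hq1 P.1)
    simp only [hq] at hP
    linarith
  have hginj : Function.Injective (fun c : Fin r → ℤ => ∑ i, c i • g i) := by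
    intro c d hcd
    have h1 : TH942.crd hg (∑ i, c i • g i) = c := crd_eq hg (by
      rw [sub_self]; exact IsOfFinAddOrder.zero)
    have h2 : TH942.crd hg (∑ i, d i • g i) = d := crd_eq hg (by
      rw [sub_self]; exact IsOfFinAddOrder.zero)
    simp only at hcd
    rw [← h1, ← h2, hcd]
  have hMfin : ∀ R : ℝ, {c : Fin r → ℤ | ‖emb M (fun i => (c i : ℝ))‖ ≤ R}.Finite := by
    intro R
    have h1 := (hqfin (R ^ 2)).preimage (f := fun c : Fin r → ℤ => ∑ i, c i • g i) hginj.injOn
    refine h1.subset ?_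
    intro c hc
    simp only [Set.mem_ofPred_eq, Set.mem_preimage] at hc ⊢
    rw [hqM]
    have := norm_nonneg (emb M (fun i => (c i : ℝ)))
    nlinarith
  have hdet := det_ne_zero_of_finite hMfin
  have hpd : (gram q g).PosDef := by
    rw [hM]
    exact Matrix.PosDef.conjTranspose_mul_self M
      (Matrix.mulVec_injective_of_isUnit ((Matrix.isUnit_iff_isUnit_det M).mpr
        (isUnit_iff_ne_zero.mpr hdet)))
  obtain ⟨c0, hc0, hc0'⟩ := coercive' _ hpd
  have hqP : ∀ P, q P = ∑ i, ∑ j, (TH942.crd hg P i : ℝ) * (TH942.crd hg P j : ℝ) *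
      gram q g i j := by
    intro P
    have h1 := q_comb q hq3 g _ (crd_spec hg P) (TH942.crd hg P)
    rw [add_sub_cancel] at h1
    exact h1
  set c2 : ℝ := ∑ i, ∑ j, |gram q g i j| with hc2
  have hc20 : 0 ≤ c2 := Finset.sum_nonneg (fun _ _ => Finset.sum_nonneg (fun _ _ => abs_nonneg _))
  refine ⟨crdHom hg, c0, 3 / 2 * c2, 3 / 2 * Cq + C1, hc0, by positivity, by positivity, ?_, ?_⟩
  · intro P
    have h1 := hc0' (fun i => (TH942.crd hg P i : ℝ))
    have h2 : ∑ i, ∑ k, (TH942.crd hg P i : ℝ) * gram q g i k * (TH942.crd hg P k : ℝ) = q P := by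
      rw [hqP P]
      exact Finset.sum_congr rfl (fun i _ => Finset.sum_congr rfl (fun k _ => by ring))
    rw [h2] at h1
    have h3 := abs_le.1 (hq1 P.1)
    have h4 := sht_le P.1
    change c0 * ∑ i, (TH942.crd hg P i : ℝ) ^ 2 ≤ _
    simp only [hq] at h1
    linarith
  · intro P
    have h1 : q P ≤ c2 * ∑ i, (TH942.crd hg P i : ℝ) ^ 2 := by
      rw [hqP P, hc2, Finset.sum_mul]
      refine Finset.sum_le_sum (fun i _ => ?_)
      rw [Finset.sum_mul]
      refine Finset.sum_le_sum (fun j _ => ?_)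
      have h2 : ∀ i, (TH942.crd hg P i : ℝ) ^ 2 ≤ ∑ i, (TH942.crd hg P i : ℝ) ^ 2 := fun i =>
        Finset.single_le_sum (f := fun i => (TH942.crd hg P i : ℝ) ^ 2)
          (fun i _ => sq_nonneg _) (Finset.mem_univ i)
      have h3 : |(TH942.crd hg P i : ℝ) * (TH942.crd hg P j : ℝ)| ≤
          ∑ i, (TH942.crd hg P i : ℝ) ^ 2 := by
        rw [abs_mul]
        have h4 := two_mul_le_add_sq |(TH942.crd hg P i : ℝ)| |(TH942.crd hg P j : ℝ)|
        rw [sq_abs, sq_abs] at h4
        have := h2 i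
        have := h2 j
        linarith
      calc _ ≤ |(TH942.crd hg P i : ℝ) * (TH942.crd hg P j : ℝ) * gram q g i j| := le_abs_self _
        _ = |(TH942.crd hg P i : ℝ) * (TH942.crd hg P j : ℝ)| * |gram q g i j| := abs_mul _ _
        _ ≤ (∑ i, (TH942.crd hg P i : ℝ) ^ 2) * |gram q g i j| :=
            mul_le_mul_of_nonneg_right h3 (abs_nonneg _)
        _ = _ := mul_comm _ _
    have h3 := abs_le.1 (hq1 P.1)
    have h4 := hC1' P.1
    change _ ≤ 3 / 2 * c2 * ∑ i, (TH942.crd hg P i : ℝ) ^ 2 + _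
    simp only [hq] at h1
    nlinarith

end Pool.Agent.TH954.V
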