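import Pool.Agent.TH954.V.Count

/-!
# Existence of the auxiliary form: the general case
-/

set_option autoImplicit false
set_option linter.unusedSectionVars false

open MvPolynomial WeierstrassCurve Pool.Agent.TH942

namespace Pool.Agent.TH954.V

/-- Existence of the auxiliary form. -/
theorem countC (hilb : T_hilb) {K : Type} [Field K] {a b : K} {k y : ℕ}
    {t : ℕ} (F : Fin t → Type) [∀ i, Field (F i)] [∀ i, Algebra K (F i)]
    [∀ i, DecidableEq (F i)]
    (η : ∀ i, Fin k → SPt (algebraMap K (F i) a) (algebraMap K (F i) b))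
    (htr : ∀ i, Algebra.trdeg K (IntermediateField.adjoin K
      (Set.range (fun p : Fin k × Fin 3 => crd (η i p.1) p.2))) ≤ (y : Cardinal)) :
    ∃ c : ℕ, 1 ≤ c ∧ ∀ (m : ℕ) (n : Fin m → Fin k → ℤ) (D : Fin m → ℕ),
      (∀ i, Rep a b k (n i) (D i)) → ∀ d : Fin m → ℕ,
      c * (1 + ∑ l, d l * D l) ^ y < ∏ l, (d l + 1) →
      ∃ G : MvPolynomial (Fin m) K, G ≠ 0 ∧ (∀ e ∈ G.support, ∀ i, e i ≤ d i) ∧
        ∀ i, hev G d (fun l => crd (∑ j, n l j • η i j)) = 0 := by
  classical
  choose c0 hc0 using fun i => hilb K (F i) (Fin k × Fin 3)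
    (fun p : Fin k × Fin 3 => crd (η i p.1) p.2) y (htr i)
  set c1 : ℕ := ∑ i, c0 i with hc1
  set c : ℕ := c1 * (k + 1) ^ y + 1 with hc
  refine ⟨c, by omega, ?_⟩
  intro m n D hrep d hlt
  choose Fam hhom hrep using hrep
  set E : ℕ := ∑ l, d l * D l with hE
  -- choice of forms
  have hch : ∀ (i : Fin t) (l : Fin m), ∃ C : Fin 3 → MvPolynomial (Fin k × Fin 3) K,
      (∀ c, MultiHom (fun _ => D l) (C c)) ∧ ∃ s : F i, s ≠ 0 ∧
      (fun c => evc (C c) (fun j => crd (η i j))) = s • crd (∑ j, n l j • η i j) := by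
    intro i l
    obtain ⟨h1, C, hC, c', hne⟩ := hrep l (F i) _ _ rfl rfl (η i)
    obtain ⟨s, hs⟩ := h1 C hC
    refine ⟨C, hhom l C hC, s, ?_, hs⟩
    rintro rfl
    apply hne
    have := congrFun hs c'
    rw [zero_smul] at this
    exact this
  choose C hCh s hs0 hs using hch
  -- the spaces
  let V : (i : Fin t) → Submodule K (F i) := fun i =>
    Submodule.map (aeval (R := K) (fun p : Fin k × Fin 3 => crd (η i p.1) p.2)).toLinearMap
      (restrictTotalDegree (Fin k × Fin 3) K (k * E))
  have hmem : ∀ (i : Fin t) (G : MvPolynomial (Fin m) K), (∀ e ∈ G.support, ∀ l, e l ≤ d l) →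
      hev G d (fun l c => evc (C i l c) (fun j => crd (η i j))) ∈ V i := by
    intro i G hG
    refine ⟨hev G d (C i), ?_, ?_⟩
    · rw [SetLike.mem_coe, mem_restrictTotalDegree]
      exact totalDegree_le_of_MultiHom (MultiHom_hev G d hG D (C i) (fun l c' => hCh i l c'))
    · change aeval _ _ = _
      rw [map_hev]
      rfl
  -- the box of exponents
  let Box := (l : Fin m) → Fin (d l + 1)
  let toE : Box → (Fin m →₀ ℕ) := fun e => Finsupp.equivFunOnFinite.symm (fun l => (e l : ℕ))
  have htoE : Function.Injective toE := by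
    intro e e' h
    have h1 := Finsupp.equivFunOnFinite.symm.injective h
    funext l
    exact Fin.ext (congrFun h1 l)
  let mon : (i : Fin t) → Box → F i := fun i e =>
    ∏ l, (evc (C i l 0) (fun j => crd (η i j)) ^ (e l : ℕ) *
      evc (C i l 2) (fun j => crd (η i j)) ^ (d l - (e l : ℕ)))
  have hmon : ∀ (i : Fin t) (e : Box), hev (monomial (toE e) (1 : K)) d
      (fun l c => evc (C i l c) (fun j => crd (η i j))) = mon i e := by
    intro i e
    unfold hev
    rw [support_monomial, if_neg one_ne_zero, Finset.sum_singleton, coeff_monomial, if_pos rfl,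
      map_one, one_mul]
    rfl
  have hsupp : ∀ (e : Box), ∀ e' ∈ (monomial (toE e) (1 : K)).support, ∀ l, e' l ≤ d l := by
    intro e e' he' l
    rw [support_monomial, if_neg one_ne_zero, Finset.mem_singleton] at he'
    rw [he']
    exact Nat.lt_succ_iff.mp (e l).2
  have hmonmem : ∀ i e, mon i e ∈ V i := fun i e => by
    rw [← hmon i e]
    exact hmem i _ (hsupp e)
  let μ : Box → ((i : Fin t) → V i) := fun e i => ⟨mon i e, hmonmem i e⟩
  have hdep : ¬ LinearIndependent K μ := by
    intro hli
    have h1 := hli.fintype_card_le_finrank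
    have h2 : Fintype.card Box = ∏ l, (d l + 1) := by
      rw [Fintype.card_pi]
      simp
    have h3 : Module.finrank K ((i : Fin t) → V i) = ∑ i, Module.finrank K (V i) :=
      Module.finrank_pi_fintype K
    have h4 : ∑ i, Module.finrank K (V i) ≤ c1 * (k * E + 1) ^ y := by
      rw [hc1, Finset.sum_mul]
      exact Finset.sum_le_sum (fun i _ => hc0 i (k * E))
    rw [h2, h3] at h1
    have h5 : k * E + 1 ≤ (k + 1) * (1 + E) := by
      have : (k + 1) * (1 + E) = k * E + k + 1 + E := by ring
      omega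
    have h6 : c1 * (k * E + 1) ^ y ≤ c * (1 + E) ^ y := by
      calc c1 * (k * E + 1) ^ y ≤ c1 * ((k + 1) * (1 + E)) ^ y :=
            Nat.mul_le_mul_left _ (Nat.pow_le_pow_left h5 _)
        _ = (c1 * (k + 1) ^ y) * (1 + E) ^ y := by
            rw [mul_pow, mul_assoc]
        _ ≤ c * (1 + E) ^ y := Nat.mul_le_mul_right _ (by omega)
    omega
  rw [Fintype.not_linearIndependent_iff] at hdep
  obtain ⟨g, hg1, e0, hg2⟩ := hdep
  set G : MvPolynomial (Fin m) K := ∑ e, g e • monomial (toE e) (1 : K) with hG
  have hcoeff : ∀ e, coeff (toE e) G = g e := by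
    intro e
    rw [hG, coeff_sum, Finset.sum_eq_single e]
    · rw [coeff_smul, coeff_monomial, if_pos rfl, smul_eq_mul, mul_one]
    · intro e' _ hne
      rw [coeff_smul, coeff_monomial, if_neg (fun h => hne (htoE h)), smul_zero]
    · intro h
      exact absurd (Finset.mem_univ _) h
  have hGs : ∀ e ∈ G.support, ∀ i, e i ≤ d i := by
    intro e he i
    have h1 := support_sum he
    obtain ⟨e', -, he'⟩ := Finset.mem_biUnion.mp h1
    exact hsupp e' e (support_smul he') i
  refine ⟨G, ?_, hGs, ?_⟩
  · intro h0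
    apply hg2
    rw [← hcoeff e0, h0, coeff_zero]
  · intro i
    have h1 : hev G d (fun l c => evc (C i l c) (fun j => crd (η i j))) = 0 := by
      have h2 : (∑ e, g e • μ e) i = 0 := by rw [hg1]; rfl
      have h3 : ((∑ e, g e • μ e) i : V i).val = ∑ e, g e • mon i e := by
        rw [Finset.sum_apply, Submodule.coe_sum]
        rfl
      rw [h2] at h3
      have h4 : hev G d (fun l c => evc (C i l c) (fun j => crd (η i j))) =
          ∑ e, g e • mon i e := by
        rw [hev_of_subset G d _ (Finset.univ.image toE) ?_, Finset.sum_image]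
        · refine Finset.sum_congr rfl (fun e _ => ?_)
          rw [hcoeff e, Algebra.smul_def]
          rfl
        · exact fun e _ e' _ h => htoE h
        · intro e he
          obtain ⟨e', -, he'⟩ := Finset.mem_biUnion.mp (support_sum he)
          have h6 := support_smul he'
          rw [support_monomial, if_neg one_ne_zero, Finset.mem_singleton] at h6
          rw [h6]
          exact Finset.mem_image_of_mem _ (Finset.mem_univ _)
      rw [h4, ← h3]
      rfl
    have h5 : (fun l c => evc (C i l c) (fun j => crd (η i j))) =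
        fun l => s i l • crd (∑ j, n l j • η i j) := by
      funext l
      exact hs i l
    rw [h5, hev_smul G d hGs] at h1
    exact (mul_eq_zero.mp h1).resolve_left
      (Finset.prod_ne_zero_iff.mpr (fun l _ => pow_ne_zero _ (hs0 i l)))

end Pool.Agent.TH954.V
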