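import Pool.Agent.TH954.Ht

/-!
# Heights attached to closed subschemes of powers of an elliptic curve: definitions and targets
-/

set_option autoImplicit false

open MvPolynomial WeierstrassCurve Pool.Agent.TH942

namespace Pool.Agent.TH954.V

/-- first addition law (chord law; it vanishes exactly when `P = Q`) -/
def law1 {R : Type} [CommRing R] (a b : R) (p q : Fin 3 → R) : Fin 3 → R :=
  ![(p 0 * q 1 - q 0 * p 1) * (p 1 * q 2 + q 1 * p 2) + (p 0 * q 2 - q 0 * p 2) * (p 1 * q 1)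
      - a * (p 0 * q 2 + q 0 * p 2) * (p 0 * q 2 - q 0 * p 2)
      - 3 * b * (p 0 * q 2 - q 0 * p 2) * (p 2 * q 2),
    -(3 * (p 0 * q 0) * (p 0 * q 1 - q 0 * p 1)) - p 1 * q 1 * (p 1 * q 2 - q 1 * p 2)
      - a * (p 0 * q 1 - q 0 * p 1) * (p 2 * q 2)
      + a * (p 0 * q 2 + q 0 * p 2) * (p 1 * q 2 - q 1 * p 2)
      + 3 * b * (p 1 * q 2 - q 1 * p 2) * (p 2 * q 2),
    3 * (p 0 * q 0) * (p 0 * q 2 - q 0 * p 2) - (p 1 * q 2 + q 1 * p 2) * (p 1 * q 2 - q 1 * p 2)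
      + a * (p 0 * q 2 - q 0 * p 2) * (p 2 * q 2)]

/-- second addition law (it vanishes exactly when `P - Q` has order two) -/
def law2 {R : Type} [CommRing R] (a b : R) (p q : Fin 3 → R) : Fin 3 → R :=
  ![(p 0 * q 1 + q 0 * p 1) * (p 1 * q 1 - a * (p 0 * q 2 + q 0 * p 2) - 3 * b * (p 2 * q 2))
      - (p 1 * q 2 + q 1 * p 2) *
        (a * (p 0 * q 0) + 3 * b * (p 0 * q 2 + q 0 * p 2) - a ^ 2 * (p 2 * q 2)),
    (3 * (p 0 * q 0) + a * (p 2 * q 2)) *
        (a * (p 0 * q 0) + 3 * b * (p 0 * q 2 + q 0 * p 2) - a ^ 2 * (p 2 * q 2))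
      + (p 1 * q 1 + a * (p 0 * q 2 + q 0 * p 2) + 3 * b * (p 2 * q 2)) *
        (p 1 * q 1 - a * (p 0 * q 2 + q 0 * p 2) - 3 * b * (p 2 * q 2)),
    (p 1 * q 2 + q 1 * p 2) * (p 1 * q 1 + a * (p 0 * q 2 + q 0 * p 2) + 3 * b * (p 2 * q 2))
      + (p 0 * q 1 + q 0 * p 1) * (3 * (p 0 * q 0) + a * (p 2 * q 2))]

/-- the two laws represent the addition and do not vanish simultaneously -/
def T_law : Prop := ∀ (F : Type) [Field F] [DecidableEq F] [CharZero F] (a b : F),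
  4 * a ^ 3 + 27 * b ^ 2 ≠ 0 → ∀ P Q : SPt a b,
    (∃ s : F, law1 a b (crd P) (crd Q) = s • crd (P + Q)) ∧
    (∃ s : F, law2 a b (crd P) (crd Q) = s • crd (P + Q)) ∧
    (law1 a b (crd P) (crd Q) ≠ 0 ∨ law2 a b (crd P) (crd Q) ≠ 0)

/-- value of a polynomial in `k` groups of three variables at a `k`-tuple of vectors -/
noncomputable def evc {K F : Type} [Field K] [Field F] [Algebra K F] {k : ℕ}
    (f : MvPolynomial (Fin k × Fin 3) K) (u : Fin k → Fin 3 → F) : F :=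
  aeval (fun p : Fin k × Fin 3 => u p.1 p.2) f

/-- a finite family of triples of forms of multidegree `(D, ..., D)` representing the map
`(P_1, ..., P_k) ↦ n_1 P_1 + ... + n_k P_k`, without common zero on `E ^ k` over any field -/
def Rep {K : Type} [Field K] (a b : K) (k : ℕ) (n : Fin k → ℤ) (D : ℕ) : Prop :=
  ∃ Fam : Finset (Fin 3 → MvPolynomial (Fin k × Fin 3) K),
    (∀ C ∈ Fam, ∀ c, MultiHom (fun _ => D) (C c)) ∧
    ∀ (F : Type) [Field F] [DecidableEq F] [Algebra K F] (a' b' : F),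
      a' = algebraMap K F a → b' = algebraMap K F b → ∀ η : Fin k → SPt a' b',
      (∀ C ∈ Fam, ∃ s : F,
        (fun c => evc (C c) (fun j => crd (η j))) = s • crd (∑ j, n j • η j)) ∧
      ∃ C ∈ Fam, ∃ c, evc (C c) (fun j => crd (η j)) ≠ 0

/-- such families exist with `D` bounded by a multiple of `1 + ∑ n_j ^ 2` -/
def T_fam : Prop := ∀ (K : Type) [Field K] [CharZero K] (a b : K),
  4 * a ^ 3 + 27 * b ^ 2 ≠ 0 → ∀ k : ℕ, ∃ c : ℕ, ∀ n : Fin k → ℤ,
    ∃ D : ℕ, 1 ≤ D ∧ (D : ℤ) ≤ c * (1 + ∑ j, n j ^ 2) ∧ Rep a b k n D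

/-- geometry of numbers: `m` independent integer vectors, bounded in terms of `β` only, whose
products with `r` given integer vectors are small (`r * m < k`) -/
def T_lattice : Prop := ∀ r k m : ℕ, 1 ≤ r → 1 ≤ m → r * m < k →
  ∃ c : ℝ, 0 < c ∧ ∀ β : ℝ, 1 ≤ β → ∃ H : ℤ, ∀ (n : Fin r → Fin k → ℤ) (M : ℝ), 1 ≤ M →
    (∀ l j, |(n l j : ℝ)| ≤ M) →
    ∃ u : Fin m → Fin k → ℤ, LinearIndependent ℤ u ∧ (∀ i j, |u i j| ≤ H) ∧
      ∀ i, (∏ j ∈ Finset.univ.erase i, ∑ t, (u j t : ℝ) ^ 2) *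
        ∑ l, (∑ t, (u i t : ℝ) * n l t) ^ 2 ≤ c * M ^ 2 / β ^ 2

/-- upper bound for the Hilbert function in terms of the transcendence degree -/
def T_hilb : Prop := ∀ (K F : Type) [Field K] [Field F] [Algebra K F] (ι : Type) [Fintype ι]
  (z : ι → F) (y : ℕ),
  Algebra.trdeg K (IntermediateField.adjoin K (Set.range z)) ≤ (y : Cardinal) →
  ∃ c : ℕ, ∀ D : ℕ,
    Module.finrank K (Submodule.map (aeval (R := K) z).toLinearMap
      (restrictTotalDegree ι K D)) ≤ c * (D + 1) ^ y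

/-- avoiding finitely many hypersurfaces pulled back by independent linear forms -/
def T_avoid : Prop := ∀ (K : Type) [Field K] (ι : Type) [Finite ι] (k m : ℕ) (ξ : ℤ → K),
  (∀ u w : ℤ, u ≠ 0 → w ≠ 0 → ξ u = ξ w → u = w ∨ u = -w) →
  ∀ (u : ι → Fin m → Fin k → ℤ), (∀ s, LinearIndependent ℤ (u s)) →
  ∀ (G : ι → MvPolynomial (Fin m) K), (∀ s, G s ≠ 0) →
  ∃ n : Fin k → ℤ, ∀ s, (∀ i, ∑ j, u s i j * n j ≠ 0) ∧
    eval (fun i => ξ (∑ j, u s i j * n j)) (G s) ≠ 0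

/-- the homogeneous Weierstrass equations -/
noncomputable def wei {K : Type} [Field K] (a b : K) {k : ℕ} (j : Fin k) :
    MvPolynomial (Fin k × Fin 3) K :=
  X (j, 1) ^ 2 * X (j, 2) - X (j, 0) ^ 3 - C a * X (j, 0) * X (j, 2) ^ 2 - C b * X (j, 2) ^ 3

/-- Nullstellensatz: finitely many points of the scheme `{f = 0}` of `E ^ k` over extensions of `K`
(the generic points of its components) such that some power of each form vanishing there, times
a product of coordinates, lies in the ideal generated by `f` and the Weierstrass equations -/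
def T_null : Prop := ∀ (K : Type) [Field K] [CharZero K] (a b : K),
  4 * a ^ 3 + 27 * b ^ 2 ≠ 0 → ∀ (k s : ℕ) (f : Fin s → MvPolynomial (Fin k × Fin 3) K),
  (∀ i, ∃ δ, MultiHom δ (f i)) →
  ∃ N : ℕ, 0 < N ∧ ∃ (t : ℕ) (F : Fin t → Type) (_ : ∀ i, Field (F i))
    (_ : ∀ i, Algebra K (F i))
    (η : ∀ i, Fin k → SPt (algebraMap K (F i) a) (algebraMap K (F i) b)),
    (∀ i l, evc (f l) (fun j => crd (η i j)) = 0) ∧
    ∀ S : MvPolynomial (Fin k × Fin 3) K, (∃ σ, MultiHom σ S) →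
      (∀ i, evc S (fun j => crd (η i j)) = 0) →
      ∀ c : Fin k → Fin 3,
        (S * ∏ j, X (j, c j)) ^ N ∈ Ideal.span (Set.range f ∪ Set.range (wei a b))

end Pool.Agent.TH954.V
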