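import Pool.Agent.TH954.V.Lattice

/-!
# Geometry of numbers for real matrices
-/

set_option autoImplicit false

open Finset Pool.Agent.H393R2.Geom

namespace Pool.Agent.TH954.V.Lat

/-- the system of forms -/
noncomputable def formsR {r k : ℕ} (n : Fin r → Fin k → ℝ) (M β : ℝ) : Fin k ⊕ Fin r → Fin k → ℝ
  | Sum.inl j => fun t => if t = j then (β ^ r)⁻¹ else 0
  | Sum.inr l => fun t => n l t * (β ^ k / (M * β ^ r))

theorem formsR_base {r k : ℕ} (n : Fin r → Fin k → ℝ) (M β : ℝ) (hβ : 0 < β) :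
    mino (formsR n M β) Sum.inl ≠ 0 := by
  have e : (Matrix.of fun t => formsR n M β (Sum.inl t)) = ((β ^ r)⁻¹ : ℝ) • (1 : Matrix (Fin k) (Fin k) ℝ) := by
    ext s t
    simp only [formsR, Matrix.of_apply, Matrix.smul_apply, Matrix.one_apply, smul_eq_mul]
    by_cases h : s = t
    · subst h; simp
    · rw [if_neg (fun h' => h h'.symm), if_neg h]; simp
  unfold mino
  rw [e, Matrix.det_smul, Matrix.det_one, mul_one]
  positivity

theorem formsR_bound {r k : ℕ} (n : Fin r → Fin k → ℝ) (M β : ℝ) (hβ : 1 ≤ β) (hM : 1 ≤ M)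
    (hn : ∀ l j, |n l j| ≤ M) (f : Fin k → Fin k ⊕ Fin r) (hf : Function.Injective f) :
    |mino (formsR n M β) f| ≤ (k.factorial : ℝ) := by
  classical
  have hβ0 : 0 < β := by linarith
  have hM0 : 0 < M := by linarith
  set w : Fin k ⊕ Fin r → ℝ := fun i => (β ^ r)⁻¹ * (if i.isRight then β ^ k else 1) with hw
  have h1 : ∀ (i : Fin k ⊕ Fin r) t, |formsR n M β i t| ≤ w i := by
    rintro (j | l) t
    · simp only [formsR, hw, Sum.isRight_inl, Bool.false_eq_true, if_false, mul_one]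
      split_ifs
      · rw [abs_of_pos (by positivity)]
      · rw [abs_zero]; positivity
    · simp only [formsR, hw, Sum.isRight_inr, if_true]
      rw [abs_mul, abs_of_pos (show 0 < β ^ k / (M * β ^ r) by positivity)]
      calc |n l t| * (β ^ k / (M * β ^ r)) ≤ M * (β ^ k / (M * β ^ r)) :=
            mul_le_mul_of_nonneg_right (hn l t) (by positivity)
        _ = (β ^ r)⁻¹ * β ^ k := by field_simp
  have h2 := abs_det_le (Matrix.of fun t => formsR n M β (f t)) (fun t => w (f t)) (fun i l => h1 (f i) l)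
  refine h2.trans ?_
  have h3 : ∏ t, w (f t) ≤ 1 := by
    have e1 : ∏ t, w (f t) = ((β ^ r)⁻¹) ^ k * (β ^ k) ^ (univ.filter fun t => (f t).isRight).card := by
      rw [hw, Finset.prod_mul_distrib, Finset.prod_const, Finset.card_univ, Fintype.card_fin, Finset.prod_ite]
      simp
    have h4 : (univ.filter fun t => (f t).isRight).card ≤ r := by
      have h5 : (univ.filter fun t => (f t).isRight).card ≤ ((univ : Finset (Fin r)).map Function.Embedding.inr : Finset (Fin k ⊕ Fin r)).card := by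
        apply Finset.card_le_card_of_injOn f
        · intro t ht
          simp only [Finset.coe_filter, Finset.mem_univ, true_and, Set.mem_ofPred_eq] at ht
          simp only [Finset.coe_map, Set.mem_image, Finset.mem_coe, Finset.mem_univ, true_and]
          cases hft : f t with
          | inl a => rw [hft] at ht; simp at ht
          | inr b => exact ⟨b, rfl⟩
        · exact hf.injOn
      rwa [Finset.card_map, Finset.card_univ, Fintype.card_fin] at h5
    rw [e1]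
    calc ((β ^ r)⁻¹) ^ k * (β ^ k) ^ (univ.filter fun t => (f t).isRight).card ≤ ((β ^ r)⁻¹) ^ k * (β ^ k) ^ r := by
          apply mul_le_mul_of_nonneg_left _ (by positivity)
          exact pow_le_pow_right₀ (one_le_pow₀ hβ) h4
      _ = 1 := by
          rw [inv_pow, ← pow_mul, ← pow_mul, mul_comm k r]
          exact inv_mul_cancel₀ (by positivity)
  calc (k.factorial : ℝ) * ∏ t, w (f t) ≤ (k.factorial : ℝ) * 1 := mul_le_mul_of_nonneg_left h3 (by positivity)
    _ = (k.factorial : ℝ) := mul_one _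

theorem latticeR : ∀ r k m : ℕ, 1 ≤ r → 1 ≤ m → r * m < k →
  ∃ c : ℝ, 0 < c ∧ ∀ β : ℝ, 1 ≤ β → ∃ H : ℤ, ∀ (n : Fin r → Fin k → ℝ) (M : ℝ), 1 ≤ M →
    (∀ l j, |n l j| ≤ M) →
    ∃ u : Fin m → Fin k → ℤ, LinearIndependent ℤ u ∧ (∀ i j, |u i j| ≤ H) ∧
      ∀ i, (∏ j ∈ Finset.univ.erase i, ∑ t, (u j t : ℝ) ^ 2) *
        ∑ l, (∑ t, (u i t : ℝ) * n l t) ^ 2 ≤ c * M ^ 2 / β ^ 2 := by
  classical
  intro r k m hr hm hrm
  have hk : 0 < k := by omega
  have hmk : m ≤ k := by nlinarith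
  have hk0 : (0 : ℝ) < k := by exact_mod_cast hk
  have hr0 : (0 : ℝ) < r := by exact_mod_cast hr
  have hCC := one_le_CC hk
  have hCC0 : 0 < CC k := by linarith
  refine ⟨((k : ℝ) ^ 3) ^ (m - 1) * (r * (k : ℝ) ^ 2) * CC k ^ 2, by positivity, ?_⟩
  intro β hβ
  have hβ0 : 0 < β := by linarith
  refine ⟨⌈((k : ℝ) * β ^ r) ^ k * CC k⌉, ?_⟩
  intro n M hM hn
  have hM0 : 0 < M := by linarith
  obtain ⟨G, lam, hG, hl0, hlm, hlp, hlb⟩ := mink hk (formsR n M β) Sum.inl (formsR_base n M β hβ0)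
    (fun f hf => formsR_bound n M β hβ hM hn f hf)
  set B : ℝ := β ^ r with hB
  have hB0 : 0 < B := by positivity
  -- coordinates
  have hco : ∀ j t, |(G j t : ℝ)| ≤ k * B * lam j := by
    intro j t
    have h1 := hlb (Sum.inl t) j
    have h2 : ∑ s, formsR n M β (Sum.inl t) s * (G j s : ℝ) = B⁻¹ * (G j t : ℝ) := by
      simp only [formsR, ite_mul, zero_mul]
      rw [Finset.sum_ite_eq' univ t]
      simp [hB]
    rw [h2, abs_mul, abs_of_pos (inv_pos.2 hB0), inv_mul_le_iff₀ hB0] at h1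
    linarith
  have hin : ∀ j l, |∑ t, (G j t : ℝ) * n l t| ≤ k * lam j * (M * B / β ^ k) := by
    intro j l
    have h1 := hlb (Sum.inr l) j
    have h2 : ∑ s, formsR n M β (Sum.inr l) s * (G j s : ℝ) = (β ^ k / (M * B)) * ∑ t, (G j t : ℝ) * n l t := by
      simp only [formsR]
      rw [Finset.mul_sum]
      apply Finset.sum_congr rfl
      intro t _; ring
    have h3 : 0 < β ^ k / (M * B) := by positivity
    rw [h2, abs_mul, abs_of_pos h3] at h1
    have h4 : M * B / β ^ k = (β ^ k / (M * B))⁻¹ := by rw [inv_div]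
    rw [h4, ← div_eq_mul_inv, le_div_iff₀ h3]
    linarith
  -- lower bound of the minima
  have hlow : ∀ j, 1 ≤ k * B * lam j := by
    intro j
    have h1 : ∃ t, G j t ≠ 0 := by
      by_contra hcon
      push Not at hcon
      exact hG (Matrix.det_eq_zero_of_row_eq_zero j hcon)
    obtain ⟨t, ht⟩ := h1
    have h2 : (1 : ℝ) ≤ |(G j t : ℝ)| := by
      have := Int.one_le_abs ht
      exact_mod_cast this
    exact h2.trans (hco j t)
  have hupp : ∀ i, lam i ≤ (k * B) ^ (k - 1) * CC k := by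
    intro i
    have h1 : 1 ≤ ∏ j ∈ univ.erase i, (k * B * lam j) := Finset.one_le_prod fun j _ => hlow j
    rw [Finset.prod_mul_distrib, Finset.prod_const, Finset.card_erase_of_mem (mem_univ i), Finset.card_univ,
      Fintype.card_fin] at h1
    have h2 := Finset.mul_prod_erase univ lam (mem_univ i)
    have h3 : 0 < lam i := hl0 i
    calc lam i = lam i * 1 := (mul_one _).symm
      _ ≤ lam i * ((k * B) ^ (k - 1) * ∏ j ∈ univ.erase i, lam j) := mul_le_mul_of_nonneg_left h1 h3.le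
      _ = (k * B) ^ (k - 1) * ∏ j, lam j := by rw [← h2]; ring
      _ ≤ (k * B) ^ (k - 1) * CC k := mul_le_mul_of_nonneg_left hlp (by positivity)
  refine ⟨fun i => G (Fin.castLE hmk i), ?_, ?_, ?_⟩
  · exact (Matrix.linearIndependent_rows_of_det_ne_zero hG).comp _ (Fin.castLE_injective hmk)
  · intro i j
    have h1 := hco (Fin.castLE hmk i) j
    have h2 : (k : ℝ) * B * lam (Fin.castLE hmk i) ≤ ((k : ℝ) * B) ^ k * CC k := by
      calc (k : ℝ) * B * lam (Fin.castLE hmk i) ≤ (k : ℝ) * B * ((k * B) ^ (k - 1) * CC k) :=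
            mul_le_mul_of_nonneg_left (hupp _) (by positivity)
        _ = ((k : ℝ) * B) ^ (k - 1 + 1) * CC k := by rw [pow_succ]; ring
        _ = ((k : ℝ) * B) ^ k * CC k := by rw [Nat.sub_add_cancel hk]
    have h3 : (|G (Fin.castLE hmk i) j| : ℝ) ≤ ⌈((k : ℝ) * B) ^ k * CC k⌉ :=
      (h1.trans h2).trans (Int.le_ceil _)
    have h4 : ((|G (Fin.castLE hmk i) j| : ℤ) : ℝ) ≤ ⌈((k : ℝ) * B) ^ k * CC k⌉ := by
      rw [Int.cast_abs]; exact h3
    exact_mod_cast h4
  · intro i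
    set μ : Fin m → ℝ := fun i => lam (Fin.castLE hmk i) with hμ
    have hμ0 : ∀ j, 0 < μ j := fun j => hl0 _
    have hμp : ∏ j, μ j ≤ CC k := prod_head hmk (by omega) lam hl0 hlm hCC hlp
    have h1 : ∏ j ∈ univ.erase i, ∑ t, (G (Fin.castLE hmk j) t : ℝ) ^ 2 ≤ ∏ j ∈ univ.erase i, ((k : ℝ) ^ 3 * B ^ 2) * μ j ^ 2 := by
      apply Finset.prod_le_prod
      · intro j _; exact Finset.sum_nonneg fun t _ => sq_nonneg _
      · intro j _
        calc ∑ t, (G (Fin.castLE hmk j) t : ℝ) ^ 2 ≤ ∑ _t : Fin k, (k * B * μ j) ^ 2 := by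
              apply Finset.sum_le_sum
              intro t _
              rw [← sq_abs]
              exact pow_le_pow_left₀ (abs_nonneg _) (hco _ t) 2
          _ = ((k : ℝ) ^ 3 * B ^ 2) * μ j ^ 2 := by
              rw [Finset.sum_const, Finset.card_univ, Fintype.card_fin, nsmul_eq_mul]; ring
    have h2 : ∑ l, (∑ t, (G (Fin.castLE hmk i) t : ℝ) * n l t) ^ 2 ≤ r * (k * μ i * (M * B / β ^ k)) ^ 2 := by
      calc ∑ l, (∑ t, (G (Fin.castLE hmk i) t : ℝ) * n l t) ^ 2 ≤ ∑ _l : Fin r, (k * μ i * (M * B / β ^ k)) ^ 2 := by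
            apply Finset.sum_le_sum
            intro l _
            rw [← sq_abs]
            exact pow_le_pow_left₀ (abs_nonneg _) (hin _ l) 2
        _ = _ := by rw [Finset.sum_const, Finset.card_univ, Fintype.card_fin, nsmul_eq_mul]
    have h3 : 0 ≤ ∑ l, (∑ t, (G (Fin.castLE hmk i) t : ℝ) * n l t) ^ 2 := Finset.sum_nonneg fun t _ => sq_nonneg _
    have h4 : 0 ≤ ∏ j ∈ univ.erase i, ((k : ℝ) ^ 3 * B ^ 2) * μ j ^ 2 :=
      Finset.prod_nonneg fun j _ => mul_nonneg (by positivity) (sq_nonneg _)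
    refine (mul_le_mul h1 h2 h3 h4).trans ?_
    rw [Finset.prod_mul_distrib, Finset.prod_const, Finset.card_erase_of_mem (mem_univ i), Finset.card_univ,
      Fintype.card_fin, Finset.prod_pow]
    have h5 := Finset.mul_prod_erase univ μ (mem_univ i)
    have e1 : ((k : ℝ) ^ 3 * B ^ 2) ^ (m - 1) * (∏ j ∈ univ.erase i, μ j) ^ 2 * (r * (k * μ i * (M * B / β ^ k)) ^ 2) =
        (((k : ℝ) ^ 3) ^ (m - 1) * (r * (k : ℝ) ^ 2)) * (∏ j, μ j) ^ 2 * (M ^ 2 * ((B ^ 2) ^ (m - 1) * B ^ 2 / (β ^ k) ^ 2)) := by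
      rw [← h5, mul_pow ((k : ℝ) ^ 3) (B ^ 2)]; ring
    rw [e1]
    have h6 : (∏ j, μ j) ^ 2 ≤ CC k ^ 2 := pow_le_pow_left₀ (Finset.prod_nonneg fun j _ => (hμ0 j).le) hμp 2
    have h7 : (B ^ 2) ^ (m - 1) * B ^ 2 / (β ^ k) ^ 2 ≤ 1 / β ^ 2 := by
      rw [div_le_div_iff₀ (by positivity) (by positivity), one_mul]
      have e2 : (B ^ 2) ^ (m - 1) * B ^ 2 = β ^ (2 * (r * m)) := by
        rw [← pow_succ, Nat.sub_add_cancel hm, hB, ← pow_mul, ← pow_mul]
        congr 1; ring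
      rw [e2, ← pow_add, ← pow_mul]
      exact pow_le_pow_right₀ hβ (by omega)
    have hc1 : (0 : ℝ) ≤ ((k : ℝ) ^ 3) ^ (m - 1) * (r * (k : ℝ) ^ 2) := by positivity
    calc (((k : ℝ) ^ 3) ^ (m - 1) * (r * (k : ℝ) ^ 2)) * (∏ j, μ j) ^ 2 * (M ^ 2 * ((B ^ 2) ^ (m - 1) * B ^ 2 / (β ^ k) ^ 2))
        ≤ (((k : ℝ) ^ 3) ^ (m - 1) * (r * (k : ℝ) ^ 2)) * CC k ^ 2 * (M ^ 2 * (1 / β ^ 2)) := by
          apply mul_le_mul (mul_le_mul_of_nonneg_left h6 hc1) (mul_le_mul_of_nonneg_left h7 (sq_nonneg _))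
            (by positivity) (by positivity)
      _ = ((k : ℝ) ^ 3) ^ (m - 1) * (r * (k : ℝ) ^ 2) * CC k ^ 2 * M ^ 2 / β ^ 2 := by ring

end Pool.Agent.TH954.V.Lat
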