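import Pool.Agent.TH954.V.TotL
import Pool.Agent.TH954.V.LatticeR

/-!
# Duplication and heights, uniform over all number fields containing `K`
-/

set_option autoImplicit false
set_option linter.unusedSectionVars false

open MvPolynomial WeierstrassCurve NumberField Height Pool.Agent.TH942 Pool.Agent.TH135.J1609

namespace Pool.Agent.TH954.V

section dbl

variable {K : Type} [Field K]

/-- the forms giving the duplication -/
noncomputable def dbl (a b : K) : Fin 3 → MvPolynomial (Fin 1 × Fin 3) K :=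
  lawP a b false (fun c => X (0, c)) (fun c => X (0, c))

lemma dbl_hom (a b : K) (c : Fin 3) : MultiHom (fun _ => 4) (dbl a b c) := by
  have h := lawP_hom (a := a) (b := b) (k := 1) false (d := 1) (e := 1)
    (p := fun c => X (0, c)) (q := fun c => X (0, c))
    (fun c => ?_) (fun c => ?_) c
  · exact h
  all_goals
    have h1 := mh_X (K := K) (k := 1) 0 c
    intro m hm i
    have hi : i = 0 := Subsingleton.elim _ _
    subst hi
    rw [mem_support_iff, coeff_X] at hm
    have hm2 : Finsupp.single ((0 : Fin 1), c) 1 = m := by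
      by_contra hcon
      rw [if_neg hcon] at hm
      exact hm rfl
    rw [← hm2]
    simp [Finsupp.single_apply]

lemma dbl_ev (a b : K) {F : Type} [Field F] [Algebra K F] (u : Fin 1 → Fin 3 → F) :
    (fun c => evc (dbl a b c) u) = law2 (algebraMap K F a) (algebraMap K F b) (u 0) (u 0) := by
  unfold dbl
  rw [ev_lawP]
  have h1 : (fun c : Fin 3 => evc (X ((0 : Fin 1), c) : MvPolynomial (Fin 1 × Fin 3) K) u) =
      u 0 := by
    funext c
    simp [evc]
  rw [h1]
  rfl

lemma law1_self {R : Type} [CommRing R] (a b : R) (p : Fin 3 → R) : law1 a b p p = 0 := by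
  funext c
  fin_cases c <;> simp [law1]

end dbl

theorem dbl_bound {K : Type} [Field K] [NumberField K] {a b : K}
    (hD : 4 * a ^ 3 + 27 * b ^ 2 ≠ 0) :
    ∃ C : ℝ, 0 ≤ C ∧ ∀ (L : Type) [Field L] [NumberField L] [DecidableEq L] [Algebra K L]
      (R : SPt (algebraMap K L a) (algebraMap K L b)),
      |logHeight (crd ((2 : ℤ) • R)) - 4 * logHeight (crd R)| ≤ C * Module.finrank ℚ L := by
  classical
  have hkey : ∀ (F : Type) [Field F] [DecidableEq F] [Algebra K F] (a' b' : F),
      a' = algebraMap K F a → b' = algebraMap K F b → ∀ R : SPt a' b',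
      ∃ s : F, s ≠ 0 ∧ law2 a' b' (crd R) (crd R) = s • crd ((2 : ℤ) • R) := by
    intro F _ _ _ a' b' ha hb R
    have : CharZero F := charZero_of_injective_algebraMap (algebraMap K F).injective
    have hD' : 4 * a' ^ 3 + 27 * b' ^ 2 ≠ 0 := by
      intro h0
      apply hD
      apply (algebraMap K F).injective
      rw [map_zero, ← h0, ha, hb]
      simp only [map_add, map_mul, map_pow, map_ofNat]
    obtain ⟨-, ⟨s, hs⟩, h3⟩ := law F a' b' hD' R R
    rw [law1_self] at h3
    refine ⟨s, ?_, ?_⟩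
    · rintro rfl
      rw [hs, zero_smul] at h3
      simp at h3
    · rw [hs, two_zsmul]
  obtain ⟨A, M, hM, hA⟩ := locL_fam hD (n := fun _ : Fin 1 => 2) (D := 4) {dbl a b}
    (fun C hC c => by
      rw [Finset.mem_singleton] at hC
      rw [hC]
      exact dbl_hom a b c)
    (fun F _ _ _ a' b' ha hb η => by
      obtain ⟨s, hs0, hs⟩ := hkey F a' b' ha hb (η 0)
      refine ⟨fun C hC => ⟨s, ?_⟩, dbl a b, Finset.mem_singleton_self _, ?_⟩
      · rw [Finset.mem_singleton] at hC
        rw [hC, dbl_ev, ← ha, ← hb, hs, Fin.sum_univ_one]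
      · have h1 : (fun c => evc (dbl a b c) (fun j => crd (η j))) = s • crd ((2 : ℤ) • η 0) := by
          rw [dbl_ev, ← ha, ← hb, hs]
        obtain ⟨c, hc⟩ := Function.ne_iff.mp (crd_ne_zero ((2 : ℤ) • η 0))
        refine ⟨c, ?_⟩
        have h2 := congrFun h1 c
        rw [h2, Pi.smul_apply, smul_eq_mul]
        exact mul_ne_zero hs0 hc)
  obtain ⟨C1, hC1, hC1'⟩ := tot_kap A hM 1
  choose A' M' hM' hA' using fun c => nvL_le (dbl a b c) (fun _ => 4) (dbl_hom a b c)
  choose C2 hC2 hC2' using fun c => tot_kap (A' c) (hM' c) 1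
  refine ⟨C1 + ∑ c, C2 c, add_nonneg hC1 (Finset.sum_nonneg (fun c _ => hC2 c)),
    fun L _ _ _ _ R => ?_⟩
  obtain ⟨s, hs0, hs⟩ := hkey L _ _ rfl rfl R
  have hR0 := crd_ne_zero R
  have hR2 := crd_ne_zero ((2 : ℤ) • R)
  have hpos : ∀ w : AbsoluteValue L ℝ, 0 < ⨆ c, w (crd R c) := fun w => sup_pos w hR0
  have hpos2 : ∀ w : AbsoluteValue L ℝ, 0 < ⨆ c, w (crd ((2 : ℤ) • R) c) :=
    fun w => sup_pos w hR2
  have hkp : ∀ (B : Finset K) (m : ℕ), 1 ≤ m → ∀ w : AbsoluteValue L ℝ, 0 < kap B m 1 w :=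
    fun B m hm w => zero_lt_one.trans_le (one_le_kap B hm 1 w)
  have Fs : FS (fun w : AbsoluteValue L ℝ => Real.log (w s)) := FS_log hs0
  have F1 : FS (fun w : AbsoluteValue L ℝ => Real.log (⨆ c, w (crd R c))) := FS_sup hR0
  have F2 : FS (fun w : AbsoluteValue L ℝ => Real.log (⨆ c, w (crd ((2 : ℤ) • R) c))) :=
    FS_sup hR2
  -- lower bound
  have hlow : ∀ w : AbsoluteValue L ℝ, 4 * Real.log (⨆ c, w (crd R c)) ≤
      Real.log (kap A M 1 w) + (Real.log (w s) + Real.log (⨆ c, w (crd ((2 : ℤ) • R) c))) := by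
    intro w
    obtain ⟨C, hC, s', hs', hle⟩ := hA L w (fun _ => R)
    rw [Finset.mem_singleton] at hC
    subst hC
    have h1 : s' = s := by
      rw [dbl_ev, hs] at hs'
      simp only [Finset.univ_unique, Finset.sum_const, Finset.card_singleton, one_smul] at hs'
      obtain ⟨c, hc⟩ := Function.ne_iff.mp hR2
      have h2 := congrFun hs' c
      rw [Pi.smul_apply, Pi.smul_apply, smul_eq_mul, smul_eq_mul] at h2
      exact (mul_right_cancel₀ hc h2).symm
    rw [h1] at hle
    simp only [Finset.univ_unique, Finset.prod_const, Finset.sum_const, Finset.card_singleton,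
      one_smul, pow_one] at hle
    have h3 := Real.log_le_log (pow_pos (hpos w) 4) hle
    rw [Real.log_pow, Real.log_mul (hkp _ _ hM w).ne' (mul_pos (w.pos hs0) (hpos2 w)).ne',
      Real.log_mul (w.pos hs0).ne' (hpos2 w).ne'] at h3
    push_cast at h3
    exact h3
  have hupp : ∀ w : AbsoluteValue L ℝ,
      Real.log (w s) + Real.log (⨆ c, w (crd ((2 : ℤ) • R) c)) ≤
      ∑ c, Real.log (kap (A' c) (M' c) 1 w) + 4 * Real.log (⨆ c, w (crd R c)) := by
    intro w
    obtain ⟨c, hc⟩ := exists_sup w (crd ((2 : ℤ) • R))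
    have h1 := hA' c L w _ _ (fun _ => R)
    unfold nvL at h1
    simp only [Finset.univ_unique, Finset.prod_const, Finset.card_singleton, pow_one] at h1
    rw [div_le_iff₀ (pow_pos (hpos w) 4)] at h1
    have h2 : evc (dbl a b c) (fun _ => crd R) = s * crd ((2 : ℤ) • R) c := by
      have h3 := dbl_ev a b (fun _ : Fin 1 => crd R)
      rw [hs] at h3
      exact congrFun h3 c
    rw [h2, w.map_mul, hc] at h1
    have h3 := Real.log_le_log (mul_pos (w.pos hs0) (hpos2 w)) h1
    rw [Real.log_mul (w.pos hs0).ne' (hpos2 w).ne', Real.log_mul (hkp _ _ (hM' c) w).ne'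
      (pow_pos (hpos w) 4).ne', Real.log_pow] at h3
    push_cast at h3
    have h4 : Real.log (kap (A' c) (M' c) 1 w) ≤ ∑ c, Real.log (kap (A' c) (M' c) 1 w) :=
      Finset.single_le_sum (f := fun c => Real.log (kap (A' c) (M' c) 1 w))
        (fun c _ => Real.log_nonneg (one_le_kap _ (hM' c) 1 w)) (Finset.mem_univ c)
    linarith
  have t1 := tot_le (FS_mul F1 4) (FS_add (hC1' L).1 (FS_add Fs F2)) (fun w => hlow (ai w))
    (fun v => hlow (av v))
  rw [tot_mul F1, tot_add (hC1' L).1 (FS_add Fs F2), tot_add Fs F2, tot_log hs0, tot_sup hR0,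
    tot_sup hR2, zero_add] at t1
  have Fk : FS (fun w : AbsoluteValue L ℝ => ∑ c, Real.log (kap (A' c) (M' c) 1 w)) :=
    FS_sum _ (fun c _ => (hC2' c L).1)
  have t2 := tot_le (FS_add Fs F2) (FS_add Fk (FS_mul F1 4)) (fun w => hupp (ai w))
    (fun v => hupp (av v))
  rw [tot_add Fk (FS_mul F1 4), tot_add Fs F2, tot_log hs0,
    tot_sup hR2, zero_add, tot_sum _ (fun c _ => (hC2' c L).1), tot_mul F1, tot_sup hR0] at t2
  have h1 := (hC1' L).2
  have h2 : ∑ c, tot (fun w : AbsoluteValue L ℝ => Real.log (kap (A' c) (M' c) 1 w)) ≤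
      (∑ c, C2 c) * Module.finrank ℚ L := by
    rw [Finset.sum_mul]
    exact Finset.sum_le_sum (fun c _ => (hC2' c L).2)
  have h3 : 0 ≤ C1 * (Module.finrank ℚ L : ℝ) := mul_nonneg hC1 (Nat.cast_nonneg _)
  have h4 : 0 ≤ (∑ c, C2 c) * (Module.finrank ℚ L : ℝ) :=
    mul_nonneg (Finset.sum_nonneg (fun c _ => hC2 c)) (Nat.cast_nonneg _)
  rw [abs_le, add_mul]
  constructor <;> linarith

end Pool.Agent.TH954.V
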