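import Pool.Agent.TH954.V.LocV

/-!
# The local estimate for the auxiliary form
-/

set_option autoImplicit false

open MvPolynomial WeierstrassCurve Pool.Agent.TH942

namespace Pool.Agent.TH954.V

section hev

variable {K : Type} [Field K] {m : ℕ}

/-- value of the multihomogenisation of `G` (of degree `d i` in the `i`-th pair) at the first and
third coordinates of `m` triples -/
noncomputable def hev {A : Type} [CommRing A] [Algebra K A] (G : MvPolynomial (Fin m) K)
    (d : Fin m → ℕ) (u : Fin m → Fin 3 → A) : A :=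
  ∑ e ∈ G.support, algebraMap K A (coeff e G) * ∏ i, (u i 0 ^ e i * u i 2 ^ (d i - e i))

lemma map_hev {A B : Type} [CommRing A] [Algebra K A] [CommRing B] [Algebra K B]
    (φ : A →ₐ[K] B) (G : MvPolynomial (Fin m) K) (d : Fin m → ℕ) (u : Fin m → Fin 3 → A) :
    φ (hev G d u) = hev G d (fun i c => φ (u i c)) := by
  simp only [hev, map_sum, map_mul, map_prod, map_pow, AlgHom.commutes]

lemma hev_smul {A : Type} [CommRing A] [Algebra K A] (G : MvPolynomial (Fin m) K)
    (d : Fin m → ℕ) (hd : ∀ e ∈ G.support, ∀ i, e i ≤ d i) (s : Fin m → A)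
    (u : Fin m → Fin 3 → A) :
    hev G d (fun i => s i • u i) = (∏ i, s i ^ d i) * hev G d u := by
  unfold hev
  rw [Finset.mul_sum]
  refine Finset.sum_congr rfl (fun e he => ?_)
  have h1 : ∏ i, ((s i • u i) 0 ^ e i * (s i • u i) 2 ^ (d i - e i)) =
      (∏ i, s i ^ d i) * ∏ i, (u i 0 ^ e i * u i 2 ^ (d i - e i)) := by
    rw [← Finset.prod_mul_distrib]
    refine Finset.prod_congr rfl (fun i _ => ?_)
    have h2 : s i ^ d i = s i ^ e i * s i ^ (d i - e i) := by
      rw [← pow_add, Nat.add_sub_cancel' (hd e he i)]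
    rw [h2, Pi.smul_apply, Pi.smul_apply, smul_eq_mul, smul_eq_mul, mul_pow, mul_pow]
    ring
  rw [h1]
  ring

end hev

section multihom

variable {K : Type} [Field K] {k : ℕ}

lemma MultiHom_one : MultiHom (fun _ => 0) (1 : MvPolynomial (Fin k × Fin 3) K) := by
  intro m hm i
  have : m = 0 := by
    by_contra h
    rw [mem_support_iff, coeff_one, if_neg (Ne.symm h)] at hm
    exact hm rfl
  simp [this]

lemma MultiHom_C (z : K) : MultiHom (fun _ => 0) (C z : MvPolynomial (Fin k × Fin 3) K) := by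
  classical
  intro m hm i
  have : m = 0 := by
    by_contra h
    rw [mem_support_iff, coeff_C, if_neg (Ne.symm h)] at hm
    exact hm rfl
  simp [this]

lemma MultiHom_mul {d e : Fin k → ℕ} {f g : MvPolynomial (Fin k × Fin 3) K}
    (hf : MultiHom d f) (hg : MultiHom e g) : MultiHom (fun i => d i + e i) (f * g) := by
  classical
  intro m hm i
  obtain ⟨m1, h1, m2, h2, h3⟩ := Finset.mem_add.mp (support_mul f g hm)
  rw [← h3]
  simp only [Finsupp.coe_add, Pi.add_apply, Finset.sum_add_distrib, hf m1 h1 i, hg m2 h2 i]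

lemma MultiHom_pow {d : Fin k → ℕ} {f : MvPolynomial (Fin k × Fin 3) K}
    (hf : MultiHom d f) (n : ℕ) : MultiHom (fun i => n * d i) (f ^ n) := by
  induction n with
  | zero =>
    rw [pow_zero]
    have : (fun i : Fin k => 0 * d i) = fun _ => 0 := by funext i; simp
    rw [this]
    exact MultiHom_one
  | succ n ih =>
    rw [pow_succ]
    have : (fun i : Fin k => (n + 1) * d i) = fun i => n * d i + d i := by funext i; ring
    rw [this]
    exact MultiHom_mul ih hf

lemma MultiHom_prod {ι : Type} (s : Finset ι) (d : ι → Fin k → ℕ)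
    (f : ι → MvPolynomial (Fin k × Fin 3) K) (hf : ∀ i ∈ s, MultiHom (d i) (f i)) :
    MultiHom (fun j => ∑ i ∈ s, d i j) (∏ i ∈ s, f i) := by
  classical
  induction s using Finset.induction_on with
  | empty => simpa using MultiHom_one
  | insert a s ha ih =>
    rw [Finset.prod_insert ha]
    simp only [Finset.sum_insert ha]
    exact MultiHom_mul (hf a (Finset.mem_insert_self _ _))
      (ih (fun i hi => hf i (Finset.mem_insert_of_mem hi)))

lemma MultiHom_sum {ι : Type} (s : Finset ι) (d : Fin k → ℕ)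
    (f : ι → MvPolynomial (Fin k × Fin 3) K) (hf : ∀ i ∈ s, MultiHom d (f i)) :
    MultiHom d (∑ i ∈ s, f i) := by
  classical
  intro m hm i
  obtain ⟨j, hj, hjm⟩ := Finset.mem_biUnion.mp (support_sum hm)
  exact hf j hj m hjm i

lemma MultiHom_hev {m : ℕ} (G : MvPolynomial (Fin m) K) (d : Fin m → ℕ)
    (hd : ∀ e ∈ G.support, ∀ i, e i ≤ d i) (D : Fin m → ℕ)
    (C : Fin m → Fin 3 → MvPolynomial (Fin k × Fin 3) K)
    (hC : ∀ i c, MultiHom (fun _ => D i) (C i c)) :
    MultiHom (fun _ => ∑ i, d i * D i) (hev G d C) := by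
  unfold hev
  refine MultiHom_sum _ _ _ (fun e he => ?_)
  have h1 : MultiHom (fun _ : Fin k => ∑ i, (e i * D i + (d i - e i) * D i))
      (∏ i, (C i 0 ^ e i * C i 2 ^ (d i - e i))) := by
    have := MultiHom_prod Finset.univ (fun (i : Fin m) (_ : Fin k) => e i * D i + (d i - e i) * D i)
      (fun i => C i 0 ^ e i * C i 2 ^ (d i - e i)) (fun i _ =>
        MultiHom_mul (MultiHom_pow (hC i 0) (e i)) (MultiHom_pow (hC i 2) (d i - e i)))
    exact this
  have h2 := MultiHom_mul (MultiHom_C (k := k) (coeff e G)) h1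
  have h3 : (fun _ : Fin k => 0 + ∑ i, (e i * D i + (d i - e i) * D i)) =
      fun _ : Fin k => ∑ i, d i * D i := by
    funext _
    rw [zero_add]
    refine Finset.sum_congr rfl (fun i _ => ?_)
    rw [← add_mul, Nat.add_sub_cancel' (hd e he i)]
  rw [h3] at h2
  exact h2

end multihom

section loc

variable {K : Type} [Field K] [CharZero K] {k : ℕ}

/-- Local lower bound for a family of forms without common zero. -/
theorem loc_fam [DecidableEq K] {a b : K} (hD : 4 * a ^ 3 + 27 * b ^ 2 ≠ 0) {n : Fin k → ℤ}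
    {D : ℕ} (Fam : Finset (Fin 3 → MvPolynomial (Fin k × Fin 3) K))
    (hhom : ∀ C ∈ Fam, ∀ c, MultiHom (fun _ => D) (C c))
    (hrep : ∀ (F : Type) [Field F] [DecidableEq F] [Algebra K F] (a' b' : F),
      a' = algebraMap K F a → b' = algebraMap K F b → ∀ η : Fin k → SPt a' b',
      (∀ C ∈ Fam, ∃ s : F,
        (fun c => evc (C c) (fun j => crd (η j))) = s • crd (∑ j, n j • η j)) ∧
      ∃ C ∈ Fam, ∃ c, evc (C c) (fun j => crd (η j)) ≠ 0) :
    ∃ A : Finset K, ∀ v : AbsoluteValue K ℝ, ∃ M : ℝ, 1 ≤ M ∧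
      ((∀ x y, v (x + y) ≤ max (v x) (v y)) → (∀ z ∈ A, v z ≤ 1) → M = 1) ∧
      ∀ P : Fin k → SPt a b, ∃ C ∈ Fam, ∃ s : K,
        (fun c => evc (C c) (fun j => crd (P j))) = s • crd (∑ j, n j • P j) ∧
        ∏ j, (⨆ c, v (crd (P j) c)) ^ D ≤
          M * (v s * ⨆ c, v (crd (∑ j, n j • P j) c)) := by
  classical
  let e := Fintype.equivFin (↥Fam × Fin 3)
  obtain ⟨N, hN, t, F, iF, iA, η, hη1, hη2⟩ := null K a b hD k _
    (fun i => (e.symm i).1.1 (e.symm i).2) (fun i => ⟨_, hhom _ (e.symm i).1.2 _⟩)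
  have hempty : Fin t → False := by
    intro i
    obtain ⟨-, C, hC, c, hne⟩ := hrep (F i) _ _ rfl rfl (η i)
    apply hne
    have := hη1 i (e (⟨C, hC⟩, c))
    simpa using this
  have h1 := hη2 1 ⟨_, MultiHom_one⟩ (fun i => (hempty i).elim)
  obtain ⟨A, hA⟩ := loc_null (a := a) (b := b) (fun i => (e.symm i).1.1 (e.symm i).2)
    (fun _ _ => D) (fun i => hhom _ (e.symm i).1.2 _) 1 (fun _ => 0) MultiHom_one N h1
  refine ⟨A, fun v => ?_⟩
  obtain ⟨M, hM1, hM2, hM3⟩ := hA v
  refine ⟨M, hM1, hM2, fun P => ?_⟩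
  have h2 := hM3 P
  have h3 : nv v (fun _ => 0) (1 : MvPolynomial (Fin k × Fin 3) K) (fun j => crd (P j)) = 1 := by
    simp [nv, evc]
  rw [h3, one_pow] at h2
  have hne : Nonempty (Fin (Fintype.card (↥Fam × Fin 3))) := by
    by_contra hcon
    rw [not_nonempty_iff] at hcon
    rw [Real.iSup_of_isEmpty, mul_zero] at h2
    linarith
  obtain ⟨i, hi⟩ := Finite.exists_max
    (fun i => nv v (fun _ => D) ((e.symm i).1.1 (e.symm i).2) (fun j => crd (P j)))
  have h4 : (⨆ i, nv v (fun _ => D) ((e.symm i).1.1 (e.symm i).2) (fun j => crd (P j))) ≤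
      nv v (fun _ => D) ((e.symm i).1.1 (e.symm i).2) (fun j => crd (P j)) := ciSup_le hi
  have h5 : 1 ≤ M * nv v (fun _ => D) ((e.symm i).1.1 (e.symm i).2) (fun j => crd (P j)) :=
    h2.trans (mul_le_mul_of_nonneg_left h4 (by linarith))
  obtain ⟨hr, -⟩ := hrep K a b rfl rfl P
  obtain ⟨s, hs⟩ := hr _ (e.symm i).1.2
  refine ⟨_, (e.symm i).1.2, s, hs, ?_⟩
  have hpos : 0 < ∏ j, (⨆ c, v (crd (P j) c)) ^ D :=
    Finset.prod_pos (fun j _ => pow_pos (sup_pos v (crd_ne_zero _)) _)
  have h6 : v (evc ((e.symm i).1.1 (e.symm i).2) (fun j => crd (P j))) ≤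
      v s * ⨆ c, v (crd (∑ j, n j • P j) c) := by
    have h7 : evc ((e.symm i).1.1 (e.symm i).2) (fun j => crd (P j)) =
        (s • crd (∑ j, n j • P j)) (e.symm i).2 := congrFun hs (e.symm i).2
    rw [h7, Pi.smul_apply, smul_eq_mul, v.map_mul]
    exact mul_le_mul_of_nonneg_left (le_sup v _ _) (v.nonneg _)
  unfold nv at h5
  rw [← mul_div_assoc, one_le_div hpos] at h5
  refine h5.trans ?_
  exact mul_le_mul_of_nonneg_left h6 (by linarith)

end loc

end Pool.Agent.TH954.V
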