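import Pool.Agent.TH954.V.GlobA

/-!
# The local estimate for the auxiliary form, continued
-/

set_option autoImplicit false

open MvPolynomial WeierstrassCurve Pool.Agent.TH942

namespace Pool.Agent.TH954.V

variable {K : Type} [Field K] [CharZero K] {k : ℕ}

lemma one_le_prodR {ι : Type} (s : Finset ι) {g : ι → ℝ} (h : ∀ i ∈ s, 1 ≤ g i) :
    1 ≤ ∏ i ∈ s, g i := by
  calc (1 : ℝ) = ∏ _i ∈ s, (1 : ℝ) := by simp
    _ ≤ _ := Finset.prod_le_prod (fun _ _ => zero_le_one) h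

/-- The local estimate for the auxiliary form. -/
theorem loc_G [DecidableEq K] {a b : K} (hD : 4 * a ^ 3 + 27 * b ^ 2 ≠ 0) {s : ℕ}
    (f : Fin s → MvPolynomial (Fin k × Fin 3) K)
    (δ : Fin s → Fin k → ℕ) (hf : ∀ i, MultiHom (δ i) (f i)) {N : ℕ} {t : ℕ}
    (F : Fin t → Type) [∀ i, Field (F i)] [∀ i, Algebra K (F i)] [∀ i, DecidableEq (F i)]
    (η : ∀ i, Fin k → SPt (algebraMap K (F i) a) (algebraMap K (F i) b))
    (hη : ∀ S : MvPolynomial (Fin k × Fin 3) K, (∃ σ, MultiHom σ S) →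
      (∀ i, evc S (fun j => crd (η i j)) = 0) →
      ∀ c : Fin k → Fin 3,
        (S * ∏ j, X (j, c j)) ^ N ∈ Ideal.span (Set.range f ∪ Set.range (wei a b)))
    {m : ℕ} (n : Fin m → Fin k → ℤ) (D : Fin m → ℕ) (hrep : ∀ i, Rep a b k (n i) (D i))
    (G : MvPolynomial (Fin m) K) (d : Fin m → ℕ) (hd : ∀ e ∈ G.support, ∀ i, e i ≤ d i)
    (hG : ∀ i, hev G d (fun l => crd (∑ j, n l j • η i j)) = 0) :
    ∃ A : Finset K, ∀ v : AbsoluteValue K ℝ, ∃ M : ℝ, 1 ≤ M ∧
      ((∀ x y, v (x + y) ≤ max (v x) (v y)) → (∀ z ∈ A, v z ≤ 1) → M = 1) ∧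
      ∀ P : Fin k → SPt a b,
        (v (hev G d (fun l => crd (∑ j, n l j • P j))) /
            ∏ l, (⨆ c, v (crd (∑ j, n l j • P j) c)) ^ d l) ^ N ≤
          M * ⨆ i, nv v (δ i) (f i) (fun j => crd (P j)) := by
  classical
  choose Fam hhom hrep using hrep
  choose A hA using fun i => loc_fam hD (Fam i) (hhom i) (hrep i)
  -- the forms attached to a choice
  have h1 : ∀ T : (i : Fin m) → ↥(Fam i), ∃ A : Finset K, ∀ v : AbsoluteValue K ℝ,
      ∃ M : ℝ, 1 ≤ M ∧ ((∀ x y, v (x + y) ≤ max (v x) (v y)) → (∀ z ∈ A, v z ≤ 1) → M = 1) ∧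
      ∀ P : Fin k → SPt a b,
        nv v (fun _ => ∑ i, d i * D i) (hev G d (fun i => (T i).1)) (fun j => crd (P j)) ^ N ≤
        M * ⨆ i, nv v (δ i) (f i) (fun j => crd (P j)) := by
    intro T
    have hhomT := MultiHom_hev G d hd D (fun i => (T i).1) (fun i c => hhom i _ (T i).2 c)
    refine loc_null f δ hf _ _ hhomT N (hη _ ⟨_, hhomT⟩ (fun i => ?_))
    have h2 : ∀ l, ∃ r : F i, (fun c => evc ((T l).1 c) (fun j => crd (η i j))) =
        r • crd (∑ j, n l j • η i j) := fun l => (hrep l (F i) _ _ rfl rfl (η i)).1 _ (T l).2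
    choose r hr using h2
    unfold evc
    rw [map_hev]
    have h3 : (fun (l : Fin m) (c : Fin 3) => aeval (fun p : Fin k × Fin 3 => crd (η i p.1) p.2)
        ((T l).1 c)) = fun l => r l • crd (∑ j, n l j • η i j) := by
      funext l
      exact hr l
    rw [h3, hev_smul G d hd, hG i, mul_zero]
  choose B hB using h1
  refine ⟨(Finset.univ.biUnion A) ∪ (Finset.univ.biUnion B), fun v => ?_⟩
  choose M1 hM1 hM1' hM1'' using fun i => hA i v
  choose M2 hM2 hM2' hM2'' using fun T => hB T v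
  have hM10 : ∀ i, 0 < M1 i := fun i => zero_lt_one.trans_le (hM1 i)
  have hM20 : ∀ i, 0 < M2 i := fun i => zero_lt_one.trans_le (hM2 i)
  have hp2 : 1 ≤ ∏ T, M2 T := one_le_prodR _ (fun T _ => hM2 T)
  have hp1 : 1 ≤ ∏ i, M1 i ^ (d i * N) :=
    one_le_prodR _ (fun i _ => one_le_pow₀ (hM1 i))
  refine ⟨(∏ i, M1 i ^ (d i * N)) * ∏ T, M2 T, one_le_mul_of_one_le_of_one_le hp1 hp2, ?_, ?_⟩
  · intro hv hz
    have e1 : ∀ i, M1 i = 1 := fun i => hM1' i hv (fun z hz' => hz z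
      (Finset.mem_union_left _ (Finset.mem_biUnion.mpr ⟨i, Finset.mem_univ _, hz'⟩)))
    have e2 : ∀ T, M2 T = 1 := fun T => hM2' T hv (fun z hz' => hz z
      (Finset.mem_union_right _ (Finset.mem_biUnion.mpr ⟨T, Finset.mem_univ _, hz'⟩)))
    simp [e1, e2]
  intro P
  choose T0 hT0 r hr1 hr2 using fun i => hM1'' i P
  set T : (i : Fin m) → ↥(Fam i) := fun i => ⟨T0 i, hT0 i⟩ with hT
  set g : K := hev G d (fun l => crd (∑ j, n l j • P j)) with hg
  set w : Fin m → ℝ := fun l => ⨆ c, v (crd (∑ j, n l j • P j) c) with hw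
  set Q : Fin k → ℝ := fun j => ⨆ c, v (crd (P j) c) with hQ
  have hw0 : ∀ l, 0 < w l := fun l => sup_pos v (crd_ne_zero _)
  have hQ0 : ∀ j, 0 < Q j := fun j => sup_pos v (crd_ne_zero _)
  have hsup0 : 0 ≤ ⨆ i, nv v (δ i) (f i) (fun j => crd (P j)) :=
    Real.iSup_nonneg (fun i => nv_nonneg _ _ _ _)
  -- value of the form attached to `T`
  have h3 : evc (hev G d (fun i => (T i).1)) (fun j => crd (P j)) = (∏ i, r i ^ d i) * g := by
    unfold evc
    rw [map_hev]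
    have h3 : (fun (l : Fin m) (c : Fin 3) => aeval (fun p : Fin k × Fin 3 => crd (P p.1) p.2)
        ((T l).1 c)) = fun l => r l • crd (∑ j, n l j • P j) := by
      funext l
      exact hr1 l
    rw [h3, hev_smul G d hd]
  have h4 : nv v (fun _ => ∑ i, d i * D i) (hev G d (fun i => (T i).1)) (fun j => crd (P j)) =
      (∏ i, v (r i) ^ d i) * v g / ∏ i, (∏ j, Q j ^ D i) ^ d i := by
    unfold nv
    rw [h3, v.map_mul, v.map_prod]
    simp_rw [v.map_pow]
    congr 1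
    rw [show (∏ j, (⨆ c, v (crd (P j) c)) ^ (∑ i, d i * D i)) = ∏ j, Q j ^ (∑ i, d i * D i) from rfl]
    have : ∀ i, (∏ j, Q j ^ D i) ^ d i = ∏ j, Q j ^ (d i * D i) := by
      intro i
      rw [← Finset.prod_pow]
      refine Finset.prod_congr rfl (fun j _ => ?_)
      rw [← pow_mul, mul_comm]
    simp_rw [this]
    rw [Finset.prod_comm]
    refine Finset.prod_congr rfl (fun j _ => ?_)
    rw [Finset.prod_pow_eq_pow_sum]
  have h5 : v g / ∏ l, w l ^ d l ≤ (∏ i, M1 i ^ d i) *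
      nv v (fun _ => ∑ i, d i * D i) (hev G d (fun i => (T i).1)) (fun j => crd (P j)) := by
    rw [h4]
    have hA0 : 0 < ∏ l, w l ^ d l := Finset.prod_pos (fun l _ => pow_pos (hw0 l) _)
    have hB0 : 0 < ∏ i, (∏ j, Q j ^ D i) ^ d i := Finset.prod_pos
      (fun i _ => pow_pos (Finset.prod_pos (fun j _ => pow_pos (hQ0 j) _)) _)
    rw [← mul_div_assoc, div_le_div_iff₀ hA0 hB0]
    have h6 : ∏ i, (∏ j, Q j ^ D i) ^ d i ≤
        (∏ i, M1 i ^ d i) * ((∏ i, v (r i) ^ d i) * ∏ l, w l ^ d l) := by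
      rw [← Finset.prod_mul_distrib, ← Finset.prod_mul_distrib]
      refine Finset.prod_le_prod (fun i _ => pow_nonneg (Finset.prod_nonneg
        (fun j _ => pow_nonneg (hQ0 j).le _)) _) (fun i _ => ?_)
      rw [← mul_pow, ← mul_pow]
      exact pow_le_pow_left₀ (Finset.prod_nonneg (fun j _ => pow_nonneg (hQ0 j).le _)) (hr2 i) _
    calc v g * ∏ i, (∏ j, Q j ^ D i) ^ d i ≤
          v g * ((∏ i, M1 i ^ d i) * ((∏ i, v (r i) ^ d i) * ∏ l, w l ^ d l)) :=
          mul_le_mul_of_nonneg_left h6 (v.nonneg _)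
      _ = _ := by ring
  have h7 : 0 ≤ v g / ∏ l, w l ^ d l := div_nonneg (v.nonneg _)
    (Finset.prod_nonneg (fun l _ => pow_nonneg (hw0 l).le _))
  calc (v g / ∏ l, w l ^ d l) ^ N ≤ ((∏ i, M1 i ^ d i) *
      nv v (fun _ => ∑ i, d i * D i) (hev G d (fun i => (T i).1)) (fun j => crd (P j))) ^ N :=
        pow_le_pow_left₀ h7 h5 N
    _ = (∏ i, M1 i ^ (d i * N)) *
      nv v (fun _ => ∑ i, d i * D i) (hev G d (fun i => (T i).1)) (fun j => crd (P j)) ^ N := by
        rw [mul_pow, ← Finset.prod_pow]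
        simp_rw [← pow_mul]
    _ ≤ (∏ i, M1 i ^ (d i * N)) * (M2 T * ⨆ i, nv v (δ i) (f i) (fun j => crd (P j))) :=
        mul_le_mul_of_nonneg_left (hM2'' T P) (by linarith)
    _ ≤ (∏ i, M1 i ^ (d i * N)) *
          ((∏ T, M2 T) * ⨆ i, nv v (δ i) (f i) (fun j => crd (P j))) := by
        refine mul_le_mul_of_nonneg_left (mul_le_mul_of_nonneg_right ?_ hsup0) (by linarith)
        rw [← Finset.mul_prod_erase Finset.univ M2 (Finset.mem_univ T)]
        exact le_mul_of_one_le_right (hM20 T).le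
          (one_le_prodR _ (fun T _ => hM2 T))
    _ = _ := by ring

end Pool.Agent.TH954.V
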