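import Pool.Agent.TH954.V.LocL

/-!
# The local estimates for families and for the auxiliary form, uniform over all extension fields
-/

set_option autoImplicit false
set_option linter.unusedSectionVars false

open MvPolynomial WeierstrassCurve Pool.Agent.TH942

namespace Pool.Agent.TH954.V

variable {K : Type} [Field K] [CharZero K] {k : ℕ}

/-- Local lower bound for a family of forms without common zero. -/
theorem locL_fam {a b : K} (hD : 4 * a ^ 3 + 27 * b ^ 2 ≠ 0) {n : Fin k → ℤ}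
    {D : ℕ} (Fam : Finset (Fin 3 → MvPolynomial (Fin k × Fin 3) K))
    (hhom : ∀ C ∈ Fam, ∀ c, MultiHom (fun _ => D) (C c))
    (hrep : ∀ (F : Type) [Field F] [DecidableEq F] [Algebra K F] (a' b' : F),
      a' = algebraMap K F a → b' = algebraMap K F b → ∀ η : Fin k → SPt a' b',
      (∀ C ∈ Fam, ∃ s : F,
        (fun c => evc (C c) (fun j => crd (η j))) = s • crd (∑ j, n j • η j)) ∧
      ∃ C ∈ Fam, ∃ c, evc (C c) (fun j => crd (η j)) ≠ 0) :
    ∃ (A : Finset K) (M : ℕ), 1 ≤ M ∧ ∀ (L : Type) [Field L] [DecidableEq L] [Algebra K L]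
      (w : AbsoluteValue L ℝ) (P : Fin k → SPt (algebraMap K L a) (algebraMap K L b)),
      ∃ C ∈ Fam, ∃ s : L,
        (fun c => evc (C c) (fun j => crd (P j))) = s • crd (∑ j, n j • P j) ∧
        ∏ j, (⨆ c, w (crd (P j) c)) ^ D ≤
          kap A M 1 w * (w s * ⨆ c, w (crd (∑ j, n j • P j) c)) := by
  classical
  let e := Fintype.equivFin (↥Fam × Fin 3)
  obtain ⟨N, hN, t, F, iF, iA, η, hη1, hη2⟩ := null K a b hD k _
    (fun i => (e.symm i).1.1 (e.symm i).2) (fun i => ⟨_, hhom _ (e.symm i).1.2 _⟩)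
  have hempty : Fin t → False := by
    intro i
    obtain ⟨-, C, hC, c, hne⟩ := hrep (F i) _ _ rfl rfl (η i)
    apply hne
    have := hη1 i (e (⟨C, hC⟩, c))
    simpa using this
  have h1 := hη2 1 ⟨_, MultiHom_one⟩ (fun i => (hempty i).elim)
  obtain ⟨A, M, hM1, hA⟩ := locL_null (a := a) (b := b) (fun i => (e.symm i).1.1 (e.symm i).2)
    (fun _ _ => D) (fun i => hhom _ (e.symm i).1.2 _) 1 (fun _ => 0) MultiHom_one N h1
  refine ⟨A, M, hM1, fun L _ _ _ w P => ?_⟩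
  have h2 := hA L w P
  have h3 : nvL w (fun _ => 0) (1 : MvPolynomial (Fin k × Fin 3) K) (fun j => crd (P j)) = 1 := by
    simp [nvL, evc]
  rw [h3, one_pow] at h2
  have hM0 : 0 ≤ kap A M 1 w := zero_le_one.trans (one_le_kap A hM1 1 w)
  have hne : Nonempty (Fin (Fintype.card (↥Fam × Fin 3))) := by
    by_contra hcon
    rw [not_nonempty_iff] at hcon
    rw [Real.iSup_of_isEmpty, mul_zero] at h2
    linarith
  obtain ⟨i, hi⟩ := Finite.exists_max
    (fun i => nvL w (fun _ => D) ((e.symm i).1.1 (e.symm i).2) (fun j => crd (P j)))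
  have h4 : (⨆ i, nvL w (fun _ => D) ((e.symm i).1.1 (e.symm i).2) (fun j => crd (P j))) ≤
      nvL w (fun _ => D) ((e.symm i).1.1 (e.symm i).2) (fun j => crd (P j)) := ciSup_le hi
  have h5 : 1 ≤ kap A M 1 w *
      nvL w (fun _ => D) ((e.symm i).1.1 (e.symm i).2) (fun j => crd (P j)) :=
    h2.trans (mul_le_mul_of_nonneg_left h4 hM0)
  obtain ⟨hr, -⟩ := hrep L _ _ rfl rfl P
  obtain ⟨s, hs⟩ := hr _ (e.symm i).1.2
  refine ⟨_, (e.symm i).1.2, s, hs, ?_⟩
  have hpos : 0 < ∏ j, (⨆ c, w (crd (P j) c)) ^ D :=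
    Finset.prod_pos (fun j _ => pow_pos (sup_pos w (crd_ne_zero _)) _)
  have h6 : w (evc ((e.symm i).1.1 (e.symm i).2) (fun j => crd (P j))) ≤
      w s * ⨆ c, w (crd (∑ j, n j • P j) c) := by
    have h7 : evc ((e.symm i).1.1 (e.symm i).2) (fun j => crd (P j)) =
        (s • crd (∑ j, n j • P j)) (e.symm i).2 := congrFun hs (e.symm i).2
    rw [h7, Pi.smul_apply, smul_eq_mul, w.map_mul]
    exact mul_le_mul_of_nonneg_left (le_sup w _ _) (w.nonneg _)
  unfold nvL at h5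
  rw [← mul_div_assoc, one_le_div hpos] at h5
  exact h5.trans (mul_le_mul_of_nonneg_left h6 hM0)

/-- The local estimate for the auxiliary form. -/
theorem locL_G {a b : K} (hD : 4 * a ^ 3 + 27 * b ^ 2 ≠ 0) {s : ℕ}
    (f : Fin s → MvPolynomial (Fin k × Fin 3) K)
    (δ : Fin s → Fin k → ℕ) (hf : ∀ i, MultiHom (δ i) (f i)) {N : ℕ} {t : ℕ}
    (F : Fin t → Type) [∀ i, Field (F i)] [∀ i, Algebra K (F i)] [∀ i, DecidableEq (F i)]
    (η : ∀ i, Fin k → SPt (algebraMap K (F i) a) (algebraMap K (F i) b))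
    (hη : ∀ S : MvPolynomial (Fin k × Fin 3) K, (∃ σ, MultiHom σ S) →
      (∀ i, evc S (fun j => crd (η i j)) = 0) →
      ∀ c : Fin k → Fin 3,
        (S * ∏ j, X (j, c j)) ^ N ∈ Ideal.span (Set.range f ∪ Set.range (wei a b)))
    {m : ℕ} (n : Fin m → Fin k → ℤ) (D : Fin m → ℕ) (hrep : ∀ i, Rep a b k (n i) (D i))
    (G : MvPolynomial (Fin m) K) (d : Fin m → ℕ) (hd : ∀ e ∈ G.support, ∀ i, e i ≤ d i)
    (hG : ∀ i, hev G d (fun l => crd (∑ j, n l j • η i j)) = 0) :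
    ∃ (A : Finset K) (M e : ℕ), 1 ≤ M ∧ ∀ (L : Type) [Field L] [DecidableEq L] [Algebra K L]
      (w : AbsoluteValue L ℝ) (P : Fin k → SPt (algebraMap K L a) (algebraMap K L b)),
        (w (hev G d (fun l => crd (∑ j, n l j • P j))) /
            ∏ l, (⨆ c, w (crd (∑ j, n l j • P j) c)) ^ d l) ^ N ≤
          kap A M e w * ⨆ i, nvL w (δ i) (f i) (fun j => crd (P j)) := by
  classical
  choose Fam hhom hrep using hrep
  choose A1 M1 hM11 hA1 using fun i => locL_fam hD (Fam i) (hhom i) (hrep i)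
  -- the forms attached to a choice
  have h1 : ∀ T : (i : Fin m) → ↥(Fam i), ∃ (A : Finset K) (M : ℕ), 1 ≤ M ∧
      ∀ (L : Type) [Field L] [Algebra K L]
      (w : AbsoluteValue L ℝ) (P : Fin k → SPt (algebraMap K L a) (algebraMap K L b)),
        nvL w (fun _ => ∑ i, d i * D i) (hev G d (fun i => (T i).1)) (fun j => crd (P j)) ^ N ≤
        kap A M 1 w * ⨆ i, nvL w (δ i) (f i) (fun j => crd (P j)) := by
    intro T
    have hhomT := MultiHom_hev G d hd D (fun i => (T i).1) (fun i c => hhom i _ (T i).2 c)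
    refine locL_null f δ hf _ _ hhomT N (hη _ ⟨_, hhomT⟩ (fun i => ?_))
    have h2 : ∀ l, ∃ r : F i, (fun c => evc ((T l).1 c) (fun j => crd (η i j))) =
        r • crd (∑ j, n l j • η i j) := fun l => (hrep l (F i) _ _ rfl rfl (η i)).1 _ (T l).2
    choose r hr using h2
    unfold evc
    rw [map_hev]
    have h3 : (fun (l : Fin m) (c : Fin 3) => aeval (fun p : Fin k × Fin 3 => crd (η i p.1) p.2)
        ((T l).1 c)) = fun l => r l • crd (∑ j, n l j • η i j) := by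
      funext l
      exact hr l
    rw [h3, hev_smul G d hd, hG i, mul_zero]
  choose A2 M2 hM21 hA2 using h1
  obtain ⟨B1, hB1⟩ := kap_prod_le Finset.univ A1 (fun i => M1 i ^ (d i * N))
    (fun i => 1 * (d i * N))
  obtain ⟨B2, hB2⟩ := kap_prod_le Finset.univ A2 M2 (fun _ => 1)
  refine ⟨B1 ∪ B2, (∏ i, M1 i ^ (d i * N)) * ∏ T, M2 T,
    (∑ i, 1 * (d i * N)) + ∑ _T : ((i : Fin m) → ↥(Fam i)), 1, ?_, ?_⟩
  · exact Nat.mul_pos (Finset.prod_pos (fun i _ => pow_pos (hM11 i) _))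
      (Finset.prod_pos (fun T _ => hM21 T))
  intro L _ _ _ w P
  refine le_trans ?_ (mul_le_mul_of_nonneg_right (kap_mul_le B1 B2 _ _ _ _ w)
    (Real.iSup_nonneg (fun i => nvL_nonneg _ _ _ _)))
  refine le_trans ?_ (mul_le_mul_of_nonneg_right (mul_le_mul (hB1 L w) (hB2 L w)
    (Finset.prod_nonneg (fun T _ => zero_le_one.trans (one_le_kap _ (hM21 T) _ _)))
    (zero_le_one.trans (one_le_kap _ (show 1 ≤ ∏ i, M1 i ^ (d i * N) from
      Finset.prod_pos (fun i _ => pow_pos (show 0 < M1 i from hM11 i) _)) _ _)))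
    (Real.iSup_nonneg (fun i => nvL_nonneg _ _ _ _)))
  choose T0 hT0 r hr1 hr2 using fun i => hA1 i L w P
  set T : (i : Fin m) → ↥(Fam i) := fun i => ⟨T0 i, hT0 i⟩ with hT
  set g : L := hev G d (fun l => crd (∑ j, n l j • P j)) with hg
  set ww : Fin m → ℝ := fun l => ⨆ c, w (crd (∑ j, n l j • P j) c) with hw
  set Q : Fin k → ℝ := fun j => ⨆ c, w (crd (P j) c) with hQ
  have hw0 : ∀ l, 0 < ww l := fun l => sup_pos w (crd_ne_zero _)
  have hQ0 : ∀ j, 0 < Q j := fun j => sup_pos w (crd_ne_zero _)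
  have hsup0 : 0 ≤ ⨆ i, nvL w (δ i) (f i) (fun j => crd (P j)) :=
    Real.iSup_nonneg (fun i => nvL_nonneg _ _ _ _)
  have hk1 : ∀ i, 1 ≤ kap (A1 i) (M1 i) 1 w := fun i => one_le_kap _ (hM11 i) _ _
  have hk2 : ∀ T, 1 ≤ kap (A2 T) (M2 T) 1 w := fun T => one_le_kap _ (hM21 T) _ _
  -- value of the form attached to `T`
  have h3 : evc (hev G d (fun i => (T i).1)) (fun j => crd (P j)) = (∏ i, r i ^ d i) * g := by
    unfold evc
    rw [map_hev]
    have h3 : (fun (l : Fin m) (c : Fin 3) => aeval (fun p : Fin k × Fin 3 => crd (P p.1) p.2)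
        ((T l).1 c)) = fun l => r l • crd (∑ j, n l j • P j) := by
      funext l
      exact hr1 l
    rw [h3, hev_smul G d hd]
  have h4 : nvL w (fun _ => ∑ i, d i * D i) (hev G d (fun i => (T i).1)) (fun j => crd (P j)) =
      (∏ i, w (r i) ^ d i) * w g / ∏ i, (∏ j, Q j ^ D i) ^ d i := by
    unfold nvL
    rw [h3, w.map_mul, w.map_prod]
    simp_rw [w.map_pow]
    congr 1
    rw [show (∏ j, (⨆ c, w (crd (P j) c)) ^ (∑ i, d i * D i)) = ∏ j, Q j ^ (∑ i, d i * D i) from rfl]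
    have : ∀ i, (∏ j, Q j ^ D i) ^ d i = ∏ j, Q j ^ (d i * D i) := by
      intro i
      rw [← Finset.prod_pow]
      refine Finset.prod_congr rfl (fun j _ => ?_)
      rw [← pow_mul, mul_comm]
    simp_rw [this]
    rw [Finset.prod_comm]
    refine Finset.prod_congr rfl (fun j _ => ?_)
    rw [Finset.prod_pow_eq_pow_sum]
  have h5 : w g / ∏ l, ww l ^ d l ≤ (∏ i, kap (A1 i) (M1 i) 1 w ^ d i) *
      nvL w (fun _ => ∑ i, d i * D i) (hev G d (fun i => (T i).1)) (fun j => crd (P j)) := by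
    rw [h4]
    have hA0 : 0 < ∏ l, ww l ^ d l := Finset.prod_pos (fun l _ => pow_pos (hw0 l) _)
    have hB0 : 0 < ∏ i, (∏ j, Q j ^ D i) ^ d i := Finset.prod_pos
      (fun i _ => pow_pos (Finset.prod_pos (fun j _ => pow_pos (hQ0 j) _)) _)
    rw [← mul_div_assoc, div_le_div_iff₀ hA0 hB0]
    have h6 : ∏ i, (∏ j, Q j ^ D i) ^ d i ≤
        (∏ i, kap (A1 i) (M1 i) 1 w ^ d i) * ((∏ i, w (r i) ^ d i) * ∏ l, ww l ^ d l) := by
      rw [← Finset.prod_mul_distrib, ← Finset.prod_mul_distrib]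
      refine Finset.prod_le_prod (fun i _ => pow_nonneg (Finset.prod_nonneg
        (fun j _ => pow_nonneg (hQ0 j).le _)) _) (fun i _ => ?_)
      rw [← mul_pow, ← mul_pow]
      exact pow_le_pow_left₀ (Finset.prod_nonneg (fun j _ => pow_nonneg (hQ0 j).le _)) (hr2 i) _
    calc w g * ∏ i, (∏ j, Q j ^ D i) ^ d i ≤
          w g * ((∏ i, kap (A1 i) (M1 i) 1 w ^ d i) *
            ((∏ i, w (r i) ^ d i) * ∏ l, ww l ^ d l)) :=
          mul_le_mul_of_nonneg_left h6 (w.nonneg _)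
      _ = _ := by ring
  have h7 : 0 ≤ w g / ∏ l, ww l ^ d l := div_nonneg (w.nonneg _)
    (Finset.prod_nonneg (fun l _ => pow_nonneg (hw0 l).le _))
  calc (w g / ∏ l, ww l ^ d l) ^ N ≤ ((∏ i, kap (A1 i) (M1 i) 1 w ^ d i) *
      nvL w (fun _ => ∑ i, d i * D i) (hev G d (fun i => (T i).1)) (fun j => crd (P j))) ^ N :=
        pow_le_pow_left₀ h7 h5 N
    _ = (∏ i, kap (A1 i) (M1 i ^ (d i * N)) (1 * (d i * N)) w) *
      nvL w (fun _ => ∑ i, d i * D i) (hev G d (fun i => (T i).1)) (fun j => crd (P j)) ^ N := by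
        rw [mul_pow, ← Finset.prod_pow]
        simp_rw [← pow_mul, kap_pow]
    _ ≤ (∏ i, kap (A1 i) (M1 i ^ (d i * N)) (1 * (d i * N)) w) *
          (kap (A2 T) (M2 T) 1 w * ⨆ i, nvL w (δ i) (f i) (fun j => crd (P j))) := by
        refine mul_le_mul_of_nonneg_left (hA2 T L w P) ?_
        exact Finset.prod_nonneg (fun i _ =>
          zero_le_one.trans (one_le_kap _ (Nat.one_le_pow _ _ (hM11 i)) _ _))
    _ ≤ (∏ i, kap (A1 i) (M1 i ^ (d i * N)) (1 * (d i * N)) w) *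
          ((∏ T, kap (A2 T) (M2 T) 1 w) * ⨆ i, nvL w (δ i) (f i) (fun j => crd (P j))) := by
        refine mul_le_mul_of_nonneg_left (mul_le_mul_of_nonneg_right ?_ hsup0)
          (Finset.prod_nonneg (fun i _ =>
          zero_le_one.trans (one_le_kap _ (Nat.one_le_pow _ _ (hM11 i)) _ _)))
        rw [← Finset.mul_prod_erase Finset.univ (fun T => kap (A2 T) (M2 T) 1 w)
          (Finset.mem_univ T)]
        exact le_mul_of_one_le_right (zero_le_one.trans (hk2 T))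
          (one_le_prodR _ (fun T _ => hk2 T))
    _ = _ := by ring

end Pool.Agent.TH954.V
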