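import Pool.Agent.TH954.V.Defs

/-!
# Upper bound for the Hilbert function in terms of the transcendence degree
-/

set_option autoImplicit false

open Finset MvPolynomial

namespace Pool.Agent.TH954.V.Hil

section
variable (K : Type) {F : Type} [Field K] [Field F] [Algebra K F] {ι : Type} [Fintype ι]

/-- polynomials of degree at most `D` in the `z i`, `i ∈ s` -/
def W (z : ι → F) (s : Finset ι) (D : ℕ) : Submodule K F :=
  Submodule.span K {x | ∃ a : ι → ℕ, (∀ i, i ∉ s → a i = 0) ∧ ∑ i, a i ≤ D ∧ x = ∏ i, z i ^ a i}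

variable {K}
variable {z : ι → F} {s : Finset ι} {D D' : ℕ}

theorem W_mono (h : D ≤ D') : W K z s D ≤ W K z s D' := by
  apply Submodule.span_mono
  rintro x ⟨a, h1, h2, h3⟩
  exact ⟨a, h1, h2.trans h, h3⟩

theorem W_mul {x y : F} (hx : x ∈ W K z s D) (hy : y ∈ W K z s D') : x * y ∈ W K z s (D + D') := by
  have h := Submodule.mul_mem_mul hx hy
  unfold W at h
  rw [Submodule.span_mul_span] at h
  refine (Submodule.span_mono ?_) h
  rintro _ ⟨x, ⟨a, h1, h2, rfl⟩, y, ⟨b, h3, h4, rfl⟩, rfl⟩
  refine ⟨fun i => a i + b i, ?_, ?_, ?_⟩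
  · intro i hi
    show a i + b i = 0
    rw [h1 i hi, h3 i hi]
  · rw [Finset.sum_add_distrib]; omega
  · show (∏ i, z i ^ a i) * ∏ i, z i ^ b i = _
    rw [← Finset.prod_mul_distrib]
    exact Finset.prod_congr rfl fun i _ => (pow_add _ _ _).symm

theorem W_one : (1 : F) ∈ W K z s 0 := by
  apply Submodule.subset_span
  exact ⟨fun _ => 0, fun _ _ => rfl, by simp, by simp⟩

theorem W_pow {x : F} (hx : x ∈ W K z s D) (n : ℕ) : x ^ n ∈ W K z s (D * n) := by
  induction n with
  | zero => simpa using W_one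
  | succ n ih =>
    rw [pow_succ, Nat.mul_succ]
    exact W_mul ih hx

theorem W_var {i : ι} (hi : i ∈ s) : z i ∈ W K z s 1 := by
  classical
  apply Submodule.subset_span
  refine ⟨Pi.single i 1, ?_, ?_, ?_⟩
  · intro j hj
    rw [Pi.single_eq_of_ne]
    rintro rfl
    exact hj hi
  · rw [Finset.sum_pi_single']; simp
  · rw [Finset.prod_eq_single i]
    · simp
    · intro j _ hj
      rw [Pi.single_eq_of_ne hj]; simp
    · intro h; exact absurd (mem_univ _) h

theorem W_finite : Module.Finite K (W K z s D) := by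
  apply Module.Finite.span_of_finite
  have h : {x | ∃ a : ι → ℕ, (∀ i, i ∉ s → a i = 0) ∧ ∑ i, a i ≤ D ∧ x = ∏ i, z i ^ a i} ⊆
      Set.range (fun a : ι → Fin (D + 1) => ∏ i, z i ^ (a i : ℕ)) := by
    rintro x ⟨a, h1, h2, rfl⟩
    refine ⟨fun i => ⟨a i, ?_⟩, rfl⟩
    have := Finset.single_le_sum (f := a) (fun _ _ => Nat.zero_le _) (mem_univ i)
    omega
  exact (Set.finite_range _).subset h

theorem W_base : Module.finrank K (W K z s D) ≤ (D + 1) ^ s.card := by
  classical
  set g : (s → Fin (D + 1)) → F := fun a => ∏ i ∈ s.attach, z i ^ (a i : ℕ) with hg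
  have h : W K z s D ≤ Submodule.span K (Set.range g) := by
    apply Submodule.span_mono
    rintro x ⟨a, h1, h2, rfl⟩
    refine ⟨fun i => ⟨a i, ?_⟩, ?_⟩
    · have := Finset.single_le_sum (f := a) (fun _ _ => Nat.zero_le _) (mem_univ i.1)
      omega
    · show ∏ i ∈ s.attach, z i ^ a i = _
      rw [Finset.prod_attach s (fun i => z i ^ a i)]
      apply Finset.prod_subset (subset_univ s)
      intro i _ hi
      rw [h1 i hi, pow_zero]
  have : Module.Finite K (Submodule.span K (Set.range g)) := Module.Finite.span_of_finite K (Set.finite_range g)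
  refine (Submodule.finrank_mono h).trans ?_
  refine (finrank_range_le_card (R := K) g).trans ?_
  rw [Fintype.card_fun, Fintype.card_fin, Fintype.card_coe]

theorem W_adj {x : F} (hx : x ∈ Algebra.adjoin K (z '' s)) : ∃ D, x ∈ W K z s D := by
  induction hx using Algebra.adjoin_induction with
  | mem x hx =>
    obtain ⟨i, hi, rfl⟩ := hx
    exact ⟨1, W_var hi⟩
  | algebraMap r =>
    refine ⟨0, ?_⟩
    rw [Algebra.algebraMap_eq_smul_one]
    exact Submodule.smul_mem _ _ W_one
  | add x y _ _ hx hy =>
    obtain ⟨D1, h1⟩ := hx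
    obtain ⟨D2, h2⟩ := hy
    exact ⟨max D1 D2, Submodule.add_mem _ (W_mono (le_max_left _ _) h1) (W_mono (le_max_right _ _) h2)⟩
  | mul x y _ _ hx hy =>
    obtain ⟨D1, h1⟩ := hx
    obtain ⟨D2, h2⟩ := hy
    exact ⟨D1 + D2, W_mul h1 h2⟩

/-- reduction of powers of an algebraic element -/
theorem red {w L : F} {e δ : ℕ} {c : ℕ → F} (hL : L ∈ W K z s δ) (hc : ∀ j, c j ∈ W K z s δ)
    (h : L * w ^ (e + 1) = ∑ j ∈ range (e + 1), c j * w ^ j) (n : ℕ) :
    ∃ f : ℕ → F, (∀ j, f j ∈ W K z s (δ * n)) ∧ L ^ n * w ^ n = ∑ j ∈ range (e + 1), f j * w ^ j := by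
  induction n with
  | zero =>
    refine ⟨fun j => if j = 0 then 1 else 0, ?_, ?_⟩
    · intro j
      show (if j = 0 then (1 : F) else 0) ∈ _
      split_ifs
      · exact W_one
      · exact Submodule.zero_mem _
    · rw [Finset.sum_range_succ']
      simp
  | succ n ih =>
    obtain ⟨f, hf1, hf2⟩ := ih
    refine ⟨fun j => (if j = 0 then 0 else L * f (j - 1)) + f e * c j, ?_, ?_⟩
    · intro j
      apply Submodule.add_mem
      · show (if j = 0 then (0 : F) else L * f (j - 1)) ∈ _
        split_ifs
        · exact Submodule.zero_mem _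
        · have := W_mul hL (hf1 (j - 1))
          rw [Nat.mul_succ, add_comm]; exact this
      · have := W_mul (hf1 e) (hc j)
        rw [Nat.mul_succ]; exact this
    · have e1 : L ^ (n + 1) * w ^ (n + 1) = (L * w) * (L ^ n * w ^ n) := by ring
      have e2 : ∑ j ∈ range (e + 1), ((if j = 0 then 0 else L * f (j - 1)) + f e * c j) * w ^ j =
          (∑ j ∈ range (e + 1), (if j = 0 then 0 else L * f (j - 1)) * w ^ j) + f e * ∑ j ∈ range (e + 1), c j * w ^ j := by
        rw [Finset.mul_sum, ← Finset.sum_add_distrib]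
        apply Finset.sum_congr rfl
        intro j _; ring
      rw [e1, hf2, e2, ← h, Finset.sum_range_succ' (fun j => (if j = 0 then 0 else L * f (j - 1)) * w ^ j),
        Finset.sum_range_succ (fun j => f j * w ^ j)]
      simp only [Nat.add_eq_zero_iff, one_ne_zero, and_false, if_false, Nat.add_sub_cancel, if_true, zero_mul, add_zero]
      rw [mul_add, Finset.mul_sum]
      congr 1
      · apply Finset.sum_congr rfl
        intro j _; rw [pow_succ]; ring
      · rw [pow_succ]; ring

theorem step [DecidableEq ι] {i : ι} {L : F} {e δ : ℕ} {c : ℕ → F} (hL0 : L ≠ 0) (hL : L ∈ W K z s δ)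
    (hc : ∀ j, c j ∈ W K z s δ) (h : L * z i ^ (e + 1) = ∑ j ∈ range (e + 1), c j * z i ^ j) (D : ℕ) :
    Module.finrank K (W K z (insert i s) D) ≤ (e + 1) * Module.finrank K (W K z s ((δ + 1) * D)) := by
  set m := (δ + 1) * D with hm
  have hfin : Module.Finite K (W K z s m) := W_finite
  let Φ : (Fin (e + 1) → W K z s m) →ₗ[K] F :=
    { toFun := fun f => ∑ j, (f j : F) * z i ^ (j : ℕ)
      map_add' := by
        intro f g
        rw [← Finset.sum_add_distrib]
        apply Finset.sum_congr rfl
        intro j _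
        show ((f j : F) + g j) * _ = _
        ring
      map_smul' := by
        intro a f
        rw [RingHom.id_apply, Finset.smul_sum]
        apply Finset.sum_congr rfl
        intro j _
        show (a • (f j : F)) * _ = _
        rw [smul_mul_assoc] }
  have h1 : Submodule.map (LinearMap.mulLeft K (L ^ D)) (W K z (insert i s) D) ≤ LinearMap.range Φ := by
    unfold W
    rw [Submodule.map_span, Submodule.span_le]
    rintro _ ⟨x, ⟨a, ha1, ha2, rfl⟩, rfl⟩
    rw [LinearMap.mulLeft_apply]
    set n := a i with hn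
    set b : ι → ℕ := Function.update a i 0 with hb
    have hprod : ∏ j, z j ^ a j = z i ^ n * ∏ j, z j ^ b j := by
      rw [← Finset.mul_prod_erase univ (fun j => z j ^ a j) (mem_univ i),
        ← Finset.mul_prod_erase univ (fun j => z j ^ b j) (mem_univ i)]
      have : ∀ j ∈ univ.erase i, z j ^ b j = z j ^ a j := by
        intro j hj
        rw [hb, Function.update_of_ne (Finset.ne_of_mem_erase hj)]
      rw [Finset.prod_congr rfl this, hb, Function.update_self, pow_zero, one_mul]
    have hsum : n + ∑ j, b j = ∑ j, a j := by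
      rw [← Finset.add_sum_erase univ a (mem_univ i), ← Finset.add_sum_erase univ b (mem_univ i)]
      have : ∀ j ∈ univ.erase i, b j = a j := by
        intro j hj
        rw [hb, Function.update_of_ne (Finset.ne_of_mem_erase hj)]
      rw [Finset.sum_congr rfl this, hb, Function.update_self, zero_add]
    have hxb : ∏ j, z j ^ b j ∈ W K z s (D - n) := by
      apply Submodule.subset_span
      refine ⟨b, ?_, by omega, rfl⟩
      intro j hj
      by_cases hji : j = i
      · subst hji; rw [hb, Function.update_self]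
      · rw [hb, Function.update_of_ne hji]
        apply ha1
        rw [Finset.mem_insert]; tauto
    obtain ⟨f, hf1, hf2⟩ := red hL hc h n
    have hnD : n ≤ D := by omega
    have e1 : L ^ D * ∏ j, z j ^ a j = (L ^ (D - n) * ∏ j, z j ^ b j) * (L ^ n * z i ^ n) := by
      rw [hprod]
      have : L ^ D = L ^ (D - n) * L ^ n := by rw [← pow_add, Nat.sub_add_cancel hnD]
      rw [this]; ring
    have hy := W_mul (W_pow hL (D - n)) hxb
    have hmem : ∀ j, (L ^ (D - n) * ∏ j, z j ^ b j) * f j ∈ W K z s m := by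
      intro j
      refine W_mono ?_ (W_mul hy (hf1 j))
      have : δ * (D - n) + δ * n = δ * D := by rw [← Nat.mul_add, Nat.sub_add_cancel hnD]
      rw [hm, Nat.succ_mul]
      omega
    refine ⟨fun j => ⟨_, hmem j⟩, ?_⟩
    show ∑ j : Fin (e + 1), ((L ^ (D - n) * ∏ j, z j ^ b j) * f j) * z i ^ (j : ℕ) = _
    rw [e1, hf2, Finset.mul_sum, ← Fin.sum_univ_eq_sum_range (fun j => (L ^ (D - n) * ∏ j, z j ^ b j) * (f j * z i ^ j))]
    apply Finset.sum_congr rfl
    intro j _; ring
  have hinj : Function.Injective (LinearMap.mulLeft K (L ^ D)) := by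
    intro x y hxy
    rw [LinearMap.mulLeft_apply, LinearMap.mulLeft_apply] at hxy
    exact mul_left_cancel₀ (pow_ne_zero D hL0) hxy
  have h2 := (Submodule.equivMapOfInjective _ hinj (W K z (insert i s) D)).finrank_eq
  rw [h2]
  refine (Submodule.finrank_mono h1).trans ?_
  refine (LinearMap.finrank_range_le Φ).trans ?_
  rw [Module.finrank_pi_fintype, Finset.sum_const, Finset.card_univ, Fintype.card_fin, smul_eq_mul]

/-- adding an algebraic element -/
theorem step_alg [DecidableEq ι] {i : ι} (halg : IsAlgebraic (Algebra.adjoin K (z '' s)) (z i)) {N : ℕ}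
    (h : ∃ c : ℕ, ∀ D, Module.finrank K (W K z s D) ≤ c * (D + 1) ^ N) :
    ∃ c : ℕ, ∀ D, Module.finrank K (W K z (insert i s) D) ≤ c * (D + 1) ^ N := by
  obtain ⟨p, hp0, hp⟩ := halg
  obtain ⟨c, hc⟩ := h
  set L : F := (p.leadingCoeff : F) with hL
  have hL0 : L ≠ 0 := by
    rw [hL]
    intro h
    exact hp0 (Polynomial.leadingCoeff_eq_zero.1 (Subtype.ext h))
  have hpe : ∑ j ∈ range (p.natDegree + 1), (p.coeff j : F) * z i ^ j = 0 := by
    rw [Polynomial.aeval_eq_sum_range] at hp
    rw [← hp]
    apply Finset.sum_congr rfl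
    intro j _
    rw [Algebra.smul_def]; rfl
  have hdeg : p.natDegree ≠ 0 := by
    intro h0
    rw [h0, zero_add, Finset.sum_range_one, pow_zero, mul_one] at hpe
    apply hL0
    rw [hL, Polynomial.leadingCoeff, h0]; exact hpe
  obtain ⟨e, he⟩ := Nat.exists_eq_succ_of_ne_zero hdeg
  have hcf : ∀ j, ∃ D, (p.coeff j : F) ∈ W K z s D := fun j => W_adj (p.coeff j).2
  choose d hd using hcf
  set δ := ∑ j ∈ range (p.natDegree + 1), d j with hδ
  have hcδ : ∀ j, (p.coeff j : F) ∈ W K z s δ := by
    intro j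
    by_cases hj : j ∈ range (p.natDegree + 1)
    · exact W_mono (Finset.single_le_sum (f := d) (fun _ _ => Nat.zero_le _) hj) (hd j)
    · rw [Finset.mem_range] at hj
      rw [Polynomial.coeff_eq_zero_of_natDegree_lt (by omega)]
      exact Submodule.zero_mem _
  have hrel : L * z i ^ (e + 1) = ∑ j ∈ range (e + 1), (-(p.coeff j : F)) * z i ^ j := by
    rw [he, Finset.sum_range_succ] at hpe
    have : (p.coeff e.succ : F) = L := by rw [hL, Polynomial.leadingCoeff, he]
    rw [this] at hpe
    simp only [neg_mul, Finset.sum_neg_distrib]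
    exact eq_neg_of_add_eq_zero_right hpe
  refine ⟨(e + 1) * c * (δ + 1) ^ N, fun D => ?_⟩
  have h1 := step (K := K) (z := z) (s := s) (i := i) hL0 (hcδ _) (fun j => Submodule.neg_mem _ (hcδ j)) hrel D
  refine h1.trans ?_
  have h2 := hc ((δ + 1) * D)
  calc (e + 1) * Module.finrank K (W K z s ((δ + 1) * D)) ≤ (e + 1) * (c * ((δ + 1) * D + 1) ^ N) := Nat.mul_le_mul_left _ h2
    _ ≤ (e + 1) * (c * ((δ + 1) * (D + 1)) ^ N) := by
        gcongr
        nlinarith
    _ = (e + 1) * c * (δ + 1) ^ N * (D + 1) ^ N := by rw [mul_pow]; ring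

theorem union_alg [DecidableEq ι] (s₀ : Finset ι) (halg : ∀ i, IsAlgebraic (Algebra.adjoin K (z '' s₀)) (z i)) (t : Finset ι) :
    ∃ c : ℕ, ∀ D, Module.finrank K (W K z (s₀ ∪ t) D) ≤ c * (D + 1) ^ s₀.card := by
  induction t using Finset.induction_on with
  | empty =>
    rw [Finset.union_empty]
    exact ⟨1, fun D => by rw [one_mul]; exact W_base⟩
  | insert i t _ ih =>
    rw [Finset.union_insert]
    apply step_alg _ ih
    obtain ⟨p, hp0, hp⟩ := halg i
    have hle : Algebra.adjoin K (z '' s₀) ≤ Algebra.adjoin K (z '' (s₀ ∪ t : Finset ι)) :=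
      Algebra.adjoin_mono (Set.image_mono (by rw [Finset.coe_union]; exact Set.subset_union_left))
    refine ⟨p.map (Subalgebra.inclusion hle).toRingHom, ?_, ?_⟩
    · rw [Polynomial.map_ne_zero_iff (Subalgebra.inclusion_injective hle)]; exact hp0
    · rw [Polynomial.aeval_def, Polynomial.eval₂_map]
      rw [Polynomial.aeval_def] at hp
      exact hp

end

theorem hilb : T_hilb := by
  classical
  intro K F _ _ _ ι _ z y hy
  set E := IntermediateField.adjoin K (Set.range z) with hE
  let z' : ι → E := fun i => ⟨z i, IntermediateField.subset_adjoin K _ ⟨i, rfl⟩⟩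
  have htop : IntermediateField.adjoin K (Set.range z') = ⊤ := by
    apply IntermediateField.map_injective E.val
    rw [IntermediateField.adjoin_map]
    have h1 : E.val '' Set.range z' = Set.range z := by
      rw [← Set.range_comp]; rfl
    rw [h1]
    have h2 : IntermediateField.map E.val ⊤ = E := by
      rw [← AlgHom.fieldRange_eq_map, IntermediateField.fieldRange_val]
    rw [h2]
  have halg : Algebra.IsAlgebraic (Algebra.adjoin K (Set.range z')) E := by
    rw [← IntermediateField.isAlgebraic_adjoin_iff_top, htop, Algebra.isAlgebraic_iff_isIntegral]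
    exact Algebra.isIntegral_of_surjective IntermediateField.topEquiv.surjective
  obtain ⟨t, hts, ht⟩ := exists_isTranscendenceBasis_subset (R := K) (Set.range z')
  have htfin : t.Finite := (Set.finite_range z').subset hts
  have hpre : ∀ x : t, ∃ i, z' i = x := fun x => hts x.2
  choose g hg using hpre
  have : Fintype t := htfin.fintype
  set s₀ : Finset ι := univ.image g with hs₀
  have hcard : (s₀.card : Cardinal) ≤ (y : Cardinal) := by
    have h1 : (s₀.card : Cardinal) ≤ Cardinal.mk t := by
      rw [Cardinal.mk_fintype, Nat.cast_le]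
      exact Finset.card_image_le
    exact (h1.trans ht.cardinalMk_eq_trdeg.le).trans hy
  have hcard' : s₀.card ≤ y := by exact_mod_cast hcard
  have himg : z' '' s₀ = t := by
    ext x
    rw [hs₀, Finset.coe_image, Finset.coe_univ, Set.image_univ]
    constructor
    · rintro ⟨_, ⟨u, rfl⟩, rfl⟩
      rw [hg]; exact u.2
    · intro hx
      exact ⟨g ⟨x, hx⟩, ⟨⟨x, hx⟩, rfl⟩, hg ⟨x, hx⟩⟩
  have halg' : ∀ i, IsAlgebraic (Algebra.adjoin K (z' '' s₀)) (z' i) := by
    have h1 := ht.isAlgebraic
    rw [Subtype.range_coe] at h1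
    rw [himg]
    intro i
    exact h1.isAlgebraic (z' i)
  obtain ⟨c, hc⟩ := union_alg (K := K) (z := z') s₀ halg' univ
  refine ⟨c, fun D => ?_⟩
  have hfin : Module.Finite K (W K z' (s₀ ∪ univ) D) := W_finite
  have hle : Submodule.map (aeval (R := K) z).toLinearMap (restrictTotalDegree ι K D) ≤
      Submodule.map E.val.toLinearMap (W K z' (s₀ ∪ univ) D) := by
    rintro _ ⟨p, hp, rfl⟩
    rw [SetLike.mem_coe, mem_restrictTotalDegree] at hp
    refine ⟨aeval z' p, ?_, ?_⟩
    · rw [SetLike.mem_coe, MvPolynomial.aeval_def, MvPolynomial.eval₂_eq']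
      apply Submodule.sum_mem
      intro a ha
      rw [← Algebra.smul_def]
      apply Submodule.smul_mem
      apply Submodule.subset_span
      refine ⟨fun i => a i, ?_, ?_, rfl⟩
      · intro i hi
        exact absurd (Finset.mem_union_right _ (mem_univ i)) hi
      · have h1 := MvPolynomial.le_totalDegree ha
        rw [Finsupp.sum_fintype _ _ (fun _ => rfl)] at h1
        exact h1.trans hp
    · have h1 : E.val.comp (aeval z') = (aeval z : MvPolynomial ι K →ₐ[K] F) := by
        apply MvPolynomial.algHom_ext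
        intro i
        rw [AlgHom.comp_apply, MvPolynomial.aeval_X, MvPolynomial.aeval_X]
        rfl
      exact DFunLike.congr_fun h1 p
  calc Module.finrank K (Submodule.map (aeval (R := K) z).toLinearMap (restrictTotalDegree ι K D))
      ≤ Module.finrank K (Submodule.map E.val.toLinearMap (W K z' (s₀ ∪ univ) D)) := Submodule.finrank_mono hle
    _ ≤ Module.finrank K (W K z' (s₀ ∪ univ) D) := Submodule.finrank_map_le _ _
    _ ≤ c * (D + 1) ^ s₀.card := hc D
    _ ≤ c * (D + 1) ^ y := Nat.mul_le_mul_left _ (Nat.pow_le_pow_right (by omega) hcard')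

end Pool.Agent.TH954.V.Hil
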