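import Pool.Agent.TH954.V.CanL

/-!
# A point of infinite order over some number field
-/

set_option autoImplicit false
set_option linter.unusedSectionVars false

open WeierstrassCurve NumberField Height Pool.Agent.TH942 Polynomial

namespace Pool.Agent.TH954.V

theorem exists_inf {K : Type} [Field K] [NumberField K] {a b : K}
    (hD : 4 * a ^ 3 + 27 * b ^ 2 ≠ 0) :
    ∃ (L : Type) (_ : Field L) (_ : NumberField L) (_ : DecidableEq L) (_ : Algebra K L)
      (g : SPt (algebraMap K L a) (algebraMap K L b)), ∀ w : ℤ, w ≠ 0 → w • g ≠ 0 := by
  classical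
  obtain ⟨C, hC, hcan⟩ := can_unif hD
  set B : ℝ := C * Module.finrank ℚ K with hB
  obtain ⟨n, hn⟩ : ∃ n : ℕ, B < logHeight₁ (n : K) := by
    by_contra hcon
    push Not at hcon
    have hfin := NumberField.finite_setOfPred_logHeight₁_le (K := K) B
    exact Set.infinite_univ ((hfin.preimage (f := fun n : ℕ => (n : K))
      Nat.cast_injective.injOn).subset (fun n _ => hcon n))
  set c : K := (n : K) ^ 3 + a * n + b with hc
  set p : K[X] := X ^ 2 - Polynomial.C c with hp
  let L : Type := p.SplittingField
  have : CharZero L := charZero_of_injective_algebraMap (algebraMap K L).injective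
  have hNF : NumberField L := by
    have : FiniteDimensional K L := inferInstanceAs (FiniteDimensional K p.SplittingField)
    let _ : Algebra ℚ L := inferInstance
    have : FiniteDimensional ℚ L := FiniteDimensional.trans ℚ K L
    exact { to_charZero := inferInstance, to_finiteDimensional := this }
  have hdeg : (p.map (algebraMap K L)).degree ≠ 0 := by
    rw [degree_map, hp, degree_X_pow_sub_C (by norm_num)]
    norm_num
  obtain ⟨y, hy⟩ := Splits.exists_eval_eq_zero (SplittingField.splits p) hdeg
  have hmap : p.map (algebraMap K L) = X ^ 2 - Polynomial.C (algebraMap K L c) := by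
    simp only [p, Polynomial.map_sub, Polynomial.map_pow, map_X, map_C]
  have hy2 : y ^ 2 = algebraMap K L c := by
    have hy' : eval y (p.map (algebraMap K L)) = 0 := hy
    rw [hmap] at hy'
    simp only [eval_sub, eval_pow, eval_X, eval_C] at hy'
    exact sub_eq_zero.mp hy'
  have hD' : 4 * (algebraMap K L a) ^ 3 + 27 * (algebraMap K L b) ^ 2 ≠ 0 := by
    intro h0
    apply hD
    apply (algebraMap K L).injective
    rw [map_zero, ← h0]
    simp only [map_add, map_mul, map_pow, map_ofNat]
  have heq : y ^ 2 = (algebraMap K L (n : K)) ^ 3 + algebraMap K L a * algebraMap K L (n : K) +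
      algebraMap K L b := by
    rw [hy2, hc]
    simp only [map_add, map_mul, map_pow]
  have hns := sw_nonsing hD' heq
  obtain ⟨q, hq2, hq3, hq4, hq5⟩ := hcan L
  refine ⟨L, inferInstance, hNF, inferInstance, inferInstance, Affine.Point.some _ _ hns, ?_⟩
  have h1 : C * Module.finrank ℚ L < logHeight (crd (Affine.Point.some _ _ hns :
      SPt (algebraMap K L a) (algebraMap K L b))) := by
    have h2 : logHeight₁ (algebraMap K L (n : K)) = Module.finrank K L * logHeight₁ (n : K) := by
      rw [logHeight₁_eq_logHeight, logHeight₁_eq_logHeight,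
        ← Helper259.HtExt.logHeight_ext (L := L)]
      congr 1
      funext i
      fin_cases i <;> simp
    have h3 := sht_le (Affine.Point.some _ _ hns : SPt (algebraMap K L a) (algebraMap K L b))
    rw [sht, Affine.Point.xRep_some, ← logHeight₁_eq_logHeight, h2] at h3
    refine lt_of_lt_of_le ?_ h3
    have h4 : (Module.finrank ℚ L : ℝ) = Module.finrank ℚ K * Module.finrank K L := by
      rw [← Module.finrank_mul_finrank ℚ K L]
      push_cast
      rfl
    have h5 : (0 : ℝ) < Module.finrank K L := by
      have h6 : 0 < Module.finrank ℚ L := Module.finrank_pos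
      have h7 : Module.finrank ℚ K * Module.finrank K L = Module.finrank ℚ L :=
        Module.finrank_mul_finrank ℚ K L
      have h8 : 0 < Module.finrank K L := by
        rcases Nat.eq_zero_or_pos (Module.finrank K L) with h | h
        · rw [h, mul_zero] at h7
          omega
        · exact h
      exact_mod_cast h8
    rw [h4]
    calc C * (Module.finrank ℚ K * Module.finrank K L) = Module.finrank K L * B := by
          rw [hB]; ring
      _ < _ := mul_lt_mul_of_pos_left hn h5
  have h6 : 0 < q (Affine.Point.some _ _ hns) := by
    have := hq5 (Affine.Point.some _ _ hns)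
    linarith
  intro w hw h0
  have h7 := q_zsmul hq3 w (Affine.Point.some _ _ hns)
  rw [h0] at h7
  have h8 : q 0 = 0 := by
    have := hq3 0 0
    rw [add_zero, sub_zero] at this
    linarith
  rw [h8] at h7
  have h9 : (0 : ℝ) < (w : ℝ) ^ 2 := by
    have : (w : ℝ) ≠ 0 := by exact_mod_cast hw
    positivity
  have := mul_pos h9 h6
  linarith

end Pool.Agent.TH954.V
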