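import Pool.Agent.TH954.V.LatticeR

/-!
# Geometry of numbers: the choice of the vectors and of the degrees
-/

set_option autoImplicit false

open Finset Pool.Agent.H393R2.Geom

namespace Pool.Agent.TH954.V.Lat

theorem latC (r k y : ℕ) (hk : y + r < k) (c0 : ℝ) (hc0 : 1 ≤ c0) (ε : ℝ) (hε : 0 < ε) :
    ∃ (H : ℤ) (T : ℕ), ∀ (n : Fin r → Fin k → ℝ) (M : ℝ), 1 ≤ M → (∀ l j, |n l j| ≤ M) →
      ∃ u : Fin k → Fin k → ℤ, LinearIndependent ℤ u ∧ (∀ i j, |u i j| ≤ H) ∧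
      ∃ d : Fin k → ℕ, (∀ i, d i ≤ T) ∧
        c0 * (1 + ∑ l, (d l : ℝ) * ∑ t, (u l t : ℝ) ^ 2) ^ y < ∏ l, ((d l : ℝ) + 1) ∧
        ∑ l, (d l : ℝ) * ∑ i, (∑ t, (u l t : ℝ) * n i t) ^ 2 ≤ ε * M ^ 2 := by
  classical
  have hk1 : 0 < k := by omega
  have hk0 : (0 : ℝ) < k := by exact_mod_cast hk1
  have hCC := one_le_CC hk1
  have hCC0 : 0 < CC k := by linarith
  set c1 : ℝ := 1 + c0 * (1 + (k : ℝ) ^ 2) ^ y * ((k : ℝ) ^ k * CC k) ^ 2 with hc1
  have hc11 : 1 ≤ c1 := by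
    have : 0 ≤ c0 * (1 + (k : ℝ) ^ 2) ^ y * ((k : ℝ) ^ k * CC k) ^ 2 := by positivity
    linarith
  have hc10 : 0 < c1 := by linarith
  set β : ℝ := 1 + k * r * c1 / ε with hβ
  have hβ1 : 1 ≤ β := by
    have : 0 ≤ k * r * c1 / ε := by positivity
    linarith
  have hβ0 : 0 < β := by linarith
  set s : ℕ := k - y with hs
  have hs1 : 1 ≤ s := by omega
  set A : ℝ := β ^ s with hA
  have hA1 : 1 ≤ A := one_le_pow₀ hβ1
  have hA0 : 0 < A := by linarith
  set B : ℝ := A ^ r with hB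
  have hB1 : 1 ≤ B := one_le_pow₀ hA1
  have hB0 : 0 < B := by linarith
  set W : ℝ := ((k : ℝ) * B) ^ k * CC k with hW
  have hW0 : 0 < W := by positivity
  set X : ℝ := c1 * β ^ (2 * k * r) with hX
  have hX1 : 1 ≤ X := by
    have : 1 ≤ β ^ (2 * k * r) := one_le_pow₀ hβ1
    nlinarith
  have hX0 : 0 < X := by linarith
  refine ⟨⌈W⌉, ⌊X⌋₊, fun n M hM hn => ?_⟩
  have hM0 : 0 < M := by linarith
  obtain ⟨G, lam, hG, hl0, -, hlp, hlb⟩ := mink hk1 (formsR n M A) Sum.inl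
    (formsR_base n M A hA0) (fun f hf => formsR_bound n M A hA1 hM hn f hf)
  -- coordinates
  have hco : ∀ j t, |(G j t : ℝ)| ≤ k * B * lam j := by
    intro j t
    have h1 := hlb (Sum.inl t) j
    have h2 : ∑ s, formsR n M A (Sum.inl t) s * (G j s : ℝ) = B⁻¹ * (G j t : ℝ) := by
      simp only [formsR, ite_mul, zero_mul]
      rw [Finset.sum_ite_eq' univ t]
      simp [hB]
    rw [h2, abs_mul, abs_of_pos (inv_pos.2 hB0), inv_mul_le_iff₀ hB0] at h1
    linarith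
  have hin : ∀ j l, |∑ t, (G j t : ℝ) * n l t| ≤ k * lam j * (M * B / A ^ k) := by
    intro j l
    have h1 := hlb (Sum.inr l) j
    have h2 : ∑ s, formsR n M A (Sum.inr l) s * (G j s : ℝ) =
        (A ^ k / (M * B)) * ∑ t, (G j t : ℝ) * n l t := by
      simp only [formsR]
      rw [Finset.mul_sum]
      apply Finset.sum_congr rfl
      intro t _; ring
    have h3 : 0 < A ^ k / (M * B) := by positivity
    rw [h2, abs_mul, abs_of_pos h3] at h1
    have h4 : M * B / A ^ k = (A ^ k / (M * B))⁻¹ := by rw [inv_div]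
    rw [h4, ← div_eq_mul_inv, le_div_iff₀ h3]
    linarith
  set U : Fin k → ℝ := fun j => k * B * lam j with hU
  have hU1 : ∀ j, 1 ≤ U j := by
    intro j
    have h1 : ∃ t, G j t ≠ 0 := by
      by_contra hcon
      push Not at hcon
      exact hG (Matrix.det_eq_zero_of_row_eq_zero j hcon)
    obtain ⟨t, ht⟩ := h1
    have h2 : (1 : ℝ) ≤ |(G j t : ℝ)| := by
      have := Int.one_le_abs ht
      exact_mod_cast this
    exact h2.trans (hco j t)
  have hU0 : ∀ j, 0 < U j := fun j => by have := hU1 j; linarith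
  have hUprod : ∏ j, U j ≤ W := by
    rw [hU, Finset.prod_mul_distrib, Finset.prod_const, Finset.card_univ, Fintype.card_fin, hW]
    exact mul_le_mul_of_nonneg_left hlp (by positivity)
  have hUW : ∀ j, U j ≤ W := by
    intro j
    have h1 : 1 ≤ ∏ i ∈ univ.erase j, U i := Finset.one_le_prod fun i _ => hU1 i
    have h2 := Finset.mul_prod_erase univ U (mem_univ j)
    calc U j = U j * 1 := (mul_one _).symm
      _ ≤ U j * ∏ i ∈ univ.erase j, U i := mul_le_mul_of_nonneg_left h1 (hU0 j).le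
      _ = ∏ i, U i := h2
      _ ≤ W := hUprod
  have hfl : ∀ l, ((⌊X / U l ^ 2⌋₊ : ℕ) : ℝ) ≤ X / U l ^ 2 := fun l =>
    Nat.floor_le (by have := hU0 l; positivity)
  refine ⟨G, Matrix.linearIndependent_rows_of_det_ne_zero hG, ?_,
    fun l => ⌊X / U l ^ 2⌋₊, ?_, ?_, ?_⟩
  · intro i j
    have h3 : (|G i j| : ℝ) ≤ ⌈W⌉ := ((hco i j).trans (hUW i)).trans (Int.le_ceil _)
    have h4 : ((|G i j| : ℤ) : ℝ) ≤ ⌈W⌉ := by
      rw [Int.cast_abs]; exact h3
    exact_mod_cast h4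
  · intro i
    refine Nat.floor_le_floor ?_
    have h1 : 1 ≤ U i ^ 2 := one_le_pow₀ (hU1 i)
    exact div_le_self hX0.le h1
  · -- counting
    have h1 : ∑ l, ((⌊X / U l ^ 2⌋₊ : ℕ) : ℝ) * ∑ t, (G l t : ℝ) ^ 2 ≤ (k : ℝ) ^ 2 * X := by
      calc ∑ l, ((⌊X / U l ^ 2⌋₊ : ℕ) : ℝ) * ∑ t, (G l t : ℝ) ^ 2
          ≤ ∑ _l : Fin k, (k : ℝ) * X := by
            refine Finset.sum_le_sum (fun l _ => ?_)
            have h2 : ∑ t, (G l t : ℝ) ^ 2 ≤ k * U l ^ 2 := by
              calc ∑ t, (G l t : ℝ) ^ 2 ≤ ∑ _t : Fin k, U l ^ 2 := by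
                    apply Finset.sum_le_sum
                    intro t _
                    rw [← sq_abs]
                    exact pow_le_pow_left₀ (abs_nonneg _) (hco _ t) 2
                _ = k * U l ^ 2 := by
                    rw [Finset.sum_const, Finset.card_univ, Fintype.card_fin, nsmul_eq_mul]
            have h3 : 0 < U l ^ 2 := pow_pos (hU0 l) 2
            calc ((⌊X / U l ^ 2⌋₊ : ℕ) : ℝ) * ∑ t, (G l t : ℝ) ^ 2
                ≤ (X / U l ^ 2) * (k * U l ^ 2) :=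
                  mul_le_mul (hfl l) h2 (Finset.sum_nonneg fun t _ => sq_nonneg _) (by positivity)
              _ = k * X := by
                  rw [mul_comm (k : ℝ) (U l ^ 2), ← mul_assoc, div_mul_cancel₀ _ h3.ne', mul_comm]
        _ = (k : ℝ) ^ 2 * X := by
            rw [Finset.sum_const, Finset.card_univ, Fintype.card_fin, nsmul_eq_mul]; ring
    have h2 : X ^ k / W ^ 2 ≤ ∏ l, ((⌊X / U l ^ 2⌋₊ : ℕ) + 1 : ℝ) := by
      have h3 : ∏ l, (X / U l ^ 2) ≤ ∏ l, ((⌊X / U l ^ 2⌋₊ : ℕ) + 1 : ℝ) :=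
        Finset.prod_le_prod (fun l _ => by have := hU0 l; positivity)
          (fun l _ => (Nat.lt_floor_add_one _).le)
      refine le_trans ?_ h3
      rw [Finset.prod_div_distrib, Finset.prod_const, Finset.card_univ, Fintype.card_fin,
        Finset.prod_pow]
      have h4 : 0 < ∏ l, U l := Finset.prod_pos (fun l _ => hU0 l)
      exact div_le_div_of_nonneg_left (by positivity) (by positivity)
        (pow_le_pow_left₀ h4.le hUprod 2)
    refine lt_of_lt_of_le ?_ h2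
    rw [lt_div_iff₀ (by positivity)]
    have h3 : (1 + ∑ l, ((⌊X / U l ^ 2⌋₊ : ℕ) : ℝ) * ∑ t, (G l t : ℝ) ^ 2) ^ y ≤
        ((1 + (k : ℝ) ^ 2) * X) ^ y := by
      refine pow_le_pow_left₀ ?_ (by nlinarith) y
      exact add_nonneg zero_le_one (Finset.sum_nonneg (fun l _ => mul_nonneg (Nat.cast_nonneg _)
        (Finset.sum_nonneg (fun t _ => sq_nonneg _))))
    have h4 : X ^ s = c1 ^ s * (B ^ k) ^ 2 := by
      rw [hX, mul_pow, hB, hA]
      congr 1
      rw [← pow_mul, ← pow_mul, ← pow_mul, ← pow_mul]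
      congr 1
      ring
    have h5 : c1 ≤ c1 ^ s := by
      calc c1 = c1 ^ 1 := (pow_one _).symm
        _ ≤ c1 ^ s := pow_le_pow_right₀ hc11 hs1
    have h6 : X ^ k = X ^ y * X ^ s := by
      rw [← pow_add]
      congr 1
      omega
    have hXy : 0 < X ^ y := pow_pos hX0 y
    have hBk : 0 < (B ^ k) ^ 2 := by positivity
    calc c0 * (1 + ∑ l, ((⌊X / U l ^ 2⌋₊ : ℕ) : ℝ) * ∑ t, (G l t : ℝ) ^ 2) ^ y * W ^ 2
        ≤ c0 * ((1 + (k : ℝ) ^ 2) * X) ^ y * W ^ 2 := by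
          refine mul_le_mul_of_nonneg_right (mul_le_mul_of_nonneg_left h3 (by linarith)) ?_
          positivity
      _ = (c0 * (1 + (k : ℝ) ^ 2) ^ y * ((k : ℝ) ^ k * CC k) ^ 2) * (X ^ y * (B ^ k) ^ 2) := by
          rw [hW, mul_pow, mul_pow, mul_pow, mul_pow]; ring
      _ < c1 * (X ^ y * (B ^ k) ^ 2) := by
          refine mul_lt_mul_of_pos_right ?_ (by positivity)
          rw [hc1]
          linarith
      _ ≤ c1 ^ s * (X ^ y * (B ^ k) ^ 2) := mul_le_mul_of_nonneg_right h5 (by positivity)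
      _ = X ^ k := by rw [h6, h4]; ring
  · -- the sum of the small terms
    have h1 : ∀ l, ((⌊X / U l ^ 2⌋₊ : ℕ) : ℝ) * ∑ i, (∑ t, (G l t : ℝ) * n i t) ^ 2 ≤
        r * X * (M / A ^ k) ^ 2 := by
      intro l
      have h2 : ∑ i, (∑ t, (G l t : ℝ) * n i t) ^ 2 ≤ r * (k * lam l * (M * B / A ^ k)) ^ 2 := by
        calc ∑ i, (∑ t, (G l t : ℝ) * n i t) ^ 2 ≤
              ∑ _i : Fin r, (k * lam l * (M * B / A ^ k)) ^ 2 := by
              apply Finset.sum_le_sum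
              intro i _
              rw [← sq_abs]
              exact pow_le_pow_left₀ (abs_nonneg _) (hin _ i) 2
          _ = _ := by rw [Finset.sum_const, Finset.card_univ, Fintype.card_fin, nsmul_eq_mul]
      have h3 : 0 < U l ^ 2 := pow_pos (hU0 l) 2
      calc ((⌊X / U l ^ 2⌋₊ : ℕ) : ℝ) * ∑ i, (∑ t, (G l t : ℝ) * n i t) ^ 2
          ≤ (X / U l ^ 2) * (r * (k * lam l * (M * B / A ^ k)) ^ 2) :=
            mul_le_mul (hfl l) h2 (Finset.sum_nonneg fun t _ => sq_nonneg _) (by positivity)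
        _ = r * X * (M / A ^ k) ^ 2 := by
            have hlam := (hl0 l).ne'
            simp only [hU]
            field_simp
    have h4 : ∑ l, ((⌊X / U l ^ 2⌋₊ : ℕ) : ℝ) * ∑ i, (∑ t, (G l t : ℝ) * n i t) ^ 2 ≤
        k * (r * X * (M / A ^ k) ^ 2) := by
      refine (Finset.sum_le_sum (fun l _ => h1 l)).trans (le_of_eq ?_)
      rw [Finset.sum_const, Finset.card_univ, Fintype.card_fin, nsmul_eq_mul]
    refine h4.trans ?_
    have h5 : X * β ^ 2 ≤ c1 * (A ^ k) ^ 2 := by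
      rw [hX, mul_assoc, ← pow_add, hA, ← pow_mul, ← pow_mul]
      refine mul_le_mul_of_nonneg_left (pow_le_pow_right₀ hβ1 ?_) hc10.le
      have h6 : r + 1 ≤ s := by omega
      calc 2 * k * r + 2 ≤ 2 * k * r + 2 * k := by omega
        _ = 2 * k * (r + 1) := by ring
        _ ≤ 2 * k * s := Nat.mul_le_mul_left _ h6
        _ = s * k * 2 := by ring
        _ ≤ _ := by first | exact le_rfl | (rw [mul_assoc])
    have h6 : k * r * c1 ≤ ε * β ^ 2 := by
      have h7 : k * r * c1 ≤ ε * β := by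
        have e1 : ε * β = ε + k * r * c1 := by
          rw [hβ]
          field_simp
        rw [e1]
        linarith
      have h8 : β ≤ β ^ 2 := by nlinarith
      exact h7.trans (mul_le_mul_of_nonneg_left h8 hε.le)
    have hAk : 0 < (A ^ k) ^ 2 := by positivity
    have hβ2 : 0 < β ^ 2 := by positivity
    have h7 : (k : ℝ) * (r * X * (M / A ^ k) ^ 2) = (k * r * (X * M ^ 2)) / (A ^ k) ^ 2 := by
      field_simp
    rw [h7, div_le_iff₀ hAk]
    have h8 : (k * r * (X * M ^ 2)) * β ^ 2 ≤ (ε * M ^ 2 * (A ^ k) ^ 2) * β ^ 2 := by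
      calc (k * r * (X * M ^ 2)) * β ^ 2 = (k * r * M ^ 2) * (X * β ^ 2) := by ring
        _ ≤ (k * r * M ^ 2) * (c1 * (A ^ k) ^ 2) := mul_le_mul_of_nonneg_left h5 (by positivity)
        _ = (k * r * c1) * (M ^ 2 * (A ^ k) ^ 2) := by ring
        _ ≤ (ε * β ^ 2) * (M ^ 2 * (A ^ k) ^ 2) := mul_le_mul_of_nonneg_right h6 (by positivity)
        _ = (ε * M ^ 2 * (A ^ k) ^ 2) * β ^ 2 := by ring
    exact le_of_mul_le_mul_right h8 hβ2

end Pool.Agent.TH954.V.Lat
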