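import Pool.Agent.H393R2.Geom3
import Pool.Agent.TH954.V.Defs

/-!
# Geometry of numbers: short independent integer vectors almost orthogonal to given ones
-/

set_option autoImplicit false

open Finset Pool.Agent.H393R2.Geom

namespace Pool.Agent.TH954.V.Lat

/-- Cramer's identity for rows -/
theorem cramer_rowsR {n : ℕ} (G : Matrix (Fin n) (Fin n) ℝ) (x : Fin n → ℝ) :
    G.det • x = ∑ k, (G.updateRow k x).det • G k := by
  have h := Matrix.mulVec_cramer G.transpose x
  rw [Matrix.det_transpose] at h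
  rw [← h]
  ext i
  simp only [Matrix.mulVec, dotProduct, Matrix.transpose_apply, Matrix.cramer_transpose_apply,
    Finset.sum_apply, Pi.smul_apply, smul_eq_mul]
  apply Finset.sum_congr rfl
  intro k _
  ring

/-- minors of a matrix of linear forms -/
noncomputable def mino {k : ℕ} {I : Type} (A : I → Fin k → ℝ) (f : Fin k → I) : ℝ :=
  (Matrix.of fun t => A (f t)).det

theorem max_minor {k : ℕ} {I : Type} [Finite I] (A : I → Fin k → ℝ) (f₀ : Fin k → I) (h0 : mino A f₀ ≠ 0) :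
    ∃ f : Fin k → I, mino A f ≠ 0 ∧ |mino A f₀| ≤ |mino A f| ∧
      ∀ (i : I) (x : Fin k → ℝ) (Λ : ℝ), (∀ t, |∑ j, A (f t) j * x j| ≤ Λ) → |∑ j, A i j * x j| ≤ k * Λ := by
  classical
  have := Fintype.ofFinite I
  obtain ⟨f, -, hf⟩ := Finset.exists_max_image (Finset.univ : Finset (Fin k → I)) (fun f => |mino A f|) ⟨f₀, mem_univ _⟩
  have hf0 := hf f₀ (mem_univ _)
  have hpos : 0 < |mino A f| := lt_of_lt_of_le (abs_pos.2 h0) hf0
  refine ⟨f, abs_pos.1 hpos, hf0, ?_⟩
  intro i x Λ hΛ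
  set L : Matrix (Fin k) (Fin k) ℝ := Matrix.of fun t => A (f t) with hL
  have h1 := cramer_rowsR L (A i)
  have h2 : L.det * ∑ j, A i j * x j = ∑ t, (L.updateRow t (A i)).det * ∑ j, A (f t) j * x j := by
    have h3 : ∀ j, L.det * A i j = ∑ t, (L.updateRow t (A i)).det * A (f t) j := by
      intro j
      have := congrFun h1 j
      simp only [Pi.smul_apply, smul_eq_mul, Finset.sum_apply] at this
      exact this
    rw [Finset.mul_sum]
    calc ∑ j, L.det * (A i j * x j) = ∑ j, (∑ t, (L.updateRow t (A i)).det * A (f t) j) * x j := by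
          apply Finset.sum_congr rfl; intro j _; rw [← h3 j]; ring
      _ = ∑ j, ∑ t, (L.updateRow t (A i)).det * (A (f t) j * x j) := by
          apply Finset.sum_congr rfl; intro j _; rw [Finset.sum_mul]
          apply Finset.sum_congr rfl; intro t _; ring
      _ = ∑ t, ∑ j, (L.updateRow t (A i)).det * (A (f t) j * x j) := Finset.sum_comm
      _ = _ := by
          apply Finset.sum_congr rfl; intro t _; rw [Finset.mul_sum]
  have h4 : ∀ t, |(L.updateRow t (A i)).det| ≤ |L.det| := by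
    intro t
    have h5 := hf (Function.update f t i) (mem_univ _)
    have h6 : mino A (Function.update f t i) = (L.updateRow t (A i)).det := by
      unfold mino
      congr 1
      ext s j
      by_cases hs : s = t
      · subst hs; simp
      · rw [Matrix.updateRow_ne hs]; simp [hL, Function.update_of_ne hs]
    rw [h6] at h5
    exact h5
  have hdet : L.det = mino A f := rfl
  have h7 : |L.det| * |∑ j, A i j * x j| ≤ |L.det| * (k * Λ) := by
    rw [← abs_mul, h2]
    refine (Finset.abs_sum_le_sum_abs _ _).trans ?_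
    calc ∑ t, |(L.updateRow t (A i)).det * ∑ j, A (f t) j * x j| ≤ ∑ _t : Fin k, |L.det| * Λ := by
          apply Finset.sum_le_sum
          intro t _
          rw [abs_mul]
          exact mul_le_mul (h4 t) (hΛ t) (abs_nonneg _) (abs_nonneg _)
      _ = |L.det| * (k * Λ) := by
          rw [Finset.sum_const, Finset.card_univ, Fintype.card_fin, nsmul_eq_mul]; ring
  exact le_of_mul_le_mul_left h7 hpos

/-- constant in Minkowski's second theorem -/
noncomputable def CC (k : ℕ) : ℝ := (2 * KK k) ^ k * (k.factorial : ℝ)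

theorem one_le_CC {k : ℕ} (hk : 0 < k) : 1 ≤ CC k := by
  unfold CC
  have h1 := one_le_KK hk
  have h2 : (1 : ℝ) ≤ (2 * KK k) ^ k := one_le_pow₀ (by linarith)
  have h3 : (1 : ℝ) ≤ (k.factorial : ℝ) := by exact_mod_cast Nat.succ_le_of_lt k.factorial_pos
  nlinarith

/-- Minkowski's second theorem for a system of forms with bounded minors -/
theorem mink {k : ℕ} (hk : 0 < k) {I : Type} [Finite I] (A : I → Fin k → ℝ) (f₀ : Fin k → I) (h0 : mino A f₀ ≠ 0)
    (hub : ∀ f : Fin k → I, Function.Injective f → |mino A f| ≤ (k.factorial : ℝ)) :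
    ∃ (G : Matrix (Fin k) (Fin k) ℤ) (lam : Fin k → ℝ), G.det ≠ 0 ∧ (∀ j, 0 < lam j) ∧ (∀ i j, i ≤ j → lam i ≤ lam j) ∧
      ∏ j, lam j ≤ CC k ∧ ∀ i j, |∑ t, A i t * (G j t : ℝ)| ≤ k * lam j := by
  classical
  obtain ⟨f, hf1, hf2, hf3⟩ := max_minor A f₀ h0
  have hinj : Function.Injective f := by
    intro s t hst
    by_contra hne
    apply hf1
    unfold mino
    apply Matrix.det_zero_of_row_eq hne
    show A (f s) = A (f t)
    rw [hst]
  set L : Matrix (Fin k) (Fin k) ℝ := Matrix.of fun t => A (f t) with hL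
  have hdet : L.det = mino A f := rfl
  set Δ := |L.det| with hΔ
  have hΔ0 : 0 < Δ := by rw [hΔ, hdet]; exact abs_pos.2 hf1
  have hΔ1 : Δ ≤ (k.factorial : ℝ) := by rw [hΔ, hdet]; exact hub f hinj
  set s : ℝ := Δ⁻¹ ^ ((k : ℝ)⁻¹) with hs
  have hs0 : 0 < s := Real.rpow_pos_of_pos (inv_pos.2 hΔ0) _
  have hsk : s ^ k = Δ⁻¹ := by
    rw [hs]; exact Real.rpow_inv_natCast_pow (inv_pos.2 hΔ0).le hk.ne'
  set L' : Matrix (Fin k) (Fin k) ℝ := s • L with hL'
  have hdet' : |L'.det| = 1 := by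
    rw [hL', Matrix.det_smul, Fintype.card_fin, hsk, abs_mul, abs_of_pos (inv_pos.2 hΔ0), ← hΔ]
    exact inv_mul_cancel₀ hΔ0.ne'
  have hdet'0 : L'.det ≠ 0 := by intro h; rw [h] at hdet'; simp at hdet'
  have hLs : (L'⁻¹.transpose).transpose * L' = 1 := by
    rw [Matrix.transpose_transpose]
    exact Matrix.nonsing_inv_mul L' (isUnit_iff_ne_zero.2 hdet'0)
  obtain ⟨G, hG, hmono, hmin⟩ := minima L' (L'⁻¹.transpose) hLs
  have hup := prod_upper L' G hk hdet' hG hmono hmin
  refine ⟨G, fun j => s⁻¹ * ‖app L' (G j)‖, hG, ?_, ?_, ?_, ?_⟩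
  · intro j
    have := lam_pos L' G hdet'0 hG j
    positivity
  · intro i j hij
    exact mul_le_mul_of_nonneg_left (hmono i j hij) (inv_nonneg.2 hs0.le)
  · rw [Finset.prod_mul_distrib, Finset.prod_const, Finset.card_univ, Fintype.card_fin, inv_pow, hsk, inv_inv]
    unfold CC
    rw [mul_comm]
    exact mul_le_mul hup hΔ1 hΔ0.le (by have := one_le_KK hk; positivity)
  · intro i j
    apply hf3 i (fun t => (G j t : ℝ))
    intro t
    have h1 : |app L' (G j) t| ≤ ‖app L' (G j)‖ := norm_le_pi_norm (app L' (G j)) t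
    have h2 : app L' (G j) t = s * ∑ l, A (f t) l * (G j l : ℝ) := by
      rw [app_apply, Matrix.mulVec, dotProduct, Finset.mul_sum]
      apply Finset.sum_congr rfl
      intro l _
      rw [hL']
      simp only [Matrix.smul_apply, smul_eq_mul, hL, Matrix.of_apply]
      ring
    rw [h2, abs_mul, abs_of_pos hs0] at h1
    show |∑ l, A (f t) l * (G j l : ℝ)| ≤ s⁻¹ * ‖app L' (G j)‖
    calc |∑ l, A (f t) l * (G j l : ℝ)| = s⁻¹ * (s * |∑ l, A (f t) l * (G j l : ℝ)|) := by
          rw [← mul_assoc, inv_mul_cancel₀ hs0.ne', one_mul]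
      _ ≤ s⁻¹ * ‖app L' (G j)‖ := mul_le_mul_of_nonneg_left h1 (inv_nonneg.2 hs0.le)

theorem prod_head {k m : ℕ} (hmk : m ≤ k) (hm : 0 < m) (lam : Fin k → ℝ) (h0 : ∀ j, 0 < lam j)
    (hmono : ∀ i j, i ≤ j → lam i ≤ lam j) {C : ℝ} (hC : 1 ≤ C) (hp : ∏ j, lam j ≤ C) :
    ∏ i : Fin m, lam (Fin.castLE hmk i) ≤ C := by
  classical
  set last : Fin k := ⟨m - 1, by omega⟩ with hlast
  by_cases h : 1 ≤ lam last
  · set S : Finset (Fin k) := univ.map (Fin.castLEEmb hmk) with hS
    have h1 : ∏ i : Fin m, lam (Fin.castLE hmk i) = ∏ j ∈ S, lam j := by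
      rw [hS, Finset.prod_map]; rfl
    have h2 := Finset.prod_mul_prod_compl S lam
    have h3 : (1 : ℝ) ≤ ∏ j ∈ Sᶜ, lam j := by
      apply Finset.one_le_prod
      intro j hj
      refine h.trans (hmono _ _ ?_)
      rw [Finset.mem_compl, hS, Finset.mem_map] at hj
      push Not at hj
      rw [Fin.le_def]
      simp only [hlast]
      by_contra hcon
      push Not at hcon
      refine hj ⟨j.1, by omega⟩ (mem_univ _) ?_
      ext; rfl
    have h4 : 0 ≤ ∏ j ∈ S, lam j := Finset.prod_nonneg fun j _ => (h0 j).le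
    rw [h1]
    calc ∏ j ∈ S, lam j ≤ (∏ j ∈ S, lam j) * ∏ j ∈ Sᶜ, lam j := le_mul_of_one_le_right h4 h3
      _ = ∏ j, lam j := h2
      _ ≤ C := hp
  · push Not at h
    refine le_trans ?_ hC
    apply Finset.prod_le_one
    · intro i _; exact (h0 _).le
    · intro i _
      refine (hmono _ last ?_).trans h.le
      rw [Fin.le_def]
      simp only [hlast, Fin.val_castLE]
      omega

/-- the system of forms -/
noncomputable def forms {r k : ℕ} (n : Fin r → Fin k → ℤ) (M β : ℝ) : Fin k ⊕ Fin r → Fin k → ℝ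
  | Sum.inl j => fun t => if t = j then (β ^ r)⁻¹ else 0
  | Sum.inr l => fun t => (n l t : ℝ) * (β ^ k / (M * β ^ r))

theorem forms_base {r k : ℕ} (n : Fin r → Fin k → ℤ) (M β : ℝ) (hβ : 0 < β) :
    mino (forms n M β) Sum.inl ≠ 0 := by
  have e : (Matrix.of fun t => forms n M β (Sum.inl t)) = ((β ^ r)⁻¹ : ℝ) • (1 : Matrix (Fin k) (Fin k) ℝ) := by
    ext s t
    simp only [forms, Matrix.of_apply, Matrix.smul_apply, Matrix.one_apply, smul_eq_mul]
    by_cases h : s = t
    · subst h; simp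
    · rw [if_neg (fun h' => h h'.symm), if_neg h]; simp
  unfold mino
  rw [e, Matrix.det_smul, Matrix.det_one, mul_one]
  positivity

theorem forms_bound {r k : ℕ} (n : Fin r → Fin k → ℤ) (M β : ℝ) (hβ : 1 ≤ β) (hM : 1 ≤ M)
    (hn : ∀ l j, |(n l j : ℝ)| ≤ M) (f : Fin k → Fin k ⊕ Fin r) (hf : Function.Injective f) :
    |mino (forms n M β) f| ≤ (k.factorial : ℝ) := by
  classical
  have hβ0 : 0 < β := by linarith
  have hM0 : 0 < M := by linarith
  set w : Fin k ⊕ Fin r → ℝ := fun i => (β ^ r)⁻¹ * (if i.isRight then β ^ k else 1) with hw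
  have h1 : ∀ (i : Fin k ⊕ Fin r) t, |forms n M β i t| ≤ w i := by
    rintro (j | l) t
    · simp only [forms, hw, Sum.isRight_inl, Bool.false_eq_true, if_false, mul_one]
      split_ifs
      · rw [abs_of_pos (by positivity)]
      · rw [abs_zero]; positivity
    · simp only [forms, hw, Sum.isRight_inr, if_true]
      rw [abs_mul, abs_of_pos (show 0 < β ^ k / (M * β ^ r) by positivity)]
      calc |(n l t : ℝ)| * (β ^ k / (M * β ^ r)) ≤ M * (β ^ k / (M * β ^ r)) :=
            mul_le_mul_of_nonneg_right (hn l t) (by positivity)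
        _ = (β ^ r)⁻¹ * β ^ k := by field_simp
  have h2 := abs_det_le (Matrix.of fun t => forms n M β (f t)) (fun t => w (f t)) (fun i l => h1 (f i) l)
  refine h2.trans ?_
  have h3 : ∏ t, w (f t) ≤ 1 := by
    have e1 : ∏ t, w (f t) = ((β ^ r)⁻¹) ^ k * (β ^ k) ^ (univ.filter fun t => (f t).isRight).card := by
      rw [hw, Finset.prod_mul_distrib, Finset.prod_const, Finset.card_univ, Fintype.card_fin, Finset.prod_ite]
      simp
    have h4 : (univ.filter fun t => (f t).isRight).card ≤ r := by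
      have h5 : (univ.filter fun t => (f t).isRight).card ≤ ((univ : Finset (Fin r)).map Function.Embedding.inr : Finset (Fin k ⊕ Fin r)).card := by
        apply Finset.card_le_card_of_injOn f
        · intro t ht
          simp only [Finset.coe_filter, Finset.mem_univ, true_and, Set.mem_ofPred_eq] at ht
          simp only [Finset.coe_map, Set.mem_image, Finset.mem_coe, Finset.mem_univ, true_and]
          cases hft : f t with
          | inl a => rw [hft] at ht; simp at ht
          | inr b => exact ⟨b, rfl⟩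
        · exact hf.injOn
      rwa [Finset.card_map, Finset.card_univ, Fintype.card_fin] at h5
    rw [e1]
    calc ((β ^ r)⁻¹) ^ k * (β ^ k) ^ (univ.filter fun t => (f t).isRight).card ≤ ((β ^ r)⁻¹) ^ k * (β ^ k) ^ r := by
          apply mul_le_mul_of_nonneg_left _ (by positivity)
          exact pow_le_pow_right₀ (one_le_pow₀ hβ) h4
      _ = 1 := by
          rw [inv_pow, ← pow_mul, ← pow_mul, mul_comm k r]
          exact inv_mul_cancel₀ (by positivity)
  calc (k.factorial : ℝ) * ∏ t, w (f t) ≤ (k.factorial : ℝ) * 1 := mul_le_mul_of_nonneg_left h3 (by positivity)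
    _ = (k.factorial : ℝ) := mul_one _

theorem lattice : T_lattice := by
  classical
  intro r k m hr hm hrm
  have hk : 0 < k := by omega
  have hmk : m ≤ k := by nlinarith
  have hk0 : (0 : ℝ) < k := by exact_mod_cast hk
  have hr0 : (0 : ℝ) < r := by exact_mod_cast hr
  have hCC := one_le_CC hk
  have hCC0 : 0 < CC k := by linarith
  refine ⟨((k : ℝ) ^ 3) ^ (m - 1) * (r * (k : ℝ) ^ 2) * CC k ^ 2, by positivity, ?_⟩
  intro β hβ
  have hβ0 : 0 < β := by linarith
  refine ⟨⌈((k : ℝ) * β ^ r) ^ k * CC k⌉, ?_⟩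
  intro n M hM hn
  have hM0 : 0 < M := by linarith
  obtain ⟨G, lam, hG, hl0, hlm, hlp, hlb⟩ := mink hk (forms n M β) Sum.inl (forms_base n M β hβ0)
    (fun f hf => forms_bound n M β hβ hM hn f hf)
  set B : ℝ := β ^ r with hB
  have hB0 : 0 < B := by positivity
  -- coordinates
  have hco : ∀ j t, |(G j t : ℝ)| ≤ k * B * lam j := by
    intro j t
    have h1 := hlb (Sum.inl t) j
    have h2 : ∑ s, forms n M β (Sum.inl t) s * (G j s : ℝ) = B⁻¹ * (G j t : ℝ) := by
      simp only [forms, ite_mul, zero_mul]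
      rw [Finset.sum_ite_eq' univ t]
      simp [hB]
    rw [h2, abs_mul, abs_of_pos (inv_pos.2 hB0), inv_mul_le_iff₀ hB0] at h1
    linarith
  have hin : ∀ j l, |∑ t, (G j t : ℝ) * n l t| ≤ k * lam j * (M * B / β ^ k) := by
    intro j l
    have h1 := hlb (Sum.inr l) j
    have h2 : ∑ s, forms n M β (Sum.inr l) s * (G j s : ℝ) = (β ^ k / (M * B)) * ∑ t, (G j t : ℝ) * n l t := by
      simp only [forms]
      rw [Finset.mul_sum]
      apply Finset.sum_congr rfl
      intro t _; ring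
    have h3 : 0 < β ^ k / (M * B) := by positivity
    rw [h2, abs_mul, abs_of_pos h3] at h1
    have h4 : M * B / β ^ k = (β ^ k / (M * B))⁻¹ := by rw [inv_div]
    rw [h4, ← div_eq_mul_inv, le_div_iff₀ h3]
    linarith
  -- lower bound of the minima
  have hlow : ∀ j, 1 ≤ k * B * lam j := by
    intro j
    have h1 : ∃ t, G j t ≠ 0 := by
      by_contra hcon
      push Not at hcon
      exact hG (Matrix.det_eq_zero_of_row_eq_zero j hcon)
    obtain ⟨t, ht⟩ := h1
    have h2 : (1 : ℝ) ≤ |(G j t : ℝ)| := by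
      have := Int.one_le_abs ht
      exact_mod_cast this
    exact h2.trans (hco j t)
  have hupp : ∀ i, lam i ≤ (k * B) ^ (k - 1) * CC k := by
    intro i
    have h1 : 1 ≤ ∏ j ∈ univ.erase i, (k * B * lam j) := Finset.one_le_prod fun j _ => hlow j
    rw [Finset.prod_mul_distrib, Finset.prod_const, Finset.card_erase_of_mem (mem_univ i), Finset.card_univ,
      Fintype.card_fin] at h1
    have h2 := Finset.mul_prod_erase univ lam (mem_univ i)
    have h3 : 0 < lam i := hl0 i
    calc lam i = lam i * 1 := (mul_one _).symm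
      _ ≤ lam i * ((k * B) ^ (k - 1) * ∏ j ∈ univ.erase i, lam j) := mul_le_mul_of_nonneg_left h1 h3.le
      _ = (k * B) ^ (k - 1) * ∏ j, lam j := by rw [← h2]; ring
      _ ≤ (k * B) ^ (k - 1) * CC k := mul_le_mul_of_nonneg_left hlp (by positivity)
  refine ⟨fun i => G (Fin.castLE hmk i), ?_, ?_, ?_⟩
  · exact (Matrix.linearIndependent_rows_of_det_ne_zero hG).comp _ (Fin.castLE_injective hmk)
  · intro i j
    have h1 := hco (Fin.castLE hmk i) j
    have h2 : (k : ℝ) * B * lam (Fin.castLE hmk i) ≤ ((k : ℝ) * B) ^ k * CC k := by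
      calc (k : ℝ) * B * lam (Fin.castLE hmk i) ≤ (k : ℝ) * B * ((k * B) ^ (k - 1) * CC k) :=
            mul_le_mul_of_nonneg_left (hupp _) (by positivity)
        _ = ((k : ℝ) * B) ^ (k - 1 + 1) * CC k := by rw [pow_succ]; ring
        _ = ((k : ℝ) * B) ^ k * CC k := by rw [Nat.sub_add_cancel hk]
    have h3 : (|G (Fin.castLE hmk i) j| : ℝ) ≤ ⌈((k : ℝ) * B) ^ k * CC k⌉ :=
      (h1.trans h2).trans (Int.le_ceil _)
    have h4 : ((|G (Fin.castLE hmk i) j| : ℤ) : ℝ) ≤ ⌈((k : ℝ) * B) ^ k * CC k⌉ := by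
      rw [Int.cast_abs]; exact h3
    exact_mod_cast h4
  · intro i
    set μ : Fin m → ℝ := fun i => lam (Fin.castLE hmk i) with hμ
    have hμ0 : ∀ j, 0 < μ j := fun j => hl0 _
    have hμp : ∏ j, μ j ≤ CC k := prod_head hmk (by omega) lam hl0 hlm hCC hlp
    have h1 : ∏ j ∈ univ.erase i, ∑ t, (G (Fin.castLE hmk j) t : ℝ) ^ 2 ≤ ∏ j ∈ univ.erase i, ((k : ℝ) ^ 3 * B ^ 2) * μ j ^ 2 := by
      apply Finset.prod_le_prod
      · intro j _; exact Finset.sum_nonneg fun t _ => sq_nonneg _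
      · intro j _
        calc ∑ t, (G (Fin.castLE hmk j) t : ℝ) ^ 2 ≤ ∑ _t : Fin k, (k * B * μ j) ^ 2 := by
              apply Finset.sum_le_sum
              intro t _
              rw [← sq_abs]
              exact pow_le_pow_left₀ (abs_nonneg _) (hco _ t) 2
          _ = ((k : ℝ) ^ 3 * B ^ 2) * μ j ^ 2 := by
              rw [Finset.sum_const, Finset.card_univ, Fintype.card_fin, nsmul_eq_mul]; ring
    have h2 : ∑ l, (∑ t, (G (Fin.castLE hmk i) t : ℝ) * n l t) ^ 2 ≤ r * (k * μ i * (M * B / β ^ k)) ^ 2 := by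
      calc ∑ l, (∑ t, (G (Fin.castLE hmk i) t : ℝ) * n l t) ^ 2 ≤ ∑ _l : Fin r, (k * μ i * (M * B / β ^ k)) ^ 2 := by
            apply Finset.sum_le_sum
            intro l _
            rw [← sq_abs]
            exact pow_le_pow_left₀ (abs_nonneg _) (hin _ l) 2
        _ = _ := by rw [Finset.sum_const, Finset.card_univ, Fintype.card_fin, nsmul_eq_mul]
    have h3 : 0 ≤ ∑ l, (∑ t, (G (Fin.castLE hmk i) t : ℝ) * n l t) ^ 2 := Finset.sum_nonneg fun t _ => sq_nonneg _
    have h4 : 0 ≤ ∏ j ∈ univ.erase i, ((k : ℝ) ^ 3 * B ^ 2) * μ j ^ 2 :=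
      Finset.prod_nonneg fun j _ => mul_nonneg (by positivity) (sq_nonneg _)
    refine (mul_le_mul h1 h2 h3 h4).trans ?_
    rw [Finset.prod_mul_distrib, Finset.prod_const, Finset.card_erase_of_mem (mem_univ i), Finset.card_univ,
      Fintype.card_fin, Finset.prod_pow]
    have h5 := Finset.mul_prod_erase univ μ (mem_univ i)
    have e1 : ((k : ℝ) ^ 3 * B ^ 2) ^ (m - 1) * (∏ j ∈ univ.erase i, μ j) ^ 2 * (r * (k * μ i * (M * B / β ^ k)) ^ 2) =
        (((k : ℝ) ^ 3) ^ (m - 1) * (r * (k : ℝ) ^ 2)) * (∏ j, μ j) ^ 2 * (M ^ 2 * ((B ^ 2) ^ (m - 1) * B ^ 2 / (β ^ k) ^ 2)) := by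
      rw [← h5, mul_pow ((k : ℝ) ^ 3) (B ^ 2)]; ring
    rw [e1]
    have h6 : (∏ j, μ j) ^ 2 ≤ CC k ^ 2 := pow_le_pow_left₀ (Finset.prod_nonneg fun j _ => (hμ0 j).le) hμp 2
    have h7 : (B ^ 2) ^ (m - 1) * B ^ 2 / (β ^ k) ^ 2 ≤ 1 / β ^ 2 := by
      rw [div_le_div_iff₀ (by positivity) (by positivity), one_mul]
      have e2 : (B ^ 2) ^ (m - 1) * B ^ 2 = β ^ (2 * (r * m)) := by
        rw [← pow_succ, Nat.sub_add_cancel hm, hB, ← pow_mul, ← pow_mul]
        congr 1; ring
      rw [e2, ← pow_add, ← pow_mul]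
      exact pow_le_pow_right₀ hβ (by omega)
    have hc1 : (0 : ℝ) ≤ ((k : ℝ) ^ 3) ^ (m - 1) * (r * (k : ℝ) ^ 2) := by positivity
    calc (((k : ℝ) ^ 3) ^ (m - 1) * (r * (k : ℝ) ^ 2)) * (∏ j, μ j) ^ 2 * (M ^ 2 * ((B ^ 2) ^ (m - 1) * B ^ 2 / (β ^ k) ^ 2))
        ≤ (((k : ℝ) ^ 3) ^ (m - 1) * (r * (k : ℝ) ^ 2)) * CC k ^ 2 * (M ^ 2 * (1 / β ^ 2)) := by
          apply mul_le_mul (mul_le_mul_of_nonneg_left h6 hc1) (mul_le_mul_of_nonneg_left h7 (sq_nonneg _))
            (by positivity) (by positivity)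
      _ = ((k : ℝ) ^ 3) ^ (m - 1) * (r * (k : ℝ) ^ 2) * CC k ^ 2 * M ^ 2 / β ^ 2 := by ring

end Pool.Agent.TH954.V.Lat
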