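import Pool.Agent.TH954.V.Defs

/-!
# The two addition laws on `y² = x³ + a x + b`
-/

set_option autoImplicit false

open MvPolynomial WeierstrassCurve Pool.Agent.TH942

namespace Pool.Agent.TH954.V

section alg

variable {F : Type} [Field F]

omit [Field F] in
lemma law_vec3 {v w : Fin 3 → F} (h0 : v 0 = w 0) (h1 : v 1 = w 1) (h2 : v 2 = w 2) : v = w := by
  ext i; fin_cases i
  · exact h0
  · exact h1
  · exact h2

lemma law_subst {a b x1 y1 x2 y2 : F} (hx : x1 - x2 ≠ 0) (e1 : y1 ^ 2 = x1 ^ 3 + a * x1 + b)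
    (e2 : y2 ^ 2 = x2 ^ 3 + a * x2 + b) :
    a = ((y1 ^ 2 - y2 ^ 2) - (x1 ^ 3 - x2 ^ 3)) / (x1 - x2) ∧
    b = y1 ^ 2 - x1 ^ 3 - ((y1 ^ 2 - y2 ^ 2) - (x1 ^ 3 - x2 ^ 3)) / (x1 - x2) * x1 := by
  have ha : a = ((y1 ^ 2 - y2 ^ 2) - (x1 ^ 3 - x2 ^ 3)) / (x1 - x2) := by
    rw [eq_div_iff hx]; linear_combination e2 - e1
  refine ⟨ha, ?_⟩
  rw [← ha]; linear_combination -e1

lemma law1_chord {a b x1 y1 x2 y2 : F} (hx : x1 - x2 ≠ 0) (e1 : y1 ^ 2 = x1 ^ 3 + a * x1 + b)
    (e2 : y2 ^ 2 = x2 ^ 3 + a * x2 + b) :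
    law1 a b ![x1, y1, 1] ![x2, y2, 1] = (-(x1 - x2) ^ 3) •
      ![((y1 - y2) / (x1 - x2)) ^ 2 - x1 - x2,
        -((y1 - y2) / (x1 - x2) * (((y1 - y2) / (x1 - x2)) ^ 2 - x1 - x2 - x1) + y1), 1] := by
  obtain ⟨ha, hb⟩ := law_subst hx e1 e2
  rw [ha, hb]
  apply law_vec3
  · simp [law1]; field_simp; ring
  · simp [law1]; field_simp; ring
  · simp [law1]; field_simp; ring

lemma law2_chord {a b x1 y1 x2 y2 : F} (hx : x1 - x2 ≠ 0) (e1 : y1 ^ 2 = x1 ^ 3 + a * x1 + b)
    (e2 : y2 ^ 2 = x2 ^ 3 + a * x2 + b) :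
    law2 a b ![x1, y1, 1] ![x2, y2, 1] =
      ((y1 + y2) * (y1 * y2 + a * (x1 + x2) + 3 * b) + (x1 * y2 + x2 * y1) * (3 * (x1 * x2) + a)) •
      ![((y1 - y2) / (x1 - x2)) ^ 2 - x1 - x2,
        -((y1 - y2) / (x1 - x2) * (((y1 - y2) / (x1 - x2)) ^ 2 - x1 - x2 - x1) + y1), 1] := by
  obtain ⟨ha, hb⟩ := law_subst hx e1 e2
  rw [ha, hb]
  apply law_vec3
  · simp [law2]; field_simp; ring
  · simp [law2]; field_simp; ring
  · simp [law2]

lemma law2_tang {a b x y : F} (hy : y ≠ 0) (h2 : (2 : F) ≠ 0) (e : y ^ 2 = x ^ 3 + a * x + b) :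
    law2 a b ![x, y, 1] ![x, y, 1] = (8 * y ^ 3) •
      ![((3 * x ^ 2 + a) / (2 * y)) ^ 2 - x - x,
        -((3 * x ^ 2 + a) / (2 * y) * (((3 * x ^ 2 + a) / (2 * y)) ^ 2 - x - x - x) + y), 1] := by
  have hb : b = y ^ 2 - x ^ 3 - a * x := by linear_combination -e
  subst hb
  apply law_vec3
  · simp [law2]; field_simp; ring
  · simp [law2]; field_simp; ring
  · simp [law2]; ring

lemma law1_tang {a b x y : F} : law1 a b ![x, y, 1] ![x, y, 1] = 0 := by
  apply law_vec3 <;> simp [law1]

lemma law1_neg {a b x y : F} (e : y ^ 2 = x ^ 3 + a * x + b) :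
    law1 a b ![x, y, 1] ![x, -y, 1] = (8 * y ^ 3) • ![0, 1, 0] := by
  have hb : b = y ^ 2 - x ^ 3 - a * x := by linear_combination -e
  subst hb
  apply law_vec3
  · simp [law1]
  · simp [law1]; ring
  · simp [law1]

lemma law2_neg {a b x y : F} :
    law2 a b ![x, y, 1] ![x, -y, 1] = (law2 a b ![x, y, 1] ![x, -y, 1] 1) • ![0, 1, 0] := by
  apply law_vec3
  · simp [law2, mul_comm]
  · simp
  · simp [law2, mul_comm]

lemma law2_two {a b x : F} (e : 0 = x ^ 3 + a * x + b) :
    law2 a b ![x, 0, 1] ![x, -0, 1] 1 = -(3 * x ^ 2 + a) ^ 3 := by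
  have hb : b = - x ^ 3 - a * x := by linear_combination -e
  subst hb
  simp [law2]; ring

end alg

theorem law : T_law := by
  intro F _ _ _ a b hD P Q
  have h2 : (2 : F) ≠ 0 := two_ne_zero
  match P, Q with
  | 0, 0 =>
    rw [add_zero, crd_zero]
    refine ⟨⟨0, ?_⟩, ⟨1, ?_⟩, Or.inr ?_⟩
    · apply law_vec3 <;> simp [law1]
    · apply law_vec3 <;> simp [law2]
    · intro h
      have := congrFun h 1
      simp [law2] at this
  | 0, .some x y h =>
    rw [zero_add, crd_zero]
    have hc : crd (Affine.Point.some x y h : SPt a b) = ![x, y, 1] := rfl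
    rw [hc]
    refine ⟨⟨-1, ?_⟩, ⟨y, ?_⟩, Or.inl ?_⟩
    · apply law_vec3 <;> simp [law1]
    · apply law_vec3
      · simp [law2]; ring
      · simp [law2]
      · simp [law2]
    · intro h
      have := congrFun h 2
      simp [law1] at this
  | .some x y h, 0 =>
    rw [add_zero, crd_zero]
    have hc : crd (Affine.Point.some x y h : SPt a b) = ![x, y, 1] := rfl
    rw [hc]
    refine ⟨⟨1, ?_⟩, ⟨y, ?_⟩, Or.inl ?_⟩
    · apply law_vec3 <;> simp [law1]
    · apply law_vec3
      · simp [law2]; ring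
      · simp [law2]
      · simp [law2]
    · intro h
      have := congrFun h 2
      simp [law1] at this
  | .some x1 y1 h1, .some x2 y2 h2' =>
    have q1 := sw_eqn.mp h1.1
    have q2 := sw_eqn.mp h2'.1
    have hc1 : crd (Affine.Point.some x1 y1 h1 : SPt a b) = ![x1, y1, 1] := rfl
    have hc2 : crd (Affine.Point.some x2 y2 h2' : SPt a b) = ![x2, y2, 1] := rfl
    rw [hc1, hc2]
    by_cases hx : x1 = x2
    · subst hx
      have hyy : y1 = y2 ∨ y2 = -y1 := by
        have : y1 ^ 2 = y2 ^ 2 := by rw [q1, q2]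
        rcases sq_eq_sq_iff_eq_or_eq_neg.mp this with h | h
        · exact Or.inl h
        · right; rw [h, neg_neg]
      by_cases hneg : y2 = -y1
      · subst hneg
        have hsum : (Affine.Point.some x1 y1 h1 : SPt a b) + Affine.Point.some x1 (-y1) h2' = 0 := by
          rw [← sneg_mk h1 h2', add_neg_cancel]
        rw [hsum, crd_zero]
        refine ⟨⟨_, law1_neg q1⟩, ⟨_, law2_neg⟩, ?_⟩
        by_cases hy : y1 = 0
        · right
          subst hy
          intro h
          have h3 := congrFun h 1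
          rw [law2_two (by rw [← q1]; ring)] at h3
          have h4 : 3 * x1 ^ 2 + a = 0 := by
            have h5 : (3 * x1 ^ 2 + a) ^ 3 = 0 := by
              have h6 : -(3 * x1 ^ 2 + a) ^ 3 = 0 := h3
              linear_combination -h6
            exact pow_eq_zero_iff (by norm_num) |>.mp h5
          apply hD
          have ha : a = -3 * x1 ^ 2 := by linear_combination h4
          have hb : b = 2 * x1 ^ 3 := by
            have : b = - x1 ^ 3 - a * x1 := by linear_combination -q1
            rw [this, ha]; ring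
          rw [ha, hb]; ring
        · left
          rw [law1_neg q1]
          intro h
          have h3 := congrFun h 1
          simp at h3
          exact hy h3
      · have hy12 : y1 = y2 := hyy.resolve_right hneg
        subst hy12
        have hy0 : y1 ≠ 0 := by
          rintro rfl
          exact hneg (by ring)
        have hneg' : y1 ≠ (sw a b).toAffine.negY x1 y1 := by
          simp only [Affine.negY, sw]
          intro hh
          apply hy0
          have h3 : (2 : F) * y1 = 0 := by linear_combination hh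
          exact (mul_eq_zero.mp h3).resolve_left h2
        have hsum : crd ((Affine.Point.some x1 y1 h1 : SPt a b) + Affine.Point.some x1 y1 h2') =
            ![((3 * x1 ^ 2 + a) / (2 * y1)) ^ 2 - x1 - x1,
              -((3 * x1 ^ 2 + a) / (2 * y1) * (((3 * x1 ^ 2 + a) / (2 * y1)) ^ 2 - x1 - x1 - x1) + y1), 1] := by
          rw [Affine.Point.add_self_of_Y_ne hneg']
          have hsl : (sw a b).toAffine.slope x1 x1 y1 y1 = (3 * x1 ^ 2 + a) / (2 * y1) := by
            rw [Affine.slope_of_Y_ne rfl hneg']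
            simp only [sw, Affine.negY]
            congr 1
            · ring
            · ring
          simp only [crd, hsl]
          apply law_vec3
          · simp [Affine.addX, sw]
          · simp [Affine.addX, Affine.addY, Affine.negY, Affine.negAddY, sw]
          · simp
        rw [hsum]
        refine ⟨⟨0, ?_⟩, ⟨_, law2_tang hy0 h2 q1⟩, Or.inr ?_⟩
        · rw [law1_tang, zero_smul]
        · rw [law2_tang hy0 h2 q1]
          intro h
          have h3 := congrFun h 2
          simp at h3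
          exact hy0 h3
    · have hx' : x1 - x2 ≠ 0 := sub_ne_zero.mpr hx
      have hsum : crd ((Affine.Point.some x1 y1 h1 : SPt a b) + Affine.Point.some x2 y2 h2') =
          ![((y1 - y2) / (x1 - x2)) ^ 2 - x1 - x2,
            -((y1 - y2) / (x1 - x2) * (((y1 - y2) / (x1 - x2)) ^ 2 - x1 - x2 - x1) + y1), 1] := by
        rw [Affine.Point.add_of_X_ne hx]
        simp only [crd, Affine.slope_of_X_ne hx]
        apply law_vec3
        · simp [Affine.addX, sw]
        · simp [Affine.addX, Affine.addY, Affine.negY, Affine.negAddY, sw]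
        · simp
      rw [hsum]
      refine ⟨⟨_, law1_chord hx' q1 q2⟩, ⟨_, law2_chord hx' q1 q2⟩, Or.inl ?_⟩
      rw [law1_chord hx' q1 q2]
      intro h
      have h3 := congrFun h 2
      simp at h3
      exact hx' h3

end Pool.Agent.TH954.V
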