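import Pool.Agent.TH954.V.MainV

/-!
# Local estimates, uniform over all extension fields
-/

set_option autoImplicit false
set_option linter.unusedSectionVars false

open MvPolynomial WeierstrassCurve Pool.Agent.TH942

namespace Pool.Agent.TH954.V

section basic

variable {K L : Type} [Field K] [Field L] [Algebra K L] {k : ℕ}

/-- normalised absolute value of a multihomogeneous form at a point over `L` -/
noncomputable def nvL (w : AbsoluteValue L ℝ) (σ : Fin k → ℕ)
    (f : MvPolynomial (Fin k × Fin 3) K) (u : Fin k → Fin 3 → L) : ℝ :=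
  w (evc f u) / ∏ j, (⨆ c, w (u j c)) ^ σ j

lemma nvL_nonneg (w : AbsoluteValue L ℝ) (σ : Fin k → ℕ)
    (f : MvPolynomial (Fin k × Fin 3) K) (u : Fin k → Fin 3 → L) : 0 ≤ nvL w σ f u := by
  refine div_nonneg (w.nonneg _) (Finset.prod_nonneg (fun j _ => pow_nonneg ?_ _))
  exact Real.iSup_nonneg (fun c => w.nonneg _)

lemma nvL_smul (w : AbsoluteValue L ℝ) {σ : Fin k → ℕ}
    {f : MvPolynomial (Fin k × Fin 3) K} (hf : MultiHom σ f) (s : Fin k → L)
    (hs : ∀ j, s j ≠ 0) (u : Fin k → Fin 3 → L) :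
    nvL w σ f (fun j => s j • u j) = nvL w σ f u := by
  unfold nvL
  rw [evc_smul hf, w.map_mul, w.map_prod]
  simp_rw [w.map_pow]
  have h1 : ∏ j, (⨆ c, w ((s j • u j) c)) ^ σ j =
      (∏ j, w (s j) ^ σ j) * ∏ j, (⨆ c, w (u j c)) ^ σ j := by
    rw [← Finset.prod_mul_distrib]
    refine Finset.prod_congr rfl (fun j _ => ?_)
    rw [sup_smul, mul_pow]
  rw [h1]
  refine mul_div_mul_left _ _ ?_
  exact Finset.prod_ne_zero_iff.mpr (fun j _ => pow_ne_zero _ ((w.ne_zero_iff).mpr (hs j)))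

lemma evcL_mon_le (w : AbsoluteValue L ℝ) (m : Fin k × Fin 3 →₀ ℕ) (u : Fin k → Fin 3 → L)
    (hu : ∀ j c, w (u j c) ≤ 1) : w (∏ p ∈ m.support, u p.1 p.2 ^ m p) ≤ 1 := by
  rw [w.map_prod]
  refine Finset.prod_le_one (fun _ _ => w.nonneg _) (fun p _ => ?_)
  rw [w.map_pow]
  exact pow_le_one₀ (w.nonneg _) (hu _ _)

/-- the largest absolute value of `1` and the elements of `A` -/
noncomputable def cM (A : Finset K) (w : AbsoluteValue L ℝ) : ℝ :=
  ⨆ z : {z // z = 1 ∨ z ∈ A}, w (algebraMap K L z.1)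

lemma fin_sub (A : Finset K) : Finite {z : K // z = 1 ∨ z ∈ A} := by
  classical
  exact Set.Finite.to_subtype (s := {z : K | z = 1 ∨ z ∈ A})
    ((Set.finite_singleton (1 : K)).union A.finite_toSet)

lemma one_le_cM (A : Finset K) (w : AbsoluteValue L ℝ) : 1 ≤ cM A w := by
  have := fin_sub A
  have h1 : w (algebraMap K L 1) = 1 := by rw [map_one, w.map_one]
  rw [← h1]
  exact le_ciSup (f := fun z : {z // z = 1 ∨ z ∈ A} => w (algebraMap K L z.1))
    (Set.finite_range _).bddAbove ⟨1, Or.inl rfl⟩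

lemma le_cM (A : Finset K) (w : AbsoluteValue L ℝ) {z : K} (hz : z ∈ A) :
    w (algebraMap K L z) ≤ cM A w := by
  have := fin_sub A
  exact le_ciSup (f := fun z : {z // z = 1 ∨ z ∈ A} => w (algebraMap K L z.1))
    (Set.finite_range _).bddAbove ⟨z, Or.inr hz⟩

lemma cM_mono {A B : Finset K} (h : A ⊆ B) (w : AbsoluteValue L ℝ) : cM A w ≤ cM B w := by
  have := fin_sub A
  have : Nonempty {z : K // z = 1 ∨ z ∈ A} := ⟨⟨1, Or.inl rfl⟩⟩
  refine ciSup_le (fun z => ?_)
  rcases z.2 with h1 | h1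
  · rw [h1, map_one, w.map_one]
    exact one_le_cM B w
  · exact le_cM B w (h h1)

/-- the ultrametric inequality -/
def Ult (w : AbsoluteValue L ℝ) : Prop := ∀ x y, w (x + y) ≤ max (w x) (w y)

open Classical in
/-- the shape of the constants: `cM ^ e`, times `M` if `w` is archimedean -/
noncomputable def kap (A : Finset K) (M e : ℕ) (w : AbsoluteValue L ℝ) : ℝ :=
  (if Ult w then 1 else (M : ℝ)) * cM A w ^ e

open Classical in
lemma one_le_kap (A : Finset K) {M : ℕ} (hM : 1 ≤ M) (e : ℕ) (w : AbsoluteValue L ℝ) :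
    1 ≤ kap A M e w := by
  unfold kap
  have h1 : (1 : ℝ) ≤ if Ult w then 1 else (M : ℝ) := by
    split_ifs
    · exact le_rfl
    · exact_mod_cast hM
  exact one_le_mul_of_one_le_of_one_le h1 (one_le_pow₀ (one_le_cM A w))

lemma kap_pow (A : Finset K) (M e n : ℕ) (w : AbsoluteValue L ℝ) :
    kap A M e w ^ n = kap A (M ^ n) (e * n) w := by
  unfold kap
  rw [mul_pow, ← pow_mul]
  split_ifs
  · rw [one_pow]
  · push_cast
    rfl

lemma kap_mul_le [DecidableEq K] (A B : Finset K) (M M' e e' : ℕ) (w : AbsoluteValue L ℝ) :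
    kap A M e w * kap B M' e' w ≤ kap (A ∪ B) (M * M') (e + e') w := by
  unfold kap
  have h1 : cM A w ^ e ≤ cM (A ∪ B) w ^ e := pow_le_pow_left₀
    (zero_le_one.trans (one_le_cM A w)) (cM_mono Finset.subset_union_left w) e
  have h2 : cM B w ^ e' ≤ cM (A ∪ B) w ^ e' := pow_le_pow_left₀
    (zero_le_one.trans (one_le_cM B w)) (cM_mono Finset.subset_union_right w) e'
  have h3 : 0 ≤ cM A w ^ e := pow_nonneg (zero_le_one.trans (one_le_cM A w)) _
  have h4 : 0 ≤ cM B w ^ e' := pow_nonneg (zero_le_one.trans (one_le_cM B w)) _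
  have h5 : cM A w ^ e * cM B w ^ e' ≤ cM (A ∪ B) w ^ (e + e') := by
    rw [pow_add]
    exact mul_le_mul h1 h2 h4 (h3.trans h1)
  split_ifs
  · rw [one_mul, one_mul, one_mul]
    exact h5
  · push_cast
    calc (M : ℝ) * cM A w ^ e * ((M' : ℝ) * cM B w ^ e') =
          ((M : ℝ) * M') * (cM A w ^ e * cM B w ^ e') := by ring
      _ ≤ _ := mul_le_mul_of_nonneg_left h5 (by positivity)

lemma kap_prod_le [DecidableEq K] {ι : Type} (s : Finset ι) (A : ι → Finset K) (M e : ι → ℕ) :
    ∃ (B : Finset K), ∀ (L : Type) [Field L] [Algebra K L] (w : AbsoluteValue L ℝ),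
      ∏ i ∈ s, kap (A i) (M i) (e i) w ≤ kap B (∏ i ∈ s, M i) (∑ i ∈ s, e i) w := by
  classical
  induction s using Finset.induction_on with
  | empty =>
    refine ⟨∅, fun L _ _ w => ?_⟩
    rw [Finset.prod_empty, Finset.prod_empty, Finset.sum_empty]
    exact one_le_kap _ le_rfl _ _
  | insert a s ha ih =>
    obtain ⟨B, hB⟩ := ih
    refine ⟨A a ∪ B, fun L _ _ w => ?_⟩
    rw [Finset.prod_insert ha, Finset.prod_insert ha, Finset.sum_insert ha]
    refine le_trans ?_ (kap_mul_le _ _ _ _ _ _ w)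
    refine mul_le_mul_of_nonneg_left (hB L w) ?_
    unfold kap
    refine mul_nonneg ?_ (pow_nonneg (zero_le_one.trans (one_le_cM _ w)) _)
    split_ifs
    · exact zero_le_one
    · exact Nat.cast_nonneg _

lemma evcL_le (w : AbsoluteValue L ℝ) (f : MvPolynomial (Fin k × Fin 3) K)
    (A : Finset K) (hA : ∀ m ∈ f.support, coeff m f ∈ A) (M : ℕ) (hM : f.support.card ≤ M)
    (u : Fin k → Fin 3 → L) (hu : ∀ j c, w (u j c) ≤ 1) :
    w (evc f u) ≤ kap A M 1 w := by
  unfold kap
  rw [pow_one, evc_expand]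
  have hterm : ∀ m ∈ f.support, w (algebraMap K L (coeff m f) *
      ∏ p ∈ m.support, u p.1 p.2 ^ m p) ≤ cM A w := by
    intro m hm
    rw [w.map_mul]
    calc _ ≤ w (algebraMap K L (coeff m f)) * 1 :=
          mul_le_mul_of_nonneg_left (evcL_mon_le w m u hu) (w.nonneg _)
      _ ≤ _ := by rw [mul_one]; exact le_cM A w (hA m hm)
  split_ifs with h
  · rw [one_mul]
    exact ult_sum h _ _ (zero_le_one.trans (one_le_cM A w)) hterm
  · refine (w.sum_le _ _).trans ((Finset.sum_le_sum hterm).trans ?_)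
    rw [Finset.sum_const, nsmul_eq_mul]
    exact mul_le_mul_of_nonneg_right (by exact_mod_cast hM) (zero_le_one.trans (one_le_cM A w))

lemma sum_mul_le (w : AbsoluteValue L ℝ) {s : ℕ} (A : Finset K) (M : ℕ) (x y : Fin s → L)
    (hx : ∀ i, w (x i) ≤ kap A M 1 w) {Y : ℝ} (hY : 0 ≤ Y) (hy : ∀ i, w (y i) ≤ Y) :
    w (∑ i, x i * y i) ≤ kap A (M * (s + 1)) 1 w * Y := by
  have h0 : 0 ≤ kap A M 1 w := by
    unfold kap
    refine mul_nonneg ?_ (pow_nonneg (zero_le_one.trans (one_le_cM _ w)) _)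
    split_ifs
    · exact zero_le_one
    · exact Nat.cast_nonneg _
  have hterm : ∀ i, w (x i * y i) ≤ kap A M 1 w * Y := by
    intro i
    rw [w.map_mul]
    exact mul_le_mul (hx i) (hy i) (w.nonneg _) h0
  by_cases h : Ult w
  · have e1 : kap A (M * (s + 1)) 1 w = kap A M 1 w := by
      unfold kap
      rw [if_pos h, if_pos h]
    rw [e1]
    exact ult_sum h _ _ (mul_nonneg h0 hY) (fun i _ => hterm i)
  · refine (w.sum_le _ _).trans ((Finset.sum_le_sum (fun i _ => hterm i)).trans ?_)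
    rw [Finset.sum_const, Finset.card_univ, Fintype.card_fin, nsmul_eq_mul]
    have e1 : kap A (M * (s + 1)) 1 w = (s + 1) * kap A M 1 w := by
      unfold kap
      rw [if_neg h, if_neg h]
      push_cast
      ring
    rw [e1]
    nlinarith [mul_nonneg h0 hY]

lemma evcL_wei {a b : K} (P : Fin k → SPt (algebraMap K L a) (algebraMap K L b)) (s : Fin k → L)
    (j : Fin k) : evc (wei a b j) (fun j => s j • crd (P j)) = 0 := by
  have h := crd_eqn (P j)
  simp only [evc, wei, map_sub, map_mul, map_pow, aeval_X, Pi.smul_apply, smul_eq_mul, aeval_C]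
  linear_combination s j ^ 3 * h

/-- normalisation of coordinates -/
lemma exists_norm {a b : L} (w : AbsoluteValue L ℝ) (P : Fin k → SPt a b) :
    ∃ (c : Fin k → Fin 3) (r : Fin k → L), (∀ j, r j ≠ 0) ∧
      (∀ j, (⨆ e, w ((r j • crd (P j)) e)) = 1) ∧ ∀ j, (r j • crd (P j)) (c j) = 1 := by
  choose c hc using fun j => exists_sup w (crd (P j))
  have hpos : ∀ j, 0 < w (crd (P j) (c j)) := fun j => by
    rw [hc]
    exact sup_pos w (crd_ne_zero _)
  have hne : ∀ j, crd (P j) (c j) ≠ 0 := fun j => w.pos_iff.mp (hpos j)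
  refine ⟨c, fun j => (crd (P j) (c j))⁻¹, fun j => inv_ne_zero (hne j), fun j => ?_, fun j => ?_⟩
  · rw [sup_smul, map_inv₀, ← hc j]
    exact inv_mul_cancel₀ (hpos j).ne'
  · rw [Pi.smul_apply, smul_eq_mul]
    exact inv_mul_cancel₀ (hne j)

lemma nvL_norm {a b : L} (w : AbsoluteValue L ℝ) (P : Fin k → SPt a b) (r : Fin k → L)
    (hr : ∀ j, r j ≠ 0) (hs : ∀ j, (⨆ e, w ((r j • crd (P j)) e)) = 1)
    {τ : Fin k → ℕ} {g : MvPolynomial (Fin k × Fin 3) K} (hg : MultiHom τ g) :
    nvL w τ g (fun j => crd (P j)) = w (evc g (fun j => r j • crd (P j))) := by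
  rw [← nvL_smul w hg r hr]
  unfold nvL
  simp only [hs, one_pow, Finset.prod_const_one, div_one]

end basic

section null

variable {K : Type} [Field K] {k : ℕ}

/-- From the ideal membership to the local inequality. -/
theorem locL_null {a b : K} {s : ℕ} (f : Fin s → MvPolynomial (Fin k × Fin 3) K)
    (δ : Fin s → Fin k → ℕ) (hf : ∀ i, MultiHom (δ i) (f i))
    (S : MvPolynomial (Fin k × Fin 3) K) (σ : Fin k → ℕ) (hS : MultiHom σ S) (N : ℕ)
    (h : ∀ c : Fin k → Fin 3,
        (S * ∏ j, X (j, c j)) ^ N ∈ Ideal.span (Set.range f ∪ Set.range (wei a b))) :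
    ∃ (A : Finset K) (M : ℕ), 1 ≤ M ∧ ∀ (L : Type) [Field L] [Algebra K L]
      (w : AbsoluteValue L ℝ) (P : Fin k → SPt (algebraMap K L a) (algebraMap K L b)),
      nvL w σ S (fun j => crd (P j)) ^ N ≤
        kap A M 1 w * ⨆ i, nvL w (δ i) (f i) (fun j => crd (P j)) := by
  classical
  have h1 : ∀ c : Fin k → Fin 3, ∃ (A : Fin s → MvPolynomial (Fin k × Fin 3) K),
      ∀ (L : Type) [Field L] [Algebra K L] (P : Fin k → SPt (algebraMap K L a) (algebraMap K L b))
        (r : Fin k → L),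
        evc (S * ∏ j, X (j, c j)) (fun j => r j • crd (P j)) ^ N =
          ∑ i, evc (A i) (fun j => r j • crd (P j)) * evc (f i) (fun j => r j • crd (P j)) := by
    intro c
    have h2 := h c
    rw [Ideal.span_union, Submodule.mem_sup] at h2
    obtain ⟨y, hy, z, hz, hyz⟩ := h2
    obtain ⟨A, hA⟩ := (Ideal.mem_span_range_iff_exists_fun).mp hy
    obtain ⟨B, hB⟩ := (Ideal.mem_span_range_iff_exists_fun).mp hz
    refine ⟨A, fun L _ _ P r => ?_⟩
    have h3 : evc ((S * ∏ j, X (j, c j)) ^ N) (fun j => r j • crd (P j)) =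
        evc (∑ i, A i * f i) (fun j => r j • crd (P j)) +
        evc (∑ i, B i * wei a b i) (fun j => r j • crd (P j)) := by
      rw [← hyz, ← hA, ← hB]
      simp only [evc, map_add]
    have h4 : evc (∑ i, B i * wei a b i) (fun j => r j • crd (P j)) = 0 := by
      have : evc (∑ i, B i * wei a b i) (fun j => r j • crd (P j)) =
          ∑ i, evc (B i) (fun j => r j • crd (P j)) *
            evc (wei a b i) (fun j => r j • crd (P j)) := by
        simp only [evc, map_sum, map_mul]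
      rw [this]
      refine Finset.sum_eq_zero (fun i _ => ?_)
      rw [evcL_wei, mul_zero]
    rw [h4, add_zero] at h3
    have h5 : evc ((S * ∏ j, X (j, c j)) ^ N) (fun j => r j • crd (P j)) =
        evc (S * ∏ j, X (j, c j)) (fun j => r j • crd (P j)) ^ N := by
      simp only [evc, map_pow]
    rw [← h5, h3]
    simp only [evc, map_sum, map_mul]
  choose A hA using h1
  set M0 : ℕ := ∑ c : Fin k → Fin 3, ∑ i, (A c i).support.card with hM0
  refine ⟨Finset.univ.biUnion (fun c : Fin k → Fin 3 =>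
    Finset.univ.biUnion (fun i => cfs (A c i))), (M0 + 1) * (s + 1),
    Nat.mul_pos (Nat.succ_pos _) (Nat.succ_pos _), fun L _ _ w P => ?_⟩
  obtain ⟨c, r, hr, hsup, hc⟩ := exists_norm w P
  have h0 : 0 ≤ ⨆ i, nvL w (δ i) (f i) (fun j => crd (P j)) :=
    Real.iSup_nonneg (fun i => nvL_nonneg _ _ _ _)
  have hp1 : ∀ j e, w ((r j • crd (P j)) e) ≤ 1 := fun j e => by
    rw [← hsup j]
    exact le_sup w _ e
  have hp2 : nvL w σ S (fun j => crd (P j)) ^ N =
      w (∑ i, evc (A c i) (fun j => r j • crd (P j)) * evc (f i) (fun j => r j • crd (P j))) := by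
    rw [← hA c L P r, w.map_pow, nvL_norm w P r hr hsup hS]
    congr 2
    simp only [evc, map_mul, map_prod, aeval_X, hc, Finset.prod_const_one, mul_one]
  rw [hp2]
  refine sum_mul_le w _ (M0 + 1) _ _ (fun i => ?_) h0 (fun i => ?_)
  · refine evcL_le w _ _ (fun m hm => ?_) _ ?_ _ hp1
    · simp only [Finset.mem_biUnion, Finset.mem_univ, true_and]
      exact ⟨c, i, Finset.mem_image_of_mem _ hm⟩
    · have h8 : (A c i).support.card ≤ ∑ i, (A c i).support.card :=
        Finset.single_le_sum (f := fun i => (A c i).support.card) (fun _ _ => Nat.zero_le _)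
          (Finset.mem_univ i)
      have h9 : (∑ i, (A c i).support.card) ≤ M0 :=
        Finset.single_le_sum (f := fun c => ∑ i, (A c i).support.card) (fun _ _ => Nat.zero_le _)
          (Finset.mem_univ c)
      omega
  · rw [← nvL_norm w P r hr hsup (hf i)]
    exact le_ciSup (f := fun i => nvL w (δ i) (f i) (fun j => crd (P j)))
      (Set.finite_range _).bddAbove i

/-- upper bound for the normalised values -/
theorem nvL_le (f : MvPolynomial (Fin k × Fin 3) K) (δ : Fin k → ℕ) (hf : MultiHom δ f) :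
    ∃ (A : Finset K) (M : ℕ), 1 ≤ M ∧ ∀ (L : Type) [Field L] [Algebra K L]
      (w : AbsoluteValue L ℝ) (a b : L) (P : Fin k → SPt a b),
      nvL w δ f (fun j => crd (P j)) ≤ kap A M 1 w := by
  classical
  refine ⟨cfs f, f.support.card + 1, Nat.succ_pos _, fun L _ _ w a b P => ?_⟩
  obtain ⟨c, r, hr, hsup, hc⟩ := exists_norm w P
  rw [nvL_norm w P r hr hsup hf]
  refine evcL_le w _ _ (fun m hm => Finset.mem_image_of_mem _ hm) _ (Nat.le_succ _) _ (fun j e => ?_)
  rw [← hsup j]
  exact le_sup w _ e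

end null

end Pool.Agent.TH954.V
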