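import Pool.Agent.TH954.V.Null

/-!
# Local estimates
-/

set_option autoImplicit false

open MvPolynomial WeierstrassCurve Pool.Agent.TH942

namespace Pool.Agent.TH954.V

variable {K : Type} [Field K] {k : ℕ}

/-- normalised absolute value of a multihomogeneous form -/
noncomputable def nv (v : AbsoluteValue K ℝ) (σ : Fin k → ℕ)
    (f : MvPolynomial (Fin k × Fin 3) K) (u : Fin k → Fin 3 → K) : ℝ :=
  v (evc f u) / ∏ j, (⨆ c, v (u j c)) ^ σ j

lemma sup_pos (v : AbsoluteValue K ℝ) {n : ℕ} {u : Fin (n + 1) → K} (hu : u ≠ 0) :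
    0 < ⨆ c, v (u c) := by
  obtain ⟨c, hc⟩ := Function.ne_iff.mp hu
  exact (v.pos hc).trans_le (le_ciSup (f := fun c => v (u c)) (Set.finite_range _).bddAbove c)

lemma le_sup (v : AbsoluteValue K ℝ) {n : ℕ} (u : Fin (n + 1) → K) (c : Fin (n + 1)) :
    v (u c) ≤ ⨆ c, v (u c) :=
  le_ciSup (f := fun c => v (u c)) (Set.finite_range _).bddAbove c

lemma exists_sup (v : AbsoluteValue K ℝ) {n : ℕ} (u : Fin (n + 1) → K) :
    ∃ c, v (u c) = ⨆ c, v (u c) := by
  obtain ⟨c, hc⟩ := Finite.exists_max (fun c => v (u c))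
  exact ⟨c, le_antisymm (le_sup v u c) (ciSup_le hc)⟩

lemma sup_smul (v : AbsoluteValue K ℝ) {n : ℕ} (s : K) (u : Fin (n + 1) → K) :
    (⨆ c, v ((s • u) c)) = v s * ⨆ c, v (u c) := by
  have : (fun c => v ((s • u) c)) = fun c => v s * v (u c) := by
    funext c
    rw [Pi.smul_apply, smul_eq_mul, v.map_mul]
  rw [show (⨆ c, v ((s • u) c)) = iSup (fun c => v ((s • u) c)) from rfl, this]
  exact (Real.mul_iSup_of_nonneg (v.nonneg s) _).symm

lemma nv_nonneg (v : AbsoluteValue K ℝ) (σ : Fin k → ℕ)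
    (f : MvPolynomial (Fin k × Fin 3) K) (u : Fin k → Fin 3 → K) : 0 ≤ nv v σ f u := by
  refine div_nonneg (v.nonneg _) (Finset.prod_nonneg (fun j _ => pow_nonneg ?_ _))
  exact Real.iSup_nonneg (fun c => v.nonneg _)

lemma nv_smul (v : AbsoluteValue K ℝ) {σ : Fin k → ℕ}
    {f : MvPolynomial (Fin k × Fin 3) K} (hf : MultiHom σ f) (s : Fin k → K)
    (hs : ∀ j, s j ≠ 0) (u : Fin k → Fin 3 → K) :
    nv v σ f (fun j => s j • u j) = nv v σ f u := by
  unfold nv
  rw [evc_smul hf, v.map_mul, v.map_prod]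
  simp_rw [v.map_pow]
  have h1 : ∏ j, (⨆ c, v ((s j • u j) c)) ^ σ j =
      (∏ j, v (s j) ^ σ j) * ∏ j, (⨆ c, v (u j c)) ^ σ j := by
    rw [← Finset.prod_mul_distrib]
    refine Finset.prod_congr rfl (fun j _ => ?_)
    rw [sup_smul, mul_pow]
  rw [h1]
  refine mul_div_mul_left _ _ ?_
  exact Finset.prod_ne_zero_iff.mpr (fun j _ => pow_ne_zero _ ((v.ne_zero_iff).mpr (hs j)))

/-- the ultrametric inequality for finite sums -/
lemma ult_sum {v : AbsoluteValue K ℝ} (hv : ∀ x y, v (x + y) ≤ max (v x) (v y)) {ι : Type}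
    (s : Finset ι) (g : ι → K) {M : ℝ} (hM : 0 ≤ M) (h : ∀ i ∈ s, v (g i) ≤ M) :
    v (∑ i ∈ s, g i) ≤ M := by
  classical
  induction s using Finset.induction_on with
  | empty => simpa using hM
  | insert a s ha ih =>
    rw [Finset.sum_insert ha]
    exact (hv _ _).trans (max_le (h a (Finset.mem_insert_self _ _))
      (ih (fun i hi => h i (Finset.mem_insert_of_mem hi))))

lemma evc_mon_le (v : AbsoluteValue K ℝ) (m : Fin k × Fin 3 →₀ ℕ) (u : Fin k → Fin 3 → K)
    (hu : ∀ j c, v (u j c) ≤ 1) : v (∏ p ∈ m.support, u p.1 p.2 ^ m p) ≤ 1 := by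
  rw [v.map_prod]
  refine Finset.prod_le_one (fun _ _ => v.nonneg _) (fun p _ => ?_)
  rw [v.map_pow]
  exact pow_le_one₀ (v.nonneg _) (hu _ _)

lemma evc_expand {F : Type} [Field F] [Algebra K F] (f : MvPolynomial (Fin k × Fin 3) K)
    (u : Fin k → Fin 3 → F) :
    evc f u = ∑ m ∈ f.support, algebraMap K F (coeff m f) * ∏ p ∈ m.support, u p.1 p.2 ^ m p := by
  rw [evc, aeval_def, eval₂_eq]

lemma evc_le_arch (v : AbsoluteValue K ℝ) (f : MvPolynomial (Fin k × Fin 3) K)
    (u : Fin k → Fin 3 → K) (hu : ∀ j c, v (u j c) ≤ 1) :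
    v (evc f u) ≤ ∑ m ∈ f.support, v (coeff m f) := by
  rw [evc_expand]
  refine (v.sum_le _ _).trans (Finset.sum_le_sum (fun m _ => ?_))
  rw [v.map_mul]
  exact mul_le_of_le_one_right (v.nonneg _) (evc_mon_le v m u hu)

lemma evc_le_na {v : AbsoluteValue K ℝ} (hv : ∀ x y, v (x + y) ≤ max (v x) (v y))
    (f : MvPolynomial (Fin k × Fin 3) K)
    (hf : ∀ m ∈ f.support, v (coeff m f) ≤ 1)
    (u : Fin k → Fin 3 → K) (hu : ∀ j c, v (u j c) ≤ 1) :
    v (evc f u) ≤ 1 := by
  rw [evc_expand]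
  refine ult_sum hv _ _ zero_le_one (fun m hm => ?_)
  rw [v.map_mul]
  exact mul_le_one₀ (hf m hm) (v.nonneg _) (evc_mon_le v m u hu)

/-- the set of coefficients -/
noncomputable def cfs [DecidableEq K] (f : MvPolynomial (Fin k × Fin 3) K) : Finset K :=
  f.support.image (fun m => coeff m f)

lemma evc_wei {a b : K} (P : Fin k → SPt a b) (s : Fin k → K) (j : Fin k) :
    evc (wei a b j) (fun j => s j • crd (P j)) = 0 := by
  have h := crd_eqn (P j)
  simp only [evc, wei, map_sub, map_mul, map_pow, aeval_X, Pi.smul_apply, smul_eq_mul, aeval_C,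
    Algebra.algebraMap_self, RingHom.id_apply]
  linear_combination s j ^ 3 * h

/-- From the ideal membership to the local inequality. -/
theorem loc_null {a b : K} {s : ℕ} (f : Fin s → MvPolynomial (Fin k × Fin 3) K)
    (δ : Fin s → Fin k → ℕ) (hf : ∀ i, MultiHom (δ i) (f i))
    (S : MvPolynomial (Fin k × Fin 3) K) (σ : Fin k → ℕ) (hS : MultiHom σ S) (N : ℕ)
    (h : ∀ c : Fin k → Fin 3,
        (S * ∏ j, X (j, c j)) ^ N ∈ Ideal.span (Set.range f ∪ Set.range (wei a b))) :
    ∃ A : Finset K, ∀ v : AbsoluteValue K ℝ, ∃ C : ℝ, 1 ≤ C ∧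
      ((∀ x y, v (x + y) ≤ max (v x) (v y)) → (∀ z ∈ A, v z ≤ 1) → C = 1) ∧
      ∀ P : Fin k → SPt a b, nv v σ S (fun j => crd (P j)) ^ N ≤
        C * ⨆ i, nv v (δ i) (f i) (fun j => crd (P j)) := by
  classical
  have h1 : ∀ c : Fin k → Fin 3, ∃ (A : Fin s → MvPolynomial (Fin k × Fin 3) K),
      ∀ (P : Fin k → SPt a b) (r : Fin k → K),
        evc (S * ∏ j, X (j, c j)) (fun j => r j • crd (P j)) ^ N =
          ∑ i, evc (A i) (fun j => r j • crd (P j)) * evc (f i) (fun j => r j • crd (P j)) := by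
    intro c
    have h2 := h c
    rw [Ideal.span_union, Submodule.mem_sup] at h2
    obtain ⟨y, hy, z, hz, hyz⟩ := h2
    obtain ⟨A, hA⟩ := (Ideal.mem_span_range_iff_exists_fun).mp hy
    obtain ⟨B, hB⟩ := (Ideal.mem_span_range_iff_exists_fun).mp hz
    refine ⟨A, fun P r => ?_⟩
    have h3 : evc ((S * ∏ j, X (j, c j)) ^ N) (fun j => r j • crd (P j)) =
        evc (∑ i, A i * f i) (fun j => r j • crd (P j)) +
        evc (∑ i, B i * wei a b i) (fun j => r j • crd (P j)) := by
      rw [← hyz, ← hA, ← hB]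
      simp only [evc, map_add]
    have h4 : evc (∑ i, B i * wei a b i) (fun j => r j • crd (P j)) = 0 := by
      have : evc (∑ i, B i * wei a b i) (fun j => r j • crd (P j)) =
          ∑ i, evc (B i) (fun j => r j • crd (P j)) *
            evc (wei a b i) (fun j => r j • crd (P j)) := by
        simp only [evc, map_sum, map_mul]
      rw [this]
      refine Finset.sum_eq_zero (fun i _ => ?_)
      rw [evc_wei, mul_zero]
    rw [h4, add_zero] at h3
    have h5 : evc ((S * ∏ j, X (j, c j)) ^ N) (fun j => r j • crd (P j)) =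
        evc (S * ∏ j, X (j, c j)) (fun j => r j • crd (P j)) ^ N := by
      simp only [evc, map_pow]
    rw [← h5, h3]
    simp only [evc, map_sum, map_mul]
  choose A hA using h1
  refine ⟨Finset.univ.biUnion (fun c : Fin k → Fin 3 =>
    Finset.univ.biUnion (fun i => cfs (A c i))), fun v => ?_⟩
  by_cases hv : (∀ x y, v (x + y) ≤ max (v x) (v y)) ∧
      ∀ z ∈ Finset.univ.biUnion (fun c : Fin k → Fin 3 =>
        Finset.univ.biUnion (fun i => cfs (A c i))), v z ≤ 1
  all_goals
    have hmain : ∀ (P : Fin k → SPt a b), ∃ (c : Fin k → Fin 3) (p : Fin k → Fin 3 → K),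
        (∀ j c, v (p j c) ≤ 1) ∧
        nv v σ S (fun j => crd (P j)) ^ N = v (∑ i, evc (A c i) p * evc (f i) p) ∧
        ∀ i, v (evc (f i) p) = nv v (δ i) (f i) (fun j => crd (P j)) := by
      intro P
      choose c hc using fun j => exists_sup v (crd (P j))
      have hpos : ∀ j, 0 < v (crd (P j) (c j)) := fun j => by
        rw [hc]
        exact sup_pos v (crd_ne_zero _)
      have hne : ∀ j, crd (P j) (c j) ≠ 0 := fun j => v.pos_iff.mp (hpos j)
      set r : Fin k → K := fun j => (crd (P j) (c j))⁻¹ with hr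
      have hr0 : ∀ j, r j ≠ 0 := fun j => inv_ne_zero (hne j)
      have hsup : ∀ j, (⨆ e, v ((r j • crd (P j)) e)) = 1 := by
        intro j
        rw [sup_smul, hr, map_inv₀, ← hc j]
        exact inv_mul_cancel₀ (hpos j).ne'
      have hnv : ∀ (τ : Fin k → ℕ) (g : MvPolynomial (Fin k × Fin 3) K), MultiHom τ g →
          nv v τ g (fun j => crd (P j)) = v (evc g (fun j => r j • crd (P j))) := by
        intro τ g hg
        rw [← nv_smul v hg r hr0]
        unfold nv
        simp only [hsup, one_pow, Finset.prod_const_one, div_one]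
      refine ⟨c, fun j => r j • crd (P j), ?_, ?_, ?_⟩
      · intro j e
        rw [← hsup j]
        exact le_sup v _ e
      · rw [← hA c P r, v.map_pow, hnv σ S hS]
        congr 2
        have : ∀ j, (r j • crd (P j)) (c j) = 1 := fun j => by
          rw [Pi.smul_apply, smul_eq_mul, hr]
          exact inv_mul_cancel₀ (hne j)
        simp only [evc, map_mul, map_prod, aeval_X, this, Finset.prod_const_one, mul_one]
      · intro i
        rw [hnv _ _ (hf i)]
  · refine ⟨1, le_rfl, fun _ _ => rfl, fun P => ?_⟩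
    obtain ⟨c, p, hp1, hp2, hp3⟩ := hmain P
    have h0 : 0 ≤ ⨆ i, nv v (δ i) (f i) (fun j => crd (P j)) :=
      Real.iSup_nonneg (fun i => nv_nonneg _ _ _ _)
    rw [hp2, one_mul]
    refine ult_sum hv.1 _ _ h0 (fun i _ => ?_)
    rw [v.map_mul, hp3]
    have h6 : v (evc (A c i) p) ≤ 1 := by
      refine evc_le_na hv.1 _ (fun m hm => ?_) p hp1
      refine hv.2 _ ?_
      simp only [Finset.mem_biUnion, Finset.mem_univ, true_and]
      exact ⟨c, i, Finset.mem_image_of_mem _ hm⟩
    have h7 : nv v (δ i) (f i) (fun j => crd (P j)) ≤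
        ⨆ i, nv v (δ i) (f i) (fun j => crd (P j)) :=
      le_ciSup (f := fun i => nv v (δ i) (f i) (fun j => crd (P j)))
        (Set.finite_range _).bddAbove i
    calc _ ≤ 1 * nv v (δ i) (f i) (fun j => crd (P j)) :=
          mul_le_mul_of_nonneg_right h6 (nv_nonneg _ _ _ _)
      _ ≤ _ := by rw [one_mul]; exact h7
  · refine ⟨1 + ∑ c : Fin k → Fin 3, ∑ i, ∑ m ∈ (A c i).support, v (coeff m (A c i)), ?_, ?_, ?_⟩
    · have : 0 ≤ ∑ c : Fin k → Fin 3, ∑ i, ∑ m ∈ (A c i).support, v (coeff m (A c i)) :=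
        Finset.sum_nonneg (fun _ _ => Finset.sum_nonneg (fun _ _ => Finset.sum_nonneg
          (fun _ _ => v.nonneg _)))
      linarith
    · intro h2 h3
      exact absurd ⟨h2, h3⟩ hv
    intro P
    obtain ⟨c, p, hp1, hp2, hp3⟩ := hmain P
    have h0 : 0 ≤ ⨆ i, nv v (δ i) (f i) (fun j => crd (P j)) :=
      Real.iSup_nonneg (fun i => nv_nonneg _ _ _ _)
    rw [hp2]
    calc v (∑ i, evc (A c i) p * evc (f i) p) ≤ ∑ i, v (evc (A c i) p * evc (f i) p) :=
          v.sum_le _ _
      _ ≤ ∑ i, (∑ m ∈ (A c i).support, v (coeff m (A c i))) *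
            ⨆ i, nv v (δ i) (f i) (fun j => crd (P j)) := by
          refine Finset.sum_le_sum (fun i _ => ?_)
          rw [v.map_mul, hp3]
          refine mul_le_mul (evc_le_arch v _ p hp1) ?_ (nv_nonneg _ _ _ _) ?_
          · exact le_ciSup (f := fun i => nv v (δ i) (f i) (fun j => crd (P j)))
              (Set.finite_range _).bddAbove i
          · exact Finset.sum_nonneg (fun _ _ => v.nonneg _)
      _ = (∑ i, ∑ m ∈ (A c i).support, v (coeff m (A c i))) *
            ⨆ i, nv v (δ i) (f i) (fun j => crd (P j)) := by rw [Finset.sum_mul]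
      _ ≤ _ := by
          refine mul_le_mul_of_nonneg_right ?_ h0
          have h8 : (∑ i, ∑ m ∈ (A c i).support, v (coeff m (A c i))) ≤
              ∑ c : Fin k → Fin 3, ∑ i, ∑ m ∈ (A c i).support, v (coeff m (A c i)) :=
            Finset.single_le_sum (f := fun c : Fin k → Fin 3 =>
              ∑ i, ∑ m ∈ (A c i).support, v (coeff m (A c i)))
              (fun _ _ => Finset.sum_nonneg (fun _ _ => Finset.sum_nonneg
                (fun _ _ => v.nonneg _))) (Finset.mem_univ c)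
          linarith

end Pool.Agent.TH954.V
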