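import Pool.Agent.TH954.V.MainL
import Pool.Agent.TH954.V.LatC
import Pool.Agent.TH954.V.CountC

/-!
# Heights attached to closed subschemes of `E ^ k` whose codimension exceeds the rank
-/

set_option autoImplicit false
set_option linter.unusedSectionVars false

open MvPolynomial WeierstrassCurve NumberField Height Pool.Agent.TH942

namespace Pool.Agent.TH954.V

/-- the pairs of a family of vectors and a family of degrees which are used -/
def BdC (k : ℕ) (H : ℤ) (T : ℕ) (good : (Fin k → Fin k → ℤ) → (Fin k → ℕ) → Prop) :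
    Set ((Fin k → Fin k → ℤ) × (Fin k → ℕ)) :=
  {p | LinearIndependent ℤ p.1 ∧ (∀ i j, |p.1 i j| ≤ H) ∧ (∀ i, p.2 i ≤ T) ∧ good p.1 p.2}

lemma BdC_finite (k : ℕ) (H : ℤ) (T : ℕ)
    (good : (Fin k → Fin k → ℤ) → (Fin k → ℕ) → Prop) : (BdC k H T good).Finite := by
  have h1 := (Bd_finite k k H).prod (Set.Finite.pi' (fun _ : Fin k => Set.finite_Iic T))
  refine h1.subset (fun p hp => ?_)
  exact ⟨⟨hp.1, hp.2.1⟩, fun i => hp.2.2.1 i⟩

theorem main_cod_g (K : Type) [Field K] [NumberField K] (a b : K)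
    (hD : 4 * a ^ 3 + 27 * b ^ 2 ≠ 0)
    (L0 : Type) [Field L0] [NumberField L0] [DecidableEq L0] [Algebra K L0]
    (g : SPt (algebraMap K L0 a) (algebraMap K L0 b)) (hg : ∀ w : ℤ, w ≠ 0 → w • g ≠ 0)
    (r k y : ℕ)
    (hk : y + r < k) {s : ℕ}
    (f : Fin s → MvPolynomial (Fin k × Fin 3) K) (δ : Fin s → Fin k → ℕ)
    (hf : ∀ i, MultiHom (δ i) (f i))
    (hdim : ∀ (F : Type) [Field F] [Algebra K F]
      (η : Fin k → SPt (algebraMap K F a) (algebraMap K F b)),
      (∀ i, evc (f i) (fun j => crd (η j)) = 0) →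
      Algebra.trdeg K (IntermediateField.adjoin K
        (Set.range (fun p : Fin k × Fin 3 => crd (η p.1) p.2))) ≤ (y : Cardinal))
    (ε : ℝ) (hε : 0 < ε) :
    ∃ (Φ : MvPolynomial (Fin k × Fin 3) K) (τ : Fin k → ℕ), MultiHom τ Φ ∧
      (∃ n : Fin k → ℤ, evc Φ (fun j => crd (n j • g)) ≠ 0) ∧
      ∃ C : ℝ, ∀ (L : Type) [Field L] [NumberField L] [DecidableEq L] [Algebra K L]
        (P : Fin k → SPt (algebraMap K L a) (algebraMap K L b)),
        Module.finrank ℤ (AddSubgroup.closure (Set.range P)) ≤ r →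
        evc Φ (fun j => crd (P j)) ≠ 0 →
        (∃ i, evc (f i) (fun j => crd (P j)) ≠ 0) ∧
        FS (fun w : AbsoluteValue L ℝ =>
          -Real.log (⨆ i, nvL w (δ i) (f i) (fun j => crd (P j)))) ∧
        hYL f δ P ≤ ε * ∑ j, logHeight (crd (P j)) + C * Module.finrank ℚ L := by
  classical
  obtain ⟨Ch, hCh, hcan⟩ := can_unif hD
  -- the Nullstellensatz
  obtain ⟨N, hN, t, F, iF, iA, η, hη1, hη2⟩ := null K a b hD k s f (fun i => ⟨δ i, hf i⟩)
  obtain ⟨c, hc, hcount⟩ := countC Hil.hilb F η (fun i => hdim (F i) (η i) (hη1 i))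
  obtain ⟨cf, hcf⟩ := fam' K a b hD k
  choose Dn hDn1 hDn2 hDn3 using hcf
  -- the choice of the constants
  set c0 : ℝ := c * (2 * cf + 1) ^ y with hc0
  have hc01 : 1 ≤ c0 := by
    have h1 : (1 : ℝ) ≤ c := by exact_mod_cast hc
    have h2 : (1 : ℝ) ≤ (2 * cf + 1) ^ y := one_le_pow₀ (by
      have : (0 : ℝ) ≤ cf := Nat.cast_nonneg _
      linarith)
    exact one_le_mul_of_one_le_of_one_le h1 h2
  set ε' : ℝ := ε / (N * (3 / 2)) with hε'
  have hN0 : (0 : ℝ) < N := by exact_mod_cast hN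
  have hε'0 : 0 < ε' := by positivity
  obtain ⟨H, T, hH⟩ := Lat.latC r k y hk c0 hc01 ε' hε'0
  set good : (Fin k → Fin k → ℤ) → (Fin k → ℕ) → Prop := fun u d =>
    c * (1 + ∑ l, d l * Dn (u l)) ^ y < ∏ l, (d l + 1) with hgood
  have := (BdC_finite k H T good).to_subtype
  have := Fintype.ofFinite ↥(BdC k H T good)
  -- the auxiliary forms
  choose G hG0 hGs hGη using fun p : ↥(BdC k H T good) =>
    hcount k p.1.1 (fun i => Dn (p.1.1 i)) (fun i => hDn3 _) p.1.2 p.2.2.2.2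
  -- the global inequality
  choose Cu hCu0 hCu using fun p : ↥(BdC k H T good) => globL (a := a) (b := b) f δ hf p.1.1
    (G p) p.1.2 (locL_G hD f δ hf F η hη2 p.1.1 (fun i => Dn (p.1.1 i)) (fun i => hDn3 _) (G p)
      p.1.2 (hGs p) (hGη p))
  -- a point outside the exceptional set
  set φ : MvPolynomial (Fin k) K →+* MvPolynomial (Fin k) L0 :=
    MvPolynomial.map (algebraMap K L0) with hφ
  have hφinj : Function.Injective φ :=
    MvPolynomial.map_injective _ (algebraMap K L0).injective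
  obtain ⟨n0, hn0⟩ := Pool.Agent.TH929.V954.Avoid.result L0 ↥(BdC k H T good) k k
    (fun w => crd (w • g) 0) (by
      intro u w hu hw h
      rcases crd_zero_iff (hg u hu) (hg w hw) h with h1 | h1
      · left
        by_contra hne
        apply hg (u - w) (sub_ne_zero.mpr hne)
        rw [sub_smul, h1, sub_self]
      · right
        by_contra hne
        apply hg (u + w) (fun h => hne (eq_neg_of_add_eq_zero_left h))
        rw [add_smul, h1, neg_add_cancel])
    (fun u => u.1.1) (fun u => u.2.1) (fun u => φ (G u)) (fun u h0 => hG0 u (hφinj (by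
      rw [h0, map_zero])))
  set P0 : Fin k → SPt (algebraMap K L0 a) (algebraMap K L0 b) := fun j => n0 j • g with hP0
  have hsum0 : ∀ (u : ↥(BdC k H T good)) (i : Fin k), ∑ j, u.1.1 i j • P0 j =
      (∑ j, u.1.1 i j * n0 j) • g := by
    intro u i
    rw [Finset.sum_smul]
    exact Finset.sum_congr rfl (fun j _ => by rw [hP0, smul_smul])
  have hP0G : ∀ u : ↥(BdC k H T good), hev (G u) u.1.2 (fun i => crd (∑ j, u.1.1 i j • P0 j)) ≠ 0 := by
    intro u
    have h1 := (hn0 u).2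
    rw [hev_pointsL _ _ _ (fun i => by rw [hsum0]; exact hg _ ((hn0 u).1 i))]
    simp only [hsum0]
    exact h1
  -- forms on `E ^ k`
  have hform : ∀ u : ↥(BdC k H T good), ∃ (Ψ : MvPolynomial (Fin k × Fin 3) K) (τ : Fin k → ℕ),
      MultiHom τ Ψ ∧ evc Ψ (fun j => crd (P0 j)) ≠ 0 ∧
      ∀ (L : Type) [Field L] [DecidableEq L] [Algebra K L]
        (P : Fin k → SPt (algebraMap K L a) (algebraMap K L b)),
        evc Ψ (fun j => crd (P j)) ≠ 0 →
        hev (G u) u.1.2 (fun i => crd (∑ j, u.1.1 i j • P j)) ≠ 0 := by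
    intro u
    choose Fam hhom hrep using fun i => hDn3 (u.1.1 i)
    choose T hT e hTe using fun i => (hrep i L0 _ _ rfl rfl P0).2
    refine ⟨hev (G u) u.1.2 T, _, MultiHom_hev (G u) u.1.2 (hGs u) (fun i => Dn (u.1.1 i)) T
      (fun i e => hhom i _ (hT i) e), ?_, ?_⟩
    · choose rr hrr using fun i => (hrep i L0 _ _ rfl rfl P0).1 _ (hT i)
      have h3 : evc (hev (G u) u.1.2 T) (fun j => crd (P0 j)) =
          (∏ i, rr i ^ u.1.2 i) * hev (G u) u.1.2 (fun i => crd (∑ j, u.1.1 i j • P0 j)) := by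
        unfold evc
        rw [map_hev]
        have h3 : (fun (l : Fin k) (c : Fin 3) =>
            aeval (fun p : Fin k × Fin 3 => crd (P0 p.1) p.2) (T l c)) =
            fun l => rr l • crd (∑ j, u.1.1 l j • P0 j) := by
          funext l
          exact hrr l
        rw [h3, hev_smul (G u) u.1.2 (hGs u)]
      rw [h3]
      refine mul_ne_zero (Finset.prod_ne_zero_iff.mpr (fun i _ => pow_ne_zero _ ?_)) (hP0G u)
      intro h0
      apply hTe i
      have := congrFun (hrr i) (e i)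
      rw [h0, zero_smul] at this
      exact this
    · intro L _ _ _ P hP hcon
      choose rr hrr using fun i => (hrep i L _ _ rfl rfl P).1 _ (hT i)
      apply hP
      unfold evc
      rw [map_hev]
      have h3 : (fun (l : Fin k) (c : Fin 3) =>
          aeval (fun p : Fin k × Fin 3 => crd (P p.1) p.2) (T l c)) =
          fun l => rr l • crd (∑ j, u.1.1 l j • P j) := by
        funext l
        exact hrr l
      rw [h3, hev_smul (G u) u.1.2 (hGs u), hcon, mul_zero]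
  choose Ψ τ hΨ1 hΨ2 hΨ3 using hform
  have hevprod : ∀ (L : Type) [Field L] [Algebra K L]
      (P : Fin k → SPt (algebraMap K L a) (algebraMap K L b)),
      evc (∏ u, Ψ u) (fun j => crd (P j)) = ∏ u, evc (Ψ u) (fun j => crd (P j)) := by
    intro L _ _ P
    simp only [evc, map_prod]
  refine ⟨∏ u, Ψ u, _, MultiHom_prod Finset.univ τ Ψ (fun u _ => hΨ1 u), ⟨n0, ?_⟩, ?_⟩
  · rw [hevprod L0 P0]
    exact Finset.prod_ne_zero_iff.mpr (fun u _ => hΨ2 u)
  -- the constant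
  refine ⟨ε * (1 + k * Ch) + ∑ p, (Cu p + N * ∑ l, (p.1.2 l : ℝ) * Ch),
    fun L _ _ _ _ P hrk hP => ?_⟩
  rw [hevprod, Finset.prod_ne_zero_iff] at hP
  obtain ⟨q, hq2, hq3, hlow, hupp⟩ := hcan L
  have hD' : 4 * (algebraMap K L a) ^ 3 + 27 * (algebraMap K L b) ^ 2 ≠ 0 := by
    intro h0
    apply hD
    apply (algebraMap K L).injective
    rw [map_zero, ← h0]
    simp only [map_add, map_mul, map_pow, map_ofNat]
  obtain ⟨Nm, hNm⟩ := gram_decomp P (fg_of_inj (AddSubgroup.subtype _)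
    (AddSubgroup.subtype_injective _) (sfg hD')) hrk q hq2 hq3
  set DL : ℝ := (Module.finrank ℚ L : ℝ) with hDL
  have hDL0 : 0 < DL := by
    have : 0 < Module.finrank ℚ L := Module.finrank_pos
    rw [hDL]
    exact_mod_cast this
  set M2 : ℝ := 1 + (∑ j, q (P j)) / DL with hM2
  have hM21 : 1 ≤ M2 := by
    have : 0 ≤ (∑ j, q (P j)) / DL :=
      div_nonneg (Finset.sum_nonneg (fun _ _ => hq2 _)) hDL0.le
    linarith
  have hsq : (√DL) ^ 2 = DL := Real.sq_sqrt hDL0.le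
  have hsq0 : 0 < √DL := Real.sqrt_pos.mpr hDL0
  have hcol : ∀ j, q (P j) = ∑ l, Nm l j ^ 2 := by
    intro j
    have h1 := hNm (Pi.single j 1)
    have h2 : ∑ i, (Pi.single j 1 : Fin k → ℤ) i • P i = P j := by
      rw [Finset.sum_eq_single j]
      · simp
      · intro i _ hi
        simp [hi]
      · simp
    rw [h2] at h1
    rw [h1]
    refine Finset.sum_congr rfl (fun l _ => ?_)
    congr 1
    rw [Finset.sum_eq_single j]
    · simp
    · intro i _ hi
      simp [hi]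
    · simp
  obtain ⟨u, hu1, hu2, d, hd1, hd2, hd3⟩ := hH (fun l j => Nm l j / √DL) (√M2)
    (by rw [Real.one_le_sqrt]; exact hM21) (by
      intro l j
      rw [← Real.sqrt_sq_eq_abs]
      apply Real.sqrt_le_sqrt
      rw [div_pow, hsq]
      have h1 : Nm l j ^ 2 ≤ ∑ l, Nm l j ^ 2 :=
        Finset.single_le_sum (f := fun l => Nm l j ^ 2) (fun _ _ => sq_nonneg _)
          (Finset.mem_univ l)
      rw [← hcol j] at h1
      have h2 : q (P j) ≤ ∑ j, q (P j) :=
        Finset.single_le_sum (f := fun j => q (P j)) (fun _ _ => hq2 _) (Finset.mem_univ j)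
      have h3 : Nm l j ^ 2 / DL ≤ (∑ j, q (P j)) / DL :=
        div_le_div_of_nonneg_right (h1.trans h2) hDL0.le
      linarith)
  rw [Real.sq_sqrt (by linarith)] at hd3
  -- norms of the vectors
  have hnorm1 : ∀ j, 1 ≤ ∑ t, (u j t : ℝ) ^ 2 := by
    intro j
    obtain ⟨t0, ht0⟩ := Function.ne_iff.mp (hu1.ne_zero j)
    have h1 : (u j t0 : ℝ) ^ 2 ≤ ∑ t, (u j t : ℝ) ^ 2 :=
      Finset.single_le_sum (f := fun t => (u j t : ℝ) ^ 2) (fun _ _ => sq_nonneg _)
        (Finset.mem_univ t0)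
    have h2 : (1 : ℤ) ≤ (u j t0) ^ 2 := by
      have h3 : u j t0 ≠ 0 := ht0
      have : 0 < (u j t0) ^ 2 := by positivity
      omega
    have h4 : (1 : ℝ) ≤ (u j t0 : ℝ) ^ 2 := by exact_mod_cast h2
    linarith
  have hDn : ∀ j, (Dn (u j) : ℝ) ≤ 2 * cf * ∑ t, (u j t : ℝ) ^ 2 := by
    intro j
    have h1 : (Dn (u j) : ℝ) ≤ cf * (1 + ∑ t, (u j t : ℝ) ^ 2) := by exact_mod_cast hDn2 (u j)
    have h2 := hnorm1 j
    have h3 : (0 : ℝ) ≤ cf := Nat.cast_nonneg _
    nlinarith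
  have hgd : good u d := by
    have h1 : (c : ℝ) * (1 + ∑ l, (d l : ℝ) * Dn (u l)) ^ y < ∏ l, ((d l : ℝ) + 1) := by
      refine lt_of_le_of_lt ?_ hd2
      rw [hc0, mul_assoc, ← mul_pow]
      refine mul_le_mul_of_nonneg_left ?_ (Nat.cast_nonneg _)
      refine pow_le_pow_left₀ ?_ ?_ y
      · exact add_nonneg zero_le_one (Finset.sum_nonneg (fun l _ => by positivity))
      · have h2 : ∑ l, (d l : ℝ) * Dn (u l) ≤ 2 * cf * ∑ l, (d l : ℝ) * ∑ t, (u l t : ℝ) ^ 2 := by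
          rw [Finset.mul_sum]
          refine Finset.sum_le_sum (fun l _ => ?_)
          have := mul_le_mul_of_nonneg_left (hDn l) (Nat.cast_nonneg (α := ℝ) (d l))
          linarith
        have h3 : 0 ≤ ∑ l, (d l : ℝ) * ∑ t, (u l t : ℝ) ^ 2 :=
          Finset.sum_nonneg (fun l _ => mul_nonneg (Nat.cast_nonneg _)
            (Finset.sum_nonneg (fun t _ => sq_nonneg _)))
        have h4 : (0 : ℝ) ≤ cf := Nat.cast_nonneg _
        nlinarith
    have h2 : ((c * (1 + ∑ l, d l * Dn (u l)) ^ y : ℕ) : ℝ) < ((∏ l, (d l + 1) : ℕ) : ℝ) := by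
      push_cast
      exact h1
    exact_mod_cast h2
  set U : ↥(BdC k H T good) := ⟨(u, d), hu1, hu2, hd1, hgd⟩ with hU
  obtain ⟨hne, hFS, hbound⟩ := hCu U L P (hΨ3 U L P (hP U (Finset.mem_univ _)))
  refine ⟨hne, hFS, hbound.trans ?_⟩
  have hS : ∀ l, q (∑ j, u l j • P j) =
      DL * ∑ i, (∑ j, (u l j : ℝ) * (Nm i j / √DL)) ^ 2 := by
    intro l
    rw [hNm, Finset.mul_sum]
    refine Finset.sum_congr rfl (fun i _ => ?_)
    have h1 : ∑ j, (u l j : ℝ) * (Nm i j / √DL) = (∑ j, (u l j : ℝ) * Nm i j) / √DL := by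
      rw [Finset.sum_div]
      exact Finset.sum_congr rfl (fun j _ => by ring)
    rw [h1, div_pow, hsq, mul_div_cancel₀ _ hDL0.ne']
  have hterm : ∀ l, (d l : ℝ) * logHeight (crd (∑ j, u l j • P j)) ≤
      3 / 2 * DL * ((d l : ℝ) * ∑ i, (∑ j, (u l j : ℝ) * (Nm i j / √DL)) ^ 2) +
        d l * Ch * DL := by
    intro l
    have h1 := hupp (∑ j, u l j • P j)
    rw [hS l] at h1
    have h2 := mul_le_mul_of_nonneg_left h1 (Nat.cast_nonneg (α := ℝ) (d l))
    linarith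
  have hsumle : ∑ l, (d l : ℝ) * logHeight (crd (∑ j, u l j • P j)) ≤
      3 / 2 * DL * (ε' * M2) + (∑ l, (d l : ℝ) * Ch) * DL := by
    refine (Finset.sum_le_sum (fun l _ => hterm l)).trans ?_
    rw [Finset.sum_add_distrib, ← Finset.mul_sum, ← Finset.sum_mul]
    have := mul_le_mul_of_nonneg_left hd3 (by positivity : (0 : ℝ) ≤ 3 / 2 * DL)
    linarith
  have hmainle : (N : ℝ) * ∑ l, (d l : ℝ) * logHeight (crd (∑ j, u l j • P j)) ≤
      (ε * M2 + N * ∑ l, (d l : ℝ) * Ch) * DL := by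
    have h1 := mul_le_mul_of_nonneg_left hsumle hN0.le
    refine h1.trans (le_of_eq ?_)
    have h2 : (N : ℝ) * (3 / 2 * ε') = ε := by
      rw [hε']
      field_simp
    calc (N : ℝ) * (3 / 2 * DL * (ε' * M2) + (∑ l, (d l : ℝ) * Ch) * DL) =
        (N * (3 / 2 * ε')) * M2 * DL + (N * ∑ l, (d l : ℝ) * Ch) * DL := by ring
      _ = _ := by rw [h2]; ring
  have hM2D : M2 * DL ≤ (1 + k * Ch) * DL + ∑ j, logHeight (crd (P j)) := by
    have h1 : ∑ j, q (P j) ≤ ∑ j, (logHeight (crd (P j)) + Ch * DL) :=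
      Finset.sum_le_sum (fun j _ => hlow (P j))
    rw [Finset.sum_add_distrib, Finset.sum_const, Finset.card_univ, Fintype.card_fin,
      nsmul_eq_mul] at h1
    have h2 : M2 * DL = DL + ∑ j, q (P j) := by
      rw [hM2]
      field_simp
    rw [h2]
    linarith
  have hconst : Cu U + N * ∑ l, (d l : ℝ) * Ch ≤
      ∑ p, (Cu p + N * ∑ l, (p.1.2 l : ℝ) * Ch) := by
    refine Finset.single_le_sum (f := fun p => Cu p + N * ∑ l, (p.1.2 l : ℝ) * Ch)
      (fun p _ => ?_) (Finset.mem_univ U)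
    have h1 : 0 ≤ ∑ l, (p.1.2 l : ℝ) * Ch :=
      Finset.sum_nonneg (fun _ _ => mul_nonneg (Nat.cast_nonneg _) hCh)
    have h2 := hCu0 p
    positivity
  have h6 := mul_le_mul_of_nonneg_left hM2D hε.le
  have h7 := mul_le_mul_of_nonneg_right hconst hDL0.le
  calc (N : ℝ) * ∑ l, (d l : ℝ) * logHeight (crd (∑ j, u l j • P j)) + Cu U * DL ≤
      (ε * M2 + N * ∑ l, (d l : ℝ) * Ch) * DL + Cu U * DL := by linarith
    _ = ε * (M2 * DL) + (Cu U + N * ∑ l, (d l : ℝ) * Ch) * DL := by ring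
    _ ≤ ε * ((1 + k * Ch) * DL + ∑ j, logHeight (crd (P j))) +
        (∑ p, (Cu p + N * ∑ l, (p.1.2 l : ℝ) * Ch)) * DL := by linarith
    _ = _ := by ring

/-- all algebraic points -/
theorem main_cod (K : Type) [Field K] [NumberField K] (a b : K)
    (hD : 4 * a ^ 3 + 27 * b ^ 2 ≠ 0) (r k y : ℕ)
    (hk : y + r < k) {s : ℕ}
    (f : Fin s → MvPolynomial (Fin k × Fin 3) K) (δ : Fin s → Fin k → ℕ)
    (hf : ∀ i, MultiHom (δ i) (f i))
    (hdim : ∀ (F : Type) [Field F] [Algebra K F]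
      (η : Fin k → SPt (algebraMap K F a) (algebraMap K F b)),
      (∀ i, evc (f i) (fun j => crd (η j)) = 0) →
      Algebra.trdeg K (IntermediateField.adjoin K
        (Set.range (fun p : Fin k × Fin 3 => crd (η p.1) p.2))) ≤ (y : Cardinal))
    (ε : ℝ) (hε : 0 < ε) :
    ∃ (Φ : MvPolynomial (Fin k × Fin 3) K) (τ : Fin k → ℕ), MultiHom τ Φ ∧
      (∃ (F : Type) (_ : Field F) (_ : NumberField F) (_ : Algebra K F)
        (P : Fin k → SPt (algebraMap K F a) (algebraMap K F b)),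
        evc Φ (fun j => crd (P j)) ≠ 0) ∧
      ∃ C : ℝ, ∀ (L : Type) [Field L] [NumberField L] [DecidableEq L] [Algebra K L]
        (P : Fin k → SPt (algebraMap K L a) (algebraMap K L b)),
        Module.finrank ℤ (AddSubgroup.closure (Set.range P)) ≤ r →
        evc Φ (fun j => crd (P j)) ≠ 0 →
        (∃ i, evc (f i) (fun j => crd (P j)) ≠ 0) ∧
        FS (fun w : AbsoluteValue L ℝ =>
          -Real.log (⨆ i, nvL w (δ i) (f i) (fun j => crd (P j)))) ∧
        hYL f δ P ≤ ε * ∑ j, logHeight (crd (P j)) + C * Module.finrank ℚ L := by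
  obtain ⟨L0, iL0, iN0, iD0, iA0, g, hg⟩ := exists_inf hD
  obtain ⟨Φ, τ, h1, ⟨n, h2⟩, h3⟩ := main_cod_g K a b hD L0 g hg r k y hk f δ hf hdim ε hε
  exact ⟨Φ, τ, h1, ⟨L0, iL0, iN0, iA0, _, h2⟩, h3⟩

/-- the points of `Γ ^ k` -/
theorem main_cod_fixed (K : Type) [Field K] [NumberField K] [DecidableEq K] (a b : K)
    (hD : 4 * a ^ 3 + 27 * b ^ 2 ≠ 0) (Γ : AddSubgroup (SPt a b)) (hinf : Infinite Γ) (k y : ℕ)
    (hk : y + Module.finrank ℤ Γ < k) {s : ℕ}
    (f : Fin s → MvPolynomial (Fin k × Fin 3) K) (δ : Fin s → Fin k → ℕ)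
    (hf : ∀ i, MultiHom (δ i) (f i))
    (hdim : ∀ (F : Type) [Field F] [Algebra K F]
      (η : Fin k → SPt (algebraMap K F a) (algebraMap K F b)),
      (∀ i, evc (f i) (fun j => crd (η j)) = 0) →
      Algebra.trdeg K (IntermediateField.adjoin K
        (Set.range (fun p : Fin k × Fin 3 => crd (η p.1) p.2))) ≤ (y : Cardinal))
    (ε : ℝ) (hε : 0 < ε) :
    ∃ (Φ : MvPolynomial (Fin k × Fin 3) K) (τ : Fin k → ℕ), MultiHom τ Φ ∧
      (∃ P : Fin k → SPt a b, (∀ j, P j ∈ Γ) ∧ evc Φ (fun j => crd (P j)) ≠ 0) ∧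
      ∃ C : ℝ, ∀ P : Fin k → SPt a b, (∀ j, P j ∈ Γ) → evc Φ (fun j => crd (P j)) ≠ 0 →
        (∃ i, evc (f i) (fun j => crd (P j)) ≠ 0) ∧
        FS (fun v => -Real.log (⨆ i, nv v (δ i) (f i) (fun j => crd (P j)))) ∧
        hY f δ P ≤ ε * ∑ j, logHeight (crd (P j)) + C := by
  classical
  obtain ⟨r, hr, cd, c1, c2, Ch, hc1, hc2, hCh, hlow, hupp⟩ := quad_setup hD Γ
  obtain ⟨g', hg0⟩ : ∃ g : Γ, cd g ≠ 0 := by
    by_contra hcon
    push Not at hcon
    have hfin : {P : SPt a b | sht P ≤ Ch}.Finite := sfinite_ht _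
    refine Set.infinite_univ ((hfin.preimage (f := fun P : Γ => P.1)
      Subtype.val_injective.injOn).subset (fun P _ => ?_))
    have h1 := hupp P
    rw [hcon P] at h1
    simp only [Pi.zero_apply, Int.cast_zero, ne_eq, OfNat.ofNat_ne_zero, not_false_eq_true,
      zero_pow, Finset.sum_const_zero, mul_zero, zero_add] at h1
    exact (sht_le P.1).trans h1
  obtain ⟨i0, hi0⟩ := Function.ne_iff.mp hg0
  have hg : ∀ w : ℤ, w ≠ 0 → w • g'.1 ≠ 0 := by
    intro w hw h0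
    have h1 : cd (w • g') = 0 := by
      have : w • g' = 0 := Subtype.ext h0
      rw [this, map_zero]
    rw [map_zsmul] at h1
    have h2 := congrFun h1 i0
    rw [Pi.smul_apply, smul_eq_mul, Pi.zero_apply, mul_eq_zero] at h2
    rcases h2 with h2 | h2
    · exact hw h2
    · exact hi0 h2
  obtain ⟨Φ, τ, h1, ⟨n, h2⟩, C, h3⟩ := main_cod_g K a b hD K g'.1 hg _ k y hk f δ hf hdim ε hε
  refine ⟨Φ, τ, h1, ⟨fun j => n j • g'.1, fun j => Γ.zsmul_mem g'.2 _, h2⟩,
    C * Module.finrank ℚ K, fun P hP hΦ => ?_⟩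
  refine h3 K P ?_ hΦ
  have hle : AddSubgroup.closure (Set.range P) ≤ Γ := by
    rw [AddSubgroup.closure_le]
    rintro _ ⟨j, rfl⟩
    exact hP j
  have := (AddSubgroup.inclusion hle).toIntLinearMap
  have hfg : Module.Finite ℤ Γ := by
    rw [Module.Finite.iff_addGroup_fg]
    exact fg_of_inj Γ.subtype Γ.subtype_injective (sfg hD)
  exact LinearMap.finrank_le_finrank_of_injective
    (f := (AddSubgroup.inclusion hle).toIntLinearMap) (AddSubgroup.inclusion_injective hle)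

end Pool.Agent.TH954.V
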