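import Pool.Agent.TH954.V.InfL

/-!
# Heights attached to closed subschemes of powers of an elliptic curve: all algebraic points
generating groups of small rank
-/

set_option autoImplicit false
set_option linter.unusedSectionVars false

open MvPolynomial WeierstrassCurve NumberField Height Pool.Agent.TH942

namespace Pool.Agent.TH954.V

/-- at nonzero points the value of the form is the value of the polynomial at the abscissas -/
lemma hev_pointsL {K L : Type} [Field K] [Field L] [Algebra K L] {a b : L} {m : ℕ}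
    (G : MvPolynomial (Fin m) K) (d : Fin m → ℕ) (P : Fin m → SPt a b)
    (hP : ∀ i, P i ≠ 0) : hev G d (fun i => crd (P i)) =
      eval (fun i => crd (P i) 0) (MvPolynomial.map (algebraMap K L) G) := by
  unfold hev
  rw [eval_map, eval₂_eq']
  refine Finset.sum_congr rfl (fun e _ => ?_)
  congr 1
  refine Finset.prod_congr rfl (fun i _ => ?_)
  change crd (P i) 0 ^ e i * crd (P i) 2 ^ (d i - e i) = crd (P i) 0 ^ e i
  have h1 : crd (P i) 2 = 1 := by
    have h2 := hP i
    match hPi : P i with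
    | .zero => exact absurd hPi h2
    | .some x y h => rfl
  rw [h1, one_pow, mul_one]

theorem main_alg (K : Type) [Field K] [NumberField K] (a b : K)
    (hD : 4 * a ^ 3 + 27 * b ^ 2 ≠ 0) (r : ℕ) (hr1 : 1 ≤ r) (k y : ℕ)
    (hk : r * (y + 1) < k) {s : ℕ}
    (f : Fin s → MvPolynomial (Fin k × Fin 3) K) (δ : Fin s → Fin k → ℕ)
    (hf : ∀ i, MultiHom (δ i) (f i))
    (hdim : ∀ (F : Type) [Field F] [Algebra K F]
      (η : Fin k → SPt (algebraMap K F a) (algebraMap K F b)),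
      (∀ i, evc (f i) (fun j => crd (η j)) = 0) →
      Algebra.trdeg K (IntermediateField.adjoin K
        (Set.range (fun p : Fin k × Fin 3 => crd (η p.1) p.2))) ≤ (y : Cardinal))
    (ε : ℝ) (hε : 0 < ε) :
    ∃ (Φ : MvPolynomial (Fin k × Fin 3) K) (τ : Fin k → ℕ), MultiHom τ Φ ∧
      (∃ (F : Type) (_ : Field F) (_ : NumberField F) (_ : Algebra K F)
        (P : Fin k → SPt (algebraMap K F a) (algebraMap K F b)),
        evc Φ (fun j => crd (P j)) ≠ 0) ∧
      ∃ C : ℝ, ∀ (L : Type) [Field L] [NumberField L] [DecidableEq L] [Algebra K L]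
        (P : Fin k → SPt (algebraMap K L a) (algebraMap K L b)),
        Module.finrank ℤ (AddSubgroup.closure (Set.range P)) ≤ r →
        evc Φ (fun j => crd (P j)) ≠ 0 →
        (∃ i, evc (f i) (fun j => crd (P j)) ≠ 0) ∧
        FS (fun w : AbsoluteValue L ℝ =>
          -Real.log (⨆ i, nvL w (δ i) (f i) (fun j => crd (P j)))) ∧
        hYL f δ P ≤ ε * ∑ j, logHeight (crd (P j)) + C * Module.finrank ℚ L := by
  classical
  obtain ⟨L0, iL0, iN0, iD0, iA0, g, hg⟩ := exists_inf hD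
  obtain ⟨Ch, hCh, hcan⟩ := can_unif hD
  set m : ℕ := y + 1 with hm
  have hm1 : 1 ≤ m := by omega
  -- the Nullstellensatz
  obtain ⟨N, hN, t, F, iF, iA, η, hη1, hη2⟩ := null K a b hD k s f (fun i => ⟨δ i, hf i⟩)
  have htr : ∀ i, Algebra.trdeg K (IntermediateField.adjoin K
      (Set.range (fun p : Fin k × Fin 3 => crd (η i p.1) p.2))) ≤ ((m - 1 : ℕ) : Cardinal) := by
    intro i
    have := hdim (F i) (η i) (hη1 i)
    rw [hm, Nat.add_sub_cancel]
    exact this
  obtain ⟨c, hc, hcount⟩ := count Hil.hilb hm1 F η htr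
  obtain ⟨cf, hcf⟩ := fam' K a b hD k
  choose Dn hDn1 hDn2 hDn3 using hcf
  obtain ⟨cL, hcL, hlat⟩ := Lat.latticeR r k m hr1 hm1 hk
  -- the choice of `β`
  set Q0 : ℝ := N * (m * (c * (2 * cf) ^ (m - 1) * (3 / 2) * cL)) with hQ0
  have hQ00 : 0 ≤ Q0 := by positivity
  set β : ℝ := 1 + Q0 / ε with hβ
  have hβ1 : 1 ≤ β := by
    have : 0 ≤ Q0 / ε := by positivity
    linarith
  have hβε : Q0 / β ^ 2 ≤ ε := by
    rw [div_le_iff₀ (by positivity)]
    have h1 : Q0 ≤ ε * β := by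
      rw [hβ, mul_add, mul_div_cancel₀ _ hε.ne']
      linarith
    nlinarith
  obtain ⟨H, hH⟩ := hlat β hβ1
  have := (Bd_finite m k H).to_subtype
  have := Fintype.ofFinite ↥(Bd m k H)
  -- the auxiliary forms
  choose G hG0 hGs hGη using fun u : ↥(Bd m k H) =>
    hcount u.1 (fun i => Dn (u.1 i)) (fun i => hDn1 _) (fun i => hDn3 _)
  set d : ↥(Bd m k H) → Fin m → ℕ := fun u l =>
    c * ∏ j ∈ Finset.univ.erase l, Dn (u.1 j) with hd
  -- the global inequality
  choose Cu hCu0 hCu using fun u : ↥(Bd m k H) => globL (a := a) (b := b) f δ hf u.1 (G u) (d u)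
    (locL_G hD f δ hf F η hη2 u.1 (fun i => Dn (u.1 i)) (fun i => hDn3 _) (G u) (d u) (hGs u)
      (hGη u))
  -- a point outside the exceptional set
  set φ : MvPolynomial (Fin m) K →+* MvPolynomial (Fin m) L0 :=
    MvPolynomial.map (algebraMap K L0) with hφ
  have hφinj : Function.Injective φ :=
    MvPolynomial.map_injective _ (algebraMap K L0).injective
  obtain ⟨n0, hn0⟩ := Pool.Agent.TH929.V954.Avoid.result L0 ↥(Bd m k H) k m
    (fun w => crd (w • g) 0) (by
      intro u w hu hw h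
      rcases crd_zero_iff (hg u hu) (hg w hw) h with h1 | h1
      · left
        by_contra hne
        apply hg (u - w) (sub_ne_zero.mpr hne)
        rw [sub_smul, h1, sub_self]
      · right
        by_contra hne
        apply hg (u + w) (fun h => hne (eq_neg_of_add_eq_zero_left h))
        rw [add_smul, h1, neg_add_cancel])
    (fun u => u.1) (fun u => u.2.1) (fun u => φ (G u)) (fun u h0 => hG0 u (hφinj (by
      rw [h0, map_zero])))
  set P0 : Fin k → SPt (algebraMap K L0 a) (algebraMap K L0 b) := fun j => n0 j • g with hP0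
  have hsum0 : ∀ (u : ↥(Bd m k H)) (i : Fin m), ∑ j, u.1 i j • P0 j =
      (∑ j, u.1 i j * n0 j) • g := by
    intro u i
    rw [Finset.sum_smul]
    exact Finset.sum_congr rfl (fun j _ => by rw [hP0, smul_smul])
  have hP0G : ∀ u : ↥(Bd m k H), hev (G u) (d u) (fun i => crd (∑ j, u.1 i j • P0 j)) ≠ 0 := by
    intro u
    have h1 := (hn0 u).2
    rw [hev_pointsL _ _ _ (fun i => by rw [hsum0]; exact hg _ ((hn0 u).1 i))]
    simp only [hsum0]
    exact h1
  -- forms on `E ^ k`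
  have hform : ∀ u : ↥(Bd m k H), ∃ (Ψ : MvPolynomial (Fin k × Fin 3) K) (τ : Fin k → ℕ),
      MultiHom τ Ψ ∧ evc Ψ (fun j => crd (P0 j)) ≠ 0 ∧
      ∀ (L : Type) [Field L] [DecidableEq L] [Algebra K L]
        (P : Fin k → SPt (algebraMap K L a) (algebraMap K L b)),
        evc Ψ (fun j => crd (P j)) ≠ 0 →
        hev (G u) (d u) (fun i => crd (∑ j, u.1 i j • P j)) ≠ 0 := by
    intro u
    choose Fam hhom hrep using fun i => hDn3 (u.1 i)
    choose T hT e hTe using fun i => (hrep i L0 _ _ rfl rfl P0).2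
    refine ⟨hev (G u) (d u) T, _, MultiHom_hev (G u) (d u) (hGs u) (fun i => Dn (u.1 i)) T
      (fun i e => hhom i _ (hT i) e), ?_, ?_⟩
    · choose rr hrr using fun i => (hrep i L0 _ _ rfl rfl P0).1 _ (hT i)
      have h3 : evc (hev (G u) (d u) T) (fun j => crd (P0 j)) =
          (∏ i, rr i ^ d u i) * hev (G u) (d u) (fun i => crd (∑ j, u.1 i j • P0 j)) := by
        unfold evc
        rw [map_hev]
        have h3 : (fun (l : Fin m) (c : Fin 3) =>
            aeval (fun p : Fin k × Fin 3 => crd (P0 p.1) p.2) (T l c)) =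
            fun l => rr l • crd (∑ j, u.1 l j • P0 j) := by
          funext l
          exact hrr l
        rw [h3, hev_smul (G u) (d u) (hGs u)]
      rw [h3]
      refine mul_ne_zero (Finset.prod_ne_zero_iff.mpr (fun i _ => pow_ne_zero _ ?_)) (hP0G u)
      intro h0
      apply hTe i
      have := congrFun (hrr i) (e i)
      rw [h0, zero_smul] at this
      exact this
    · intro L _ _ _ P hP hcon
      choose rr hrr using fun i => (hrep i L _ _ rfl rfl P).1 _ (hT i)
      apply hP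
      unfold evc
      rw [map_hev]
      have h3 : (fun (l : Fin m) (c : Fin 3) =>
          aeval (fun p : Fin k × Fin 3 => crd (P p.1) p.2) (T l c)) =
          fun l => rr l • crd (∑ j, u.1 l j • P j) := by
        funext l
        exact hrr l
      rw [h3, hev_smul (G u) (d u) (hGs u), hcon, mul_zero]
  choose Ψ τ hΨ1 hΨ2 hΨ3 using hform
  have hevprod : ∀ (L : Type) [Field L] [Algebra K L]
      (P : Fin k → SPt (algebraMap K L a) (algebraMap K L b)),
      evc (∏ u, Ψ u) (fun j => crd (P j)) = ∏ u, evc (Ψ u) (fun j => crd (P j)) := by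
    intro L _ _ P
    simp only [evc, map_prod]
  refine ⟨∏ u, Ψ u, _, MultiHom_prod Finset.univ τ Ψ (fun u _ => hΨ1 u),
    ⟨L0, iL0, iN0, iA0, P0, ?_⟩, ?_⟩
  · rw [hevprod]
    exact Finset.prod_ne_zero_iff.mpr (fun u _ => hΨ2 u)
  -- the constant
  refine ⟨ε * (1 + k * Ch) + ∑ u, (Cu u + N * ∑ l, (d u l : ℝ) * Ch),
    fun L _ _ _ _ P hrk hP => ?_⟩
  rw [hevprod, Finset.prod_ne_zero_iff] at hP
  obtain ⟨q, hq2, hq3, hlow, hupp⟩ := hcan L
  have hD' : 4 * (algebraMap K L a) ^ 3 + 27 * (algebraMap K L b) ^ 2 ≠ 0 := by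
    intro h0
    apply hD
    apply (algebraMap K L).injective
    rw [map_zero, ← h0]
    simp only [map_add, map_mul, map_pow, map_ofNat]
  obtain ⟨Nm, hNm⟩ := gram_decomp P (fg_of_inj (AddSubgroup.subtype _)
    (AddSubgroup.subtype_injective _) (sfg hD')) hrk q hq2 hq3
  set DL : ℝ := (Module.finrank ℚ L : ℝ) with hDL
  have hDL0 : 0 < DL := by
    have : 0 < Module.finrank ℚ L := Module.finrank_pos
    rw [hDL]
    exact_mod_cast this
  set M2 : ℝ := 1 + (∑ j, q (P j)) / DL with hM2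
  have hM21 : 1 ≤ M2 := by
    have : 0 ≤ (∑ j, q (P j)) / DL :=
      div_nonneg (Finset.sum_nonneg (fun _ _ => hq2 _)) hDL0.le
    linarith
  have hsq : (√DL) ^ 2 = DL := Real.sq_sqrt hDL0.le
  have hsq0 : 0 < √DL := Real.sqrt_pos.mpr hDL0
  have hcol : ∀ j, q (P j) = ∑ l, Nm l j ^ 2 := by
    intro j
    have h1 := hNm (Pi.single j 1)
    have h2 : ∑ i, (Pi.single j 1 : Fin k → ℤ) i • P i = P j := by
      rw [Finset.sum_eq_single j]
      · simp
      · intro i _ hi
        simp [hi]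
      · simp
    rw [h2] at h1
    rw [h1]
    refine Finset.sum_congr rfl (fun l _ => ?_)
    congr 1
    rw [Finset.sum_eq_single j]
    · simp
    · intro i _ hi
      simp [hi]
    · simp
  obtain ⟨u, hu1, hu2, hu3⟩ := hH (fun l j => Nm l j / √DL) (√M2)
    (by rw [Real.one_le_sqrt]; exact hM21) (by
      intro l j
      rw [← Real.sqrt_sq_eq_abs]
      apply Real.sqrt_le_sqrt
      rw [div_pow, hsq]
      have h1 : Nm l j ^ 2 ≤ ∑ l, Nm l j ^ 2 :=
        Finset.single_le_sum (f := fun l => Nm l j ^ 2) (fun _ _ => sq_nonneg _)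
          (Finset.mem_univ l)
      rw [← hcol j] at h1
      have h2 : q (P j) ≤ ∑ j, q (P j) :=
        Finset.single_le_sum (f := fun j => q (P j)) (fun _ _ => hq2 _) (Finset.mem_univ j)
      have h3 : Nm l j ^ 2 / DL ≤ (∑ j, q (P j)) / DL :=
        div_le_div_of_nonneg_right (h1.trans h2) hDL0.le
      linarith)
  set U : ↥(Bd m k H) := ⟨u, hu1, hu2⟩ with hU
  obtain ⟨hne, hFS, hbound⟩ := hCu U L P (hΨ3 U L P (hP U (Finset.mem_univ _)))
  refine ⟨hne, hFS, hbound.trans ?_⟩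
  have hcN : (0 : ℝ) ≤ c := Nat.cast_nonneg _
  -- norms of the vectors
  have hnorm1 : ∀ j, 1 ≤ ∑ t, (u j t : ℝ) ^ 2 := by
    intro j
    obtain ⟨t0, ht0⟩ := Function.ne_iff.mp (hu1.ne_zero j)
    have h1 : (u j t0 : ℝ) ^ 2 ≤ ∑ t, (u j t : ℝ) ^ 2 :=
      Finset.single_le_sum (f := fun t => (u j t : ℝ) ^ 2) (fun _ _ => sq_nonneg _)
        (Finset.mem_univ t0)
    have h2 : (1 : ℤ) ≤ (u j t0) ^ 2 := by
      have h3 : u j t0 ≠ 0 := ht0
      have : 0 < (u j t0) ^ 2 := by positivity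
      omega
    have h4 : (1 : ℝ) ≤ (u j t0 : ℝ) ^ 2 := by exact_mod_cast h2
    linarith
  have hDn : ∀ j, (Dn (u j) : ℝ) ≤ 2 * cf * ∑ t, (u j t : ℝ) ^ 2 := by
    intro j
    have h1 : (Dn (u j) : ℝ) ≤ cf * (1 + ∑ t, (u j t : ℝ) ^ 2) := by exact_mod_cast hDn2 (u j)
    have h2 := hnorm1 j
    have h3 : (0 : ℝ) ≤ cf := Nat.cast_nonneg _
    nlinarith
  have hdle : ∀ l, (d U l : ℝ) ≤ c * (2 * cf) ^ (m - 1) *
      ∏ j ∈ Finset.univ.erase l, ∑ t, (u j t : ℝ) ^ 2 := by
    intro l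
    have h1 : (d U l : ℝ) = c * ∏ j ∈ Finset.univ.erase l, (Dn (u j) : ℝ) := by
      simp only [hd, hU]
      push_cast
      rfl
    rw [h1, mul_assoc]
    refine mul_le_mul_of_nonneg_left ?_ hcN
    have h2 : ∏ j ∈ Finset.univ.erase l, (Dn (u j) : ℝ) ≤
        ∏ j ∈ Finset.univ.erase l, (2 * cf * ∑ t, (u j t : ℝ) ^ 2) :=
      Finset.prod_le_prod (fun _ _ => Nat.cast_nonneg _) (fun j _ => hDn j)
    refine h2.trans (le_of_eq ?_)
    rw [Finset.prod_mul_distrib, Finset.prod_const, Finset.card_erase_of_mem (Finset.mem_univ l),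
      Finset.card_univ, Fintype.card_fin]
  have hS : ∀ l, q (∑ j, u l j • P j) =
      DL * ∑ i, (∑ j, (u l j : ℝ) * (Nm i j / √DL)) ^ 2 := by
    intro l
    rw [hNm, Finset.mul_sum]
    refine Finset.sum_congr rfl (fun i _ => ?_)
    have h1 : ∑ j, (u l j : ℝ) * (Nm i j / √DL) = (∑ j, (u l j : ℝ) * Nm i j) / √DL := by
      rw [Finset.sum_div]
      exact Finset.sum_congr rfl (fun j _ => by ring)
    rw [h1, div_pow, hsq, mul_div_cancel₀ _ hDL0.ne']
  have hterm : ∀ l, (d U l : ℝ) * logHeight (crd (∑ j, u l j • P j)) ≤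
      (c * (2 * cf) ^ (m - 1) * (3 / 2) * (cL * M2 / β ^ 2) + d U l * Ch) * DL := by
    intro l
    have h1 := hupp (∑ j, u l j • P j)
    rw [hS l] at h1
    have h2 := hu3 l
    rw [Real.sq_sqrt (by linarith)] at h2
    set Sl : ℝ := ∑ i, (∑ j, (u l j : ℝ) * (Nm i j / √DL)) ^ 2 with hSl
    have hSl0 : 0 ≤ Sl := Finset.sum_nonneg (fun _ _ => sq_nonneg _)
    have hd0 : (0 : ℝ) ≤ d U l := Nat.cast_nonneg _
    have h4 : (d U l : ℝ) * Sl ≤ c * (2 * cf) ^ (m - 1) * (cL * M2 / β ^ 2) := by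
      calc (d U l : ℝ) * Sl ≤ (c * (2 * cf) ^ (m - 1) *
            ∏ j ∈ Finset.univ.erase l, ∑ t, (u j t : ℝ) ^ 2) * Sl :=
            mul_le_mul_of_nonneg_right (hdle l) hSl0
        _ = c * (2 * cf) ^ (m - 1) *
            ((∏ j ∈ Finset.univ.erase l, ∑ t, (u j t : ℝ) ^ 2) * Sl) := by ring
        _ ≤ _ := mul_le_mul_of_nonneg_left h2 (by positivity)
    calc (d U l : ℝ) * logHeight (crd (∑ j, u l j • P j)) ≤
          d U l * (3 / 2 * (DL * Sl) + Ch * DL) := mul_le_mul_of_nonneg_left h1 hd0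
      _ = (3 / 2 * (d U l * Sl) + d U l * Ch) * DL := by ring
      _ ≤ _ := by
          refine mul_le_mul_of_nonneg_right ?_ hDL0.le
          have : c * (2 * cf) ^ (m - 1) * (3 / 2) * (cL * M2 / β ^ 2) =
            3 / 2 * (c * (2 * cf) ^ (m - 1) * (cL * M2 / β ^ 2)) := by ring
          rw [this]
          linarith
  have hsumle : ∑ l, (d U l : ℝ) * logHeight (crd (∑ j, u l j • P j)) ≤
      (m * (c * (2 * cf) ^ (m - 1) * (3 / 2) * (cL * M2 / β ^ 2)) +
        ∑ l, (d U l : ℝ) * Ch) * DL := by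
    refine (Finset.sum_le_sum (fun l _ => hterm l)).trans (le_of_eq ?_)
    rw [← Finset.sum_mul, Finset.sum_add_distrib, Finset.sum_const, Finset.card_univ,
      Fintype.card_fin, nsmul_eq_mul]
  have hNN : (0 : ℝ) ≤ N := Nat.cast_nonneg _
  have hβ2 : 0 < β ^ 2 := by positivity
  have hmainle : (N : ℝ) * ∑ l, (d U l : ℝ) * logHeight (crd (∑ j, u l j • P j)) ≤
      (ε * M2 + N * ∑ l, (d U l : ℝ) * Ch) * DL := by
    have h1 := mul_le_mul_of_nonneg_left hsumle hNN
    refine h1.trans ?_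
    rw [← mul_assoc]
    refine mul_le_mul_of_nonneg_right ?_ hDL0.le
    rw [mul_add]
    have h2 : (N : ℝ) * (m * (c * (2 * cf) ^ (m - 1) * (3 / 2) * (cL * M2 / β ^ 2))) =
        (Q0 / β ^ 2) * M2 := by
      rw [hQ0]
      ring
    have h3 : (Q0 / β ^ 2) * M2 ≤ ε * M2 :=
      mul_le_mul_of_nonneg_right hβε (by linarith)
    rw [h2]
    linarith
  have hM2D : M2 * DL ≤ (1 + k * Ch) * DL + ∑ j, logHeight (crd (P j)) := by
    have h1 : ∑ j, q (P j) ≤ ∑ j, (logHeight (crd (P j)) + Ch * DL) :=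
      Finset.sum_le_sum (fun j _ => hlow (P j))
    rw [Finset.sum_add_distrib, Finset.sum_const, Finset.card_univ, Fintype.card_fin,
      nsmul_eq_mul] at h1
    have h2 : M2 * DL = DL + ∑ j, q (P j) := by
      rw [hM2]
      field_simp
    rw [h2]
    linarith
  have hconst : Cu U + N * ∑ l, (d U l : ℝ) * Ch ≤
      ∑ u, (Cu u + N * ∑ l, (d u l : ℝ) * Ch) := by
    refine Finset.single_le_sum (f := fun u => Cu u + N * ∑ l, (d u l : ℝ) * Ch)
      (fun u _ => ?_) (Finset.mem_univ U)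
    have h1 : 0 ≤ ∑ l, (d u l : ℝ) * Ch :=
      Finset.sum_nonneg (fun _ _ => mul_nonneg (Nat.cast_nonneg _) hCh)
    have h2 := hCu0 u
    positivity
  have h6 := mul_le_mul_of_nonneg_left hM2D hε.le
  have h7 := mul_le_mul_of_nonneg_right hconst hDL0.le
  calc (N : ℝ) * ∑ l, (d U l : ℝ) * logHeight (crd (∑ j, u l j • P j)) + Cu U * DL ≤
      (ε * M2 + N * ∑ l, (d U l : ℝ) * Ch) * DL + Cu U * DL := by linarith
    _ = ε * (M2 * DL) + (Cu U + N * ∑ l, (d U l : ℝ) * Ch) * DL := by ring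
    _ ≤ ε * ((1 + k * Ch) * DL + ∑ j, logHeight (crd (P j))) +
        (∑ u, (Cu u + N * ∑ l, (d u l : ℝ) * Ch)) * DL := by linarith
    _ = _ := by ring

end Pool.Agent.TH954.V
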