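import Pool.Agent.TH954.V.Count
import Pool.Agent.TH954.V.Quad
import Pool.Agent.TH954.V.Lattice
import Pool.Agent.TH954.V.Law
import Pool.Agent.TH954.V.Hilb
import Pool.Agent.TH135.J1609
import Pool.Agent.TH929.V954.Avoid

/-!
# Heights attached to closed subschemes of powers of an elliptic curve
-/

set_option autoImplicit false
set_option linter.unusedSectionVars false

open MvPolynomial WeierstrassCurve Height Pool.Agent.TH942

namespace Pool.Agent.TH954.V

lemma fam' : T_fam := Pool.Agent.TH135.J1609.fam law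

/-- the bounded families of integer vectors -/
def Bd (m k : ℕ) (H : ℤ) : Set (Fin m → Fin k → ℤ) :=
  {u | LinearIndependent ℤ u ∧ ∀ i j, |u i j| ≤ H}

lemma Bd_finite (m k : ℕ) (H : ℤ) : (Bd m k H).Finite := by
  have h1 : (Set.univ.pi (fun _ : Fin m => Set.univ.pi (fun _ : Fin k => Set.Icc (-H) H))).Finite :=
    Set.Finite.pi' (fun _ => Set.Finite.pi' (fun _ => Set.finite_Icc _ _)) |>.subset
      (fun u hu i j => hu i (Set.mem_univ _) j (Set.mem_univ _))
  refine h1.subset (fun u hu i _ j _ => ?_)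
  exact abs_le.mp (hu.2 i j)

section ord

variable {K : Type} [Field K] [DecidableEq K] {a b : K}

lemma crd_eq_of_ne {P : SPt a b} (hP : P ≠ 0) : crd P 2 = 1 := by
  match P with
  | .zero => exact absurd rfl hP
  | .some x y h => rfl

lemma crd_zero_iff {P Q : SPt a b} (hP : P ≠ 0) (hQ : Q ≠ 0) (h : crd P 0 = crd Q 0) :
    P = Q ∨ P = -Q := by
  match P, Q with
  | .zero, _ => exact absurd rfl hP
  | _, .zero => exact absurd rfl hQ
  | .some x y h1, .some x' y' h2 =>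
    have hx : x = x' := h
    refine Affine.Point.eq_or_eq_neg_of_xRep_eq_xRep ?_
    rw [Affine.Point.xRep_some, Affine.Point.xRep_some, hx]

/-- at nonzero points the value of the form is the value of the polynomial at the abscissas -/
lemma hev_points {m : ℕ} (G : MvPolynomial (Fin m) K) (d : Fin m → ℕ) (P : Fin m → SPt a b)
    (hP : ∀ i, P i ≠ 0) : hev G d (fun i => crd (P i)) = eval (fun i => crd (P i) 0) G := by
  unfold hev
  rw [eval_eq']
  refine Finset.sum_congr rfl (fun e _ => ?_)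
  congr 1
  refine Finset.prod_congr rfl (fun i _ => ?_)
  change crd (P i) 0 ^ e i * crd (P i) 2 ^ (d i - e i) = crd (P i) 0 ^ e i
  rw [crd_eq_of_ne (hP i), one_pow, mul_one]

end ord

theorem main_thm (K : Type) [Field K] [NumberField K] [DecidableEq K] (a b : K)
    (hD : 4 * a ^ 3 + 27 * b ^ 2 ≠ 0) (Γ : AddSubgroup (SPt a b)) (hinf : Infinite Γ) (k y : ℕ)
    (hk : Module.finrank ℤ Γ * (y + 1) < k) {s : ℕ}
    (f : Fin s → MvPolynomial (Fin k × Fin 3) K) (δ : Fin s → Fin k → ℕ)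
    (hf : ∀ i, MultiHom (δ i) (f i))
    (hdim : ∀ (F : Type) [Field F] [Algebra K F]
      (η : Fin k → SPt (algebraMap K F a) (algebraMap K F b)),
      (∀ i, evc (f i) (fun j => crd (η j)) = 0) →
      Algebra.trdeg K (IntermediateField.adjoin K
        (Set.range (fun p : Fin k × Fin 3 => crd (η p.1) p.2))) ≤ (y : Cardinal))
    (ε : ℝ) (hε : 0 < ε) :
    ∃ (Φ : MvPolynomial (Fin k × Fin 3) K) (τ : Fin k → ℕ), MultiHom τ Φ ∧
      (∃ P : Fin k → SPt a b, (∀ j, P j ∈ Γ) ∧ evc Φ (fun j => crd (P j)) ≠ 0) ∧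
      ∃ C : ℝ, ∀ P : Fin k → SPt a b, (∀ j, P j ∈ Γ) → evc Φ (fun j => crd (P j)) ≠ 0 →
        (∃ i, evc (f i) (fun j => crd (P j)) ≠ 0) ∧
        FS (fun v => -Real.log (⨆ i, nv v (δ i) (f i) (fun j => crd (P j)))) ∧
        hY f δ P ≤ ε * ∑ j, logHeight (crd (P j)) + C := by
  classical
  obtain ⟨r, hr, cd, c1, c2, Ch, hc1, hc2, hCh, hlow, hupp⟩ := quad_setup hD Γ
  rw [hr] at hk
  -- the rank is positive
  obtain ⟨g', hg0⟩ : ∃ g : Γ, cd g ≠ 0 := by
    by_contra hcon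
    push Not at hcon
    have hfin : {P : SPt a b | sht P ≤ Ch}.Finite := sfinite_ht _
    refine Set.infinite_univ ((hfin.preimage (f := fun P : Γ => P.1)
      Subtype.val_injective.injOn).subset (fun P _ => ?_))
    have h1 := hupp P
    rw [hcon P] at h1
    simp only [Pi.zero_apply, Int.cast_zero, ne_eq, OfNat.ofNat_ne_zero, not_false_eq_true,
      zero_pow, Finset.sum_const_zero, mul_zero, zero_add] at h1
    exact (sht_le P.1).trans h1
  obtain ⟨i0, hi0⟩ := Function.ne_iff.mp hg0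
  have hr1 : 1 ≤ r := Nat.one_le_iff_ne_zero.mpr (fun h0 => by
    have := i0.2
    omega)
  set g : SPt a b := g'.1 with hgdef
  have hg : ∀ w : ℤ, w ≠ 0 → w • g ≠ 0 := by
    intro w hw h0
    have h1 : cd (w • g') = 0 := by
      have : w • g' = 0 := Subtype.ext h0
      rw [this, map_zero]
    rw [map_zsmul] at h1
    have h2 := congrFun h1 i0
    rw [Pi.smul_apply, smul_eq_mul, Pi.zero_apply, mul_eq_zero] at h2
    rcases h2 with h2 | h2
    · exact hw h2
    · exact hi0 h2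
  set m : ℕ := y + 1 with hm
  have hm1 : 1 ≤ m := by omega
  -- the Nullstellensatz
  obtain ⟨N, hN, t, F, iF, iA, η, hη1, hη2⟩ := null K a b hD k s f (fun i => ⟨δ i, hf i⟩)
  have htr : ∀ i, Algebra.trdeg K (IntermediateField.adjoin K
      (Set.range (fun p : Fin k × Fin 3 => crd (η i p.1) p.2))) ≤ ((m - 1 : ℕ) : Cardinal) := by
    intro i
    have := hdim (F i) (η i) (hη1 i)
    rw [hm, Nat.add_sub_cancel]
    exact this
  obtain ⟨c, hc, hcount⟩ := count Hil.hilb hm1 F η htr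
  obtain ⟨cf, hcf⟩ := fam' K a b hD k
  choose Dn hDn1 hDn2 hDn3 using hcf
  obtain ⟨cL, hcL, hlat⟩ := Lat.lattice r k m hr1 hm1 hk
  -- the choice of `β`
  set Q0 : ℝ := N * (m * (c * (2 * cf) ^ (m - 1)) * (c2 * cL)) / c1 with hQ0
  have hQ00 : 0 ≤ Q0 := by positivity
  set β : ℝ := 1 + Q0 / ε with hβ
  have hβ1 : 1 ≤ β := by
    have : 0 ≤ Q0 / ε := by positivity
    linarith
  have hβε : Q0 / β ^ 2 ≤ ε := by
    rw [div_le_iff₀ (by positivity)]
    have h1 : Q0 ≤ ε * β := by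
      rw [hβ, mul_add, mul_div_cancel₀ _ hε.ne']
      linarith
    nlinarith
  obtain ⟨H, hH⟩ := hlat β hβ1
  have := (Bd_finite m k H).to_subtype
  have := Fintype.ofFinite ↥(Bd m k H)
  -- the auxiliary forms
  choose G hG0 hGs hGη using fun u : ↥(Bd m k H) =>
    hcount u.1 (fun i => Dn (u.1 i)) (fun i => hDn1 _) (fun i => hDn3 _)
  set d : ↥(Bd m k H) → Fin m → ℕ := fun u l =>
    c * ∏ j ∈ Finset.univ.erase l, Dn (u.1 j) with hd
  -- the global inequality
  choose Cu hCu using fun u : ↥(Bd m k H) => glob (a := a) (b := b) f δ hf hN u.1 (G u) (d u)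
    (loc_G hD f δ hf F η hη2 u.1 (fun i => Dn (u.1 i)) (fun i => hDn3 _) (G u) (d u) (hGs u)
      (hGη u))
  -- a point outside the exceptional set
  obtain ⟨n0, hn0⟩ := Pool.Agent.TH929.V954.Avoid.result K ↥(Bd m k H) k m
    (fun w => crd (w • g) 0) (by
      intro u w hu hw h
      rcases crd_zero_iff (hg u hu) (hg w hw) h with h1 | h1
      · left
        by_contra hne
        apply hg (u - w) (sub_ne_zero.mpr hne)
        rw [sub_smul, h1, sub_self]
      · right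
        by_contra hne
        apply hg (u + w) (fun h => hne (eq_neg_of_add_eq_zero_left h))
        rw [add_smul, h1, neg_add_cancel])
    (fun u => u.1) (fun u => u.2.1) G hG0
  set P0 : Fin k → SPt a b := fun j => n0 j • g with hP0
  have hsum0 : ∀ (u : ↥(Bd m k H)) (i : Fin m), ∑ j, u.1 i j • P0 j =
      (∑ j, u.1 i j * n0 j) • g := by
    intro u i
    rw [Finset.sum_smul]
    exact Finset.sum_congr rfl (fun j _ => by rw [hP0, smul_smul])
  have hP0G : ∀ u : ↥(Bd m k H), hev (G u) (d u) (fun i => crd (∑ j, u.1 i j • P0 j)) ≠ 0 := by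
    intro u
    have h1 := (hn0 u).2
    rw [hev_points _ _ _ (fun i => by rw [hsum0]; exact hg _ ((hn0 u).1 i))]
    simp only [hsum0]
    exact h1
  -- forms on `E ^ k`
  have hform : ∀ u : ↥(Bd m k H), ∃ (Ψ : MvPolynomial (Fin k × Fin 3) K) (τ : Fin k → ℕ),
      MultiHom τ Ψ ∧ evc Ψ (fun j => crd (P0 j)) ≠ 0 ∧
      ∀ P : Fin k → SPt a b, evc Ψ (fun j => crd (P j)) ≠ 0 →
        hev (G u) (d u) (fun i => crd (∑ j, u.1 i j • P j)) ≠ 0 := by
    intro u
    choose Fam hhom hrep using fun i => hDn3 (u.1 i)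
    choose T hT e hTe using fun i => (hrep i K a b rfl rfl P0).2
    refine ⟨hev (G u) (d u) T, _, MultiHom_hev (G u) (d u) (hGs u) (fun i => Dn (u.1 i)) T
      (fun i e => hhom i _ (hT i) e), ?_, ?_⟩
    · choose rr hrr using fun i => (hrep i K a b rfl rfl P0).1 _ (hT i)
      have h3 : evc (hev (G u) (d u) T) (fun j => crd (P0 j)) =
          (∏ i, rr i ^ d u i) * hev (G u) (d u) (fun i => crd (∑ j, u.1 i j • P0 j)) := by
        unfold evc
        rw [map_hev]
        have h3 : (fun (l : Fin m) (c : Fin 3) =>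
            aeval (fun p : Fin k × Fin 3 => crd (P0 p.1) p.2) (T l c)) =
            fun l => rr l • crd (∑ j, u.1 l j • P0 j) := by
          funext l
          exact hrr l
        rw [h3, hev_smul (G u) (d u) (hGs u)]
      rw [h3]
      refine mul_ne_zero (Finset.prod_ne_zero_iff.mpr (fun i _ => pow_ne_zero _ ?_)) (hP0G u)
      intro h0
      apply hTe i
      have := congrFun (hrr i) (e i)
      rw [h0, zero_smul] at this
      exact this
    · intro P hP hcon
      choose rr hrr using fun i => (hrep i K a b rfl rfl P).1 _ (hT i)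
      apply hP
      unfold evc
      rw [map_hev]
      have h3 : (fun (l : Fin m) (c : Fin 3) =>
          aeval (fun p : Fin k × Fin 3 => crd (P p.1) p.2) (T l c)) =
          fun l => rr l • crd (∑ j, u.1 l j • P j) := by
        funext l
        exact hrr l
      rw [h3, hev_smul (G u) (d u) (hGs u), hcon, mul_zero]
  choose Ψ τ hΨ1 hΨ2 hΨ3 using hform
  have hevprod : ∀ P : Fin k → SPt a b, evc (∏ u, Ψ u) (fun j => crd (P j)) =
      ∏ u, evc (Ψ u) (fun j => crd (P j)) := by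
    intro P
    simp only [evc, map_prod]
  refine ⟨∏ u, Ψ u, _, MultiHom_prod Finset.univ τ Ψ (fun u _ => hΨ1 u), ⟨P0, fun j => Γ.zsmul_mem g'.2 _, ?_⟩, ?_⟩
  · rw [hevprod]
    exact Finset.prod_ne_zero_iff.mpr (fun u _ => hΨ2 u)
  -- the constant
  refine ⟨ε * (c1 + k * Ch) + ∑ u, (|Cu u| + N * ∑ l, (d u l : ℝ) * Ch), fun P hPΓ hP => ?_⟩
  set P' : Fin k → Γ := fun j => ⟨P j, hPΓ j⟩ with hP'
  rw [hevprod, Finset.prod_ne_zero_iff] at hP
  set M2 : ℝ := 1 + ∑ j, ∑ l, (cd (P' j) l : ℝ) ^ 2 with hM2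
  have hM21 : 1 ≤ M2 := by
    have : 0 ≤ ∑ j, ∑ l, (cd (P' j) l : ℝ) ^ 2 :=
      Finset.sum_nonneg (fun _ _ => Finset.sum_nonneg (fun _ _ => sq_nonneg _))
    linarith
  obtain ⟨u, hu1, hu2, hu3⟩ := hH (fun l j => cd (P' j) l) (√M2)
    (by rw [Real.one_le_sqrt]; exact hM21) (by
      intro l j
      rw [← Real.sqrt_sq_eq_abs]
      apply Real.sqrt_le_sqrt
      have h1 : (cd (P' j) l : ℝ) ^ 2 ≤ ∑ l, (cd (P' j) l : ℝ) ^ 2 :=
        Finset.single_le_sum (f := fun l => (cd (P' j) l : ℝ) ^ 2) (fun _ _ => sq_nonneg _)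
          (Finset.mem_univ l)
      have h2 : ∑ l, (cd (P' j) l : ℝ) ^ 2 ≤ ∑ j, ∑ l, (cd (P' j) l : ℝ) ^ 2 :=
        Finset.single_le_sum (f := fun j => ∑ l, (cd (P' j) l : ℝ) ^ 2)
          (fun _ _ => Finset.sum_nonneg (fun _ _ => sq_nonneg _)) (Finset.mem_univ j)
      linarith)
  set U : ↥(Bd m k H) := ⟨u, hu1, hu2⟩ with hU
  obtain ⟨hne, hFS, hbound⟩ := hCu U P (hΨ3 U P (hP U (Finset.mem_univ _)))
  refine ⟨hne, hFS, hbound.trans ?_⟩
  have hcN : (0 : ℝ) ≤ c := Nat.cast_nonneg _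
  -- norms of the vectors
  have hnorm1 : ∀ j, 1 ≤ ∑ t, (u j t : ℝ) ^ 2 := by
    intro j
    obtain ⟨t0, ht0⟩ := Function.ne_iff.mp (hu1.ne_zero j)
    have h1 : (u j t0 : ℝ) ^ 2 ≤ ∑ t, (u j t : ℝ) ^ 2 :=
      Finset.single_le_sum (f := fun t => (u j t : ℝ) ^ 2) (fun _ _ => sq_nonneg _)
        (Finset.mem_univ t0)
    have h2 : (1 : ℤ) ≤ (u j t0) ^ 2 := by
      have h3 : u j t0 ≠ 0 := ht0
      have : 0 < (u j t0) ^ 2 := by positivity
      omega
    have h4 : (1 : ℝ) ≤ (u j t0 : ℝ) ^ 2 := by exact_mod_cast h2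
    linarith
  have hDn : ∀ j, (Dn (u j) : ℝ) ≤ 2 * cf * ∑ t, (u j t : ℝ) ^ 2 := by
    intro j
    have h1 : (Dn (u j) : ℝ) ≤ cf * (1 + ∑ t, (u j t : ℝ) ^ 2) := by exact_mod_cast hDn2 (u j)
    have h2 := hnorm1 j
    have h3 : (0 : ℝ) ≤ cf := Nat.cast_nonneg _
    nlinarith
  have hdle : ∀ l, (d U l : ℝ) ≤ c * (2 * cf) ^ (m - 1) *
      ∏ j ∈ Finset.univ.erase l, ∑ t, (u j t : ℝ) ^ 2 := by
    intro l
    have h1 : (d U l : ℝ) = c * ∏ j ∈ Finset.univ.erase l, (Dn (u j) : ℝ) := by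
      simp only [hd, hU]
      push_cast
      rfl
    rw [h1, mul_assoc]
    refine mul_le_mul_of_nonneg_left ?_ hcN
    have h2 : ∏ j ∈ Finset.univ.erase l, (Dn (u j) : ℝ) ≤
        ∏ j ∈ Finset.univ.erase l, (2 * cf * ∑ t, (u j t : ℝ) ^ 2) :=
      Finset.prod_le_prod (fun _ _ => Nat.cast_nonneg _) (fun j _ => hDn j)
    refine h2.trans (le_of_eq ?_)
    rw [Finset.prod_mul_distrib, Finset.prod_const, Finset.card_erase_of_mem (Finset.mem_univ l),
      Finset.card_univ, Fintype.card_fin]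
  have hcoe : ∀ l, (∑ j, u l j • P' j : Γ).1 = ∑ j, u l j • P j := by
    intro l
    change Γ.subtype _ = _
    rw [map_sum]
    rfl
  have hS : ∀ l, ∑ i, (cd (∑ j, u l j • P' j) i : ℝ) ^ 2 =
      ∑ i, (∑ j, (u l j : ℝ) * (cd (P' j) i : ℝ)) ^ 2 := by
    intro l
    refine Finset.sum_congr rfl (fun i _ => ?_)
    congr 1
    have : cd (∑ j, u l j • P' j) i = ∑ j, u l j * cd (P' j) i := by
      rw [map_sum, Finset.sum_apply]
      refine Finset.sum_congr rfl (fun j _ => ?_)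
      rw [map_zsmul, Pi.smul_apply, smul_eq_mul]
    rw [this]
    push_cast
    rfl
  have hterm : ∀ l, (d U l : ℝ) * logHeight (crd (∑ j, u l j • P j)) ≤
      c * (2 * cf) ^ (m - 1) * c2 * (cL * M2 / β ^ 2) + d U l * Ch := by
    intro l
    have h1 := hupp (∑ j, u l j • P' j)
    rw [hS l, hcoe l] at h1
    have h2 := hu3 l
    rw [Real.sq_sqrt (by linarith)] at h2
    set Sl : ℝ := ∑ i, (∑ j, (u l j : ℝ) * (cd (P' j) i : ℝ)) ^ 2 with hSl
    have hSl0 : 0 ≤ Sl := Finset.sum_nonneg (fun _ _ => sq_nonneg _)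
    have hd0 : (0 : ℝ) ≤ d U l := Nat.cast_nonneg _
    calc (d U l : ℝ) * logHeight (crd (∑ j, u l j • P j)) ≤ d U l * (c2 * Sl + Ch) :=
          mul_le_mul_of_nonneg_left h1 hd0
      _ = d U l * (c2 * Sl) + d U l * Ch := by ring
      _ ≤ (c * (2 * cf) ^ (m - 1) * ∏ j ∈ Finset.univ.erase l, ∑ t, (u j t : ℝ) ^ 2) *
            (c2 * Sl) + d U l * Ch := by
          have := mul_le_mul_of_nonneg_right (hdle l) (mul_nonneg hc2 hSl0)
          linarith
      _ = c * (2 * cf) ^ (m - 1) * c2 *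
            ((∏ j ∈ Finset.univ.erase l, ∑ t, (u j t : ℝ) ^ 2) * Sl) + d U l * Ch := by ring
      _ ≤ _ := by
          have h3 : (0 : ℝ) ≤ c * (2 * cf) ^ (m - 1) * c2 := by positivity
          have := mul_le_mul_of_nonneg_left h2 h3
          linarith
  have hsumle : ∑ l, (d U l : ℝ) * logHeight (crd (∑ j, u l j • P j)) ≤
      m * (c * (2 * cf) ^ (m - 1) * c2 * (cL * M2 / β ^ 2)) + ∑ l, (d U l : ℝ) * Ch := by
    refine (Finset.sum_le_sum (fun l _ => hterm l)).trans (le_of_eq ?_)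
    rw [Finset.sum_add_distrib, Finset.sum_const, Finset.card_univ, Fintype.card_fin, nsmul_eq_mul]
  have hNN : (0 : ℝ) ≤ N := Nat.cast_nonneg _
  have hβ2 : 0 < β ^ 2 := by positivity
  have hmainle : (N : ℝ) * ∑ l, (d U l : ℝ) * logHeight (crd (∑ j, u l j • P j)) ≤
      ε * (c1 * M2) + N * ∑ l, (d U l : ℝ) * Ch := by
    have h1 := mul_le_mul_of_nonneg_left hsumle hNN
    have h2 : (N : ℝ) * (m * (c * (2 * cf) ^ (m - 1) * c2 * (cL * M2 / β ^ 2))) =
        (Q0 / β ^ 2) * (c1 * M2) := by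
      rw [hQ0]
      field_simp
    have h3 : (Q0 / β ^ 2) * (c1 * M2) ≤ ε * (c1 * M2) :=
      mul_le_mul_of_nonneg_right hβε (by positivity)
    rw [mul_add, h2] at h1
    linarith
  have hc1M : c1 * M2 ≤ c1 + k * Ch + ∑ j, logHeight (crd (P j)) := by
    have h1 : c1 * ∑ j, ∑ l, (cd (P' j) l : ℝ) ^ 2 ≤ ∑ j, (logHeight (crd (P j)) + Ch) := by
      rw [Finset.mul_sum]
      exact Finset.sum_le_sum (fun j _ => hlow (P' j))
    rw [Finset.sum_add_distrib, Finset.sum_const, Finset.card_univ, Fintype.card_fin,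
      nsmul_eq_mul] at h1
    rw [hM2, mul_add, mul_one]
    linarith
  have hconst : |Cu U| + N * ∑ l, (d U l : ℝ) * Ch ≤
      ∑ u, (|Cu u| + N * ∑ l, (d u l : ℝ) * Ch) := by
    refine Finset.single_le_sum (f := fun u => |Cu u| + N * ∑ l, (d u l : ℝ) * Ch)
      (fun u _ => ?_) (Finset.mem_univ U)
    have : 0 ≤ ∑ l, (d u l : ℝ) * Ch :=
      Finset.sum_nonneg (fun _ _ => mul_nonneg (Nat.cast_nonneg _) hCh)
    positivity
  have h5 := le_abs_self (Cu U)
  have h6 := mul_le_mul_of_nonneg_left hc1M hε.le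
  calc (N : ℝ) * ∑ l, (d U l : ℝ) * logHeight (crd (∑ j, u l j • P j)) + Cu U ≤
      ε * (c1 * M2) + N * ∑ l, (d U l : ℝ) * Ch + |Cu U| := by linarith
    _ ≤ ε * (c1 + k * Ch + ∑ j, logHeight (crd (P j))) +
        ∑ u, (|Cu u| + N * ∑ l, (d u l : ℝ) * Ch) := by linarith
    _ = _ := by ring

end Pool.Agent.TH954.V
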