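import Pool.Agent.TH954.V.Defs

/-!
# The Nullstellensatz
-/

set_option autoImplicit false

open MvPolynomial WeierstrassCurve Pool.Agent.TH942

namespace Pool.Agent.TH954.V

section basic

variable {K F : Type} [Field K] [Field F] [Algebra K F] {k : ℕ}

lemma evc_eq_eval (f : MvPolynomial (Fin k × Fin 3) K) (u : Fin k → Fin 3 → F) :
    evc f u = eval (fun p => u p.1 p.2) (MvPolynomial.map (algebraMap K F) f) := by
  rw [evc, aeval_def, eval_map]

lemma MultiHom.map' {d : Fin k → ℕ} {f : MvPolynomial (Fin k × Fin 3) K} (hf : MultiHom d f) :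
    MultiHom d (MvPolynomial.map (algebraMap K F) f) := by
  intro m hm
  exact hf m (support_map_subset _ _ hm)

lemma evc_smul {d : Fin k → ℕ} {f : MvPolynomial (Fin k × Fin 3) K} (hf : MultiHom d f)
    (s : Fin k → F) (u : Fin k → Fin 3 → F) :
    evc f (fun j => s j • u j) = (∏ j, s j ^ d j) * evc f u := by
  rw [evc_eq_eval, evc_eq_eval]
  exact MultiHom.eval_smul (MultiHom.map' hf) s (fun p => u p.1 p.2)

end basic

/-- a nonzero solution of the homogeneous equation comes from a point -/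
lemma exists_point {F : Type} [Field F] [CharZero F] {a b : F}
    (hD : 4 * a ^ 3 + 27 * b ^ 2 ≠ 0) (x : Fin 3 → F) (hx : x ≠ 0)
    (h : x 1 ^ 2 * x 2 - x 0 ^ 3 - a * x 0 * x 2 ^ 2 - b * x 2 ^ 3 = 0) :
    ∃ (P : SPt a b) (s : F), s ≠ 0 ∧ x = s • crd P := by
  by_cases h2 : x 2 = 0
  · have h0 : x 0 = 0 := by
      rw [h2] at h
      have : x 0 ^ 3 = 0 := by linear_combination -h
      exact pow_eq_zero_iff (by norm_num) |>.mp this
    have h1 : x 1 ≠ 0 := by
      intro h1
      apply hx
      funext i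
      fin_cases i
      · exact h0
      · exact h1
      · exact h2
    refine ⟨0, x 1, h1, ?_⟩
    funext i
    fin_cases i
    · simp [crd_zero, h0]
    · simp [crd_zero]
    · simp [crd_zero, h2]
  · have he : (x 1 / x 2) ^ 2 = (x 0 / x 2) ^ 3 + a * (x 0 / x 2) + b := by
      field_simp
      linear_combination h
    refine ⟨.some (x 0 / x 2) (x 1 / x 2) (sw_nonsing hD he), x 2, h2, ?_⟩
    funext i
    fin_cases i
    · simp [crd]
      field_simp
    · simp [crd]
      field_simp
    · simp [crd]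

/-- the equation satisfied by the homogeneous coordinates -/
lemma crd_eqn {F : Type} [Field F] {a b : F} (P : SPt a b) :
    crd P 1 ^ 2 * crd P 2 - crd P 0 ^ 3 - a * crd P 0 * crd P 2 ^ 2 - b * crd P 2 ^ 3 = 0 := by
  match P with
  | .zero => simp [crd]
  | .some x y h =>
    have := sw_eqn.mp h.1
    simp [crd]
    linear_combination this

theorem null : T_null := by
  classical
  intro K _ _ a b hD k s f hf
  set I : Ideal (MvPolynomial (Fin k × Fin 3) K) := Ideal.span (Set.range f ∪ Set.range (wei a b)) with hI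
  obtain ⟨n0, hn0⟩ := Ideal.exists_radical_pow_le_of_fg I (IsNoetherian.noetherian _)
  refine ⟨n0 + 1, Nat.succ_pos _, ?_⟩
  have hfinall : (I.minimalPrimes).Finite := Ideal.finite_minimalPrimes_of_isNoetherianRing (MvPolynomial (Fin k × Fin 3) K) I
  set 𝓟 : Set (Ideal (MvPolynomial (Fin k × Fin 3) K)) := {p | p ∈ I.minimalPrimes ∧ ∀ j, ∃ c : Fin 3, (X (j, c) : MvPolynomial (Fin k × Fin 3) K) ∉ p} with h𝓟
  have hfin : 𝓟.Finite := hfinall.subset (fun p hp => hp.1)
  have := hfin.to_subtype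
  obtain ⟨t, ⟨e⟩⟩ := Finite.exists_equiv_fin 𝓟
  have hprime : ∀ i : Fin t, (e.symm i).val.IsPrime := fun i => (e.symm i).prop.1.1.1
  -- the point attached to a relevant prime
  have key : ∀ i : Fin t, ∃ (F : Type) (_ : Field F) (_ : Algebra K F)
      (φ : MvPolynomial (Fin k × Fin 3) K →ₐ[K] F) (η : Fin k → SPt (algebraMap K F a) (algebraMap K F b)) (r : Fin k → F),
      (∀ g : MvPolynomial (Fin k × Fin 3) K, φ g = 0 ↔ g ∈ (e.symm i).val) ∧ (∀ j, r j ≠ 0) ∧
      ∀ j c, φ (X (j, c)) = r j * crd (η j) c := by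
    intro i
    have := hprime i
    have : IsDomain (MvPolynomial (Fin k × Fin 3) K ⧸ (e.symm i).val) := Ideal.Quotient.isDomain _
    let F := FractionRing (MvPolynomial (Fin k × Fin 3) K ⧸ (e.symm i).val)
    let φ : MvPolynomial (Fin k × Fin 3) K →ₐ[K] F := (IsScalarTower.toAlgHom K (MvPolynomial (Fin k × Fin 3) K ⧸ (e.symm i).val) F).comp
      (Ideal.Quotient.mkₐ K (e.symm i).val)
    have hφ : ∀ g : MvPolynomial (Fin k × Fin 3) K, φ g = 0 ↔ g ∈ (e.symm i).val := by
      intro g
      change algebraMap (MvPolynomial (Fin k × Fin 3) K ⧸ (e.symm i).val) F (Ideal.Quotient.mk _ g) = 0 ↔ _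
      rw [FaithfulSMul.algebraMap_eq_zero_iff, Ideal.Quotient.eq_zero_iff_mem]
    have : CharZero F := charZero_of_injective_algebraMap (algebraMap K F).injective
    have hD' : 4 * (algebraMap K F a) ^ 3 + 27 * (algebraMap K F b) ^ 2 ≠ 0 := by
      have : algebraMap K F (4 * a ^ 3 + 27 * b ^ 2) ≠ 0 := by
        rw [Ne, map_eq_zero]
        exact hD
      simpa only [map_add, map_mul, map_pow, map_ofNat] using this
    have hpt : ∀ j, ∃ (P : SPt (algebraMap K F a) (algebraMap K F b)) (s : F), s ≠ 0 ∧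
        (fun c => φ (X (j, c))) = s • crd P := by
      intro j
      apply exists_point hD'
      · obtain ⟨c, hc⟩ := (e.symm i).prop.2 j
        intro h0
        exact hc ((hφ _).mp (congrFun h0 c))
      · have h1 : wei a b j ∈ (e.symm i).val :=
          (e.symm i).prop.1.1.2 (Ideal.subset_span (Or.inr ⟨j, rfl⟩))
        have h2 := (hφ _).mpr h1
        have h3 : φ (wei a b j) = φ (X (j, 1)) ^ 2 * φ (X (j, 2)) - φ (X (j, 0)) ^ 3 -
            algebraMap K F a * φ (X (j, 0)) * φ (X (j, 2)) ^ 2 -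
            algebraMap K F b * φ (X (j, 2)) ^ 3 := by
          have hC : ∀ z : K, φ (C z) = algebraMap K F z := fun z => by
            have := φ.commutes z
            exact this
          simp only [wei, map_sub, map_mul, map_pow, hC]
        rw [h3] at h2
        exact h2
    choose η r hr hηr using hpt
    exact ⟨F, inferInstance, inferInstance, φ, η, r, hφ, hr, fun j c => congrFun (hηr j) c⟩
  choose F hF1 hF2 φ η r hφ hr hX using key
  have hev : ∀ (i : Fin t) (g : MvPolynomial (Fin k × Fin 3) K) (σ : Fin k → ℕ), MultiHom σ g →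
      φ i g = (∏ j, r i j ^ σ j) * evc g (fun j => crd (η i j)) := by
    intro i g σ hg
    rw [← evc_smul hg (r i) (fun j => crd (η i j)), evc]
    have : φ i = aeval (fun p : Fin k × Fin 3 => (r i p.1 • crd (η i p.1)) p.2) := by
      apply algHom_ext
      rintro ⟨j, c⟩
      rw [aeval_X, hX]
      rfl
    rw [this]
  have hprod : ∀ (i : Fin t) (σ : Fin k → ℕ), ∏ j, r i j ^ σ j ≠ 0 := fun i σ =>
    Finset.prod_ne_zero_iff.mpr (fun j _ => pow_ne_zero _ (hr i j))
  refine ⟨t, F, hF1, hF2, η, ?_, ?_⟩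
  · intro i l
    obtain ⟨δ, hδ⟩ := hf l
    have h1 : f l ∈ (e.symm i).val := (e.symm i).prop.1.1.2 (Ideal.subset_span (Or.inl ⟨l, rfl⟩))
    have h2 := (hφ i _).mpr h1
    rw [hev i _ δ hδ] at h2
    exact (mul_eq_zero.mp h2).resolve_left (hprod i δ)
  · rintro S ⟨σ, hσ⟩ hS c
    have hrad : S * ∏ j, X (j, c j) ∈ I.radical := by
      rw [← Ideal.sInf_minimalPrimes, Ideal.mem_sInf]
      intro p hp
      have : p.IsPrime := hp.1.1
      by_cases hrel : ∀ j, ∃ c : Fin 3, (X (j, c) : MvPolynomial (Fin k × Fin 3) K) ∉ p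
      · have hmem : p ∈ 𝓟 := ⟨hp, hrel⟩
        set i := e ⟨p, hmem⟩ with hi
        have hpi : (e.symm i).val = p := by rw [hi, Equiv.symm_apply_apply]
        have h1 : φ i S = 0 := by rw [hev i S σ hσ, hS i, mul_zero]
        have h2 := (hφ i S).mp h1
        rw [hpi] at h2
        exact Ideal.mul_mem_right _ _ h2
      · push Not at hrel
        obtain ⟨j, hj⟩ := hrel
        refine Ideal.mul_mem_left _ _ ?_
        rw [← Finset.mul_prod_erase Finset.univ _ (Finset.mem_univ j)]
        exact Ideal.mul_mem_right _ _ (hj (c j))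
    have h1 : (S * ∏ j, X (j, c j)) ^ (n0 + 1) ∈ I.radical ^ (n0 + 1) :=
      Ideal.pow_mem_pow hrad _
    exact hn0 (Ideal.pow_le_pow_right (Nat.le_succ n0) h1)

end Pool.Agent.TH954.V
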