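import Pool.Agent.TH954.V.GlobB

/-!
# Sums over all places
-/

set_option autoImplicit false
set_option linter.unusedSectionVars false

open MvPolynomial WeierstrassCurve NumberField Height Pool.Agent.TH942

namespace Pool.Agent.TH954.V

variable {K : Type} [Field K] [NumberField K] {k : ℕ}

/-- the absolute value of a finite place -/
def av (v : FinitePlace K) : AbsoluteValue K ℝ := v.val

/-- the absolute value of an infinite place -/
def ai (w : InfinitePlace K) : AbsoluteValue K ℝ := w.val

lemma av_apply (v : FinitePlace K) (x : K) : av v x = v x := rfl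

lemma ai_apply (w : InfinitePlace K) (x : K) : ai w x = w x := rfl

/-- sum over all places -/
noncomputable def tot (g : AbsoluteValue K ℝ → ℝ) : ℝ :=
  ∑ w : InfinitePlace K, (w.mult : ℝ) * g (ai w) + ∑ᶠ v : FinitePlace K, g (av v)

/-- finitely many nonzero terms -/
def FS (g : AbsoluteValue K ℝ → ℝ) : Prop := {v : FinitePlace K | g (av v) ≠ 0}.Finite

lemma finsum_eq {g : AbsoluteValue K ℝ → ℝ} (S : Finset (FinitePlace K))
    (hS : ∀ v : FinitePlace K, g (av v) ≠ 0 → v ∈ S) :
    ∑ᶠ v : FinitePlace K, g (av v) = ∑ v ∈ S, g (av v) := by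
  refine finsum_eq_sum_of_support_subset _ ?_
  intro v hv
  exact hS v hv

lemma tot_le {g h : AbsoluteValue K ℝ → ℝ} (hg : FS g) (hh : FS h)
    (hi : ∀ w : InfinitePlace K, g (ai w) ≤ h (ai w))
    (hf : ∀ v : FinitePlace K, g (av v) ≤ h (av v)) : tot g ≤ tot h := by
  classical
  unfold tot
  refine add_le_add (Finset.sum_le_sum (fun w _ => ?_)) ?_
  · exact mul_le_mul_of_nonneg_left (hi w) (Nat.cast_nonneg _)
  · rw [finsum_eq (hg.toFinset ∪ hh.toFinset) (fun v hv => Finset.mem_union_left _
      ((Set.Finite.mem_toFinset hg).mpr hv)),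
      finsum_eq (hg.toFinset ∪ hh.toFinset) (fun v hv => Finset.mem_union_right _
      ((Set.Finite.mem_toFinset hh).mpr hv))]
    exact Finset.sum_le_sum (fun v _ => hf v)

lemma FS_add {g h : AbsoluteValue K ℝ → ℝ} (hg : FS g) (hh : FS h) :
    FS (fun v => g v + h v) := by
  refine (hg.union hh).subset (fun v hv => ?_)
  by_contra hcon
  simp only [Set.mem_union, Set.mem_ofPred_eq, not_or, not_not] at hcon
  apply hv
  change g (av v) + h (av v) = 0
  rw [hcon.1, hcon.2, add_zero]

lemma FS_mul {g : AbsoluteValue K ℝ → ℝ} (hg : FS g) (c : ℝ) :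
    FS (fun v => c * g v) := by
  refine hg.subset (fun v hv => ?_)
  intro hcon
  apply hv
  change c * g (av v) = 0
  rw [hcon, mul_zero]

lemma tot_add {g h : AbsoluteValue K ℝ → ℝ} (hg : FS g) (hh : FS h) :
    tot (fun v => g v + h v) = tot g + tot h := by
  unfold tot
  have h1 : ∑ᶠ v : FinitePlace K, (g (av v) + h (av v)) =
      ∑ᶠ v : FinitePlace K, g (av v) + ∑ᶠ v : FinitePlace K, h (av v) :=
    finsum_add_distrib hg hh
  rw [h1]
  simp_rw [mul_add]
  rw [Finset.sum_add_distrib]
  ring

lemma tot_mul {g : AbsoluteValue K ℝ → ℝ} (hg : FS g) (c : ℝ) :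
    tot (fun v => c * g v) = c * tot g := by
  unfold tot
  rw [mul_add, Finset.mul_sum, mul_finsum' _ c hg]
  congr 1
  exact Finset.sum_congr rfl (fun w _ => by ring)

lemma FS_zero : FS (fun _ : AbsoluteValue K ℝ => (0 : ℝ)) := by
  refine Set.finite_empty.subset (fun v hv => ?_)
  exact hv rfl

lemma tot_zero : tot (fun _ : AbsoluteValue K ℝ => (0 : ℝ)) = 0 := by
  unfold tot
  simp

lemma FS_sum {ι : Type} (s : Finset ι) {g : ι → AbsoluteValue K ℝ → ℝ}
    (hg : ∀ i ∈ s, FS (g i)) : FS (fun v => ∑ i ∈ s, g i v) := by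
  classical
  induction s using Finset.induction_on with
  | empty => simpa using FS_zero
  | insert a s ha ih =>
    simp only [Finset.sum_insert ha]
    exact FS_add (hg a (Finset.mem_insert_self _ _))
      (ih (fun i hi => hg i (Finset.mem_insert_of_mem hi)))

lemma tot_sum {ι : Type} (s : Finset ι) {g : ι → AbsoluteValue K ℝ → ℝ}
    (hg : ∀ i ∈ s, FS (g i)) : tot (fun v => ∑ i ∈ s, g i v) = ∑ i ∈ s, tot (g i) := by
  classical
  induction s using Finset.induction_on with
  | empty => simpa using tot_zero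
  | insert a s ha ih =>
    simp only [Finset.sum_insert ha]
    rw [tot_add (hg a (Finset.mem_insert_self _ _))
      (FS_sum s (fun i hi => hg i (Finset.mem_insert_of_mem hi))),
      ih (fun i hi => hg i (Finset.mem_insert_of_mem hi))]

lemma FS_log {z : K} (hz : z ≠ 0) : FS (fun v => Real.log (v z)) := by
  have h1 := FinitePlace.hasFiniteMulSupport hz
  refine h1.subset (fun v hv => ?_)
  intro hcon
  apply hv
  change Real.log (av v z) = 0
  have : av v z = 1 := hcon
  rw [this, Real.log_one]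

lemma tot_log {z : K} (hz : z ≠ 0) : tot (fun v => Real.log (v z)) = 0 := by
  have h1 := prod_abs_eq_one hz
  have hpos : ∀ v : FinitePlace K, 0 < v z := fun v => (av v).pos hz
  have hposi : ∀ w : InfinitePlace K, 0 < w z := fun w => (ai w).pos hz
  have h2 := congrArg Real.log h1
  rw [Real.log_one, Real.log_mul, Real.log_prod, Real.log_finprod hpos] at h2
  · unfold tot
    rw [← h2]
    congr 1
    refine Finset.sum_congr rfl (fun w _ => ?_)
    rw [Real.log_pow]
    rfl
  · exact fun w _ => (pow_pos (hposi w) _).ne'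
  · exact (Finset.prod_pos (fun w _ => pow_pos (hposi w) _)).ne'
  · exact (finprod_induction (fun x : ℝ => 0 < x) one_pos
      (fun _ _ h1 h2 => mul_pos h1 h2) hpos).ne'

lemma FS_sup {u : Fin 3 → K} (hu : u ≠ 0) : FS (fun v => Real.log (⨆ c, v (u c))) := by
  have h1 := sup_fin hu
  refine h1.subset (fun v hv => ?_)
  intro hcon
  apply hv
  change Real.log (⨆ c, av v (u c)) = 0
  have : (⨆ c, av v (u c)) = 1 := hcon
  rw [this, Real.log_one]

lemma tot_sup {u : Fin 3 → K} (hu : u ≠ 0) :
    tot (fun v => Real.log (⨆ c, v (u c))) = logHeight u := by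
  have hpos : ∀ v : FinitePlace K, 0 < ⨆ c, v (u c) := fun v => sup_pos (av v) hu
  have hposi : ∀ w : InfinitePlace K, 0 < ⨆ c, w (u c) := fun w => sup_pos (ai w) hu
  rw [logHeight_eq_log_mulHeight, NumberField.mulHeight_eq hu, Real.log_mul, Real.log_prod,
    Real.log_finprod hpos]
  · unfold tot
    congr 1
    refine Finset.sum_congr rfl (fun w _ => ?_)
    rw [Real.log_pow]
    rfl
  · exact fun w _ => (pow_pos (hposi w) _).ne'
  · exact (Finset.prod_pos (fun w _ => pow_pos (hposi w) _)).ne'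
  · exact (finprod_induction (fun x : ℝ => 0 < x) one_pos
      (fun _ _ h1 h2 => mul_pos h1 h2) hpos).ne'

/-- finitely many finite places where some element of a finite set is not integral -/
lemma bad_set (A : Finset K) : {v : FinitePlace K | ∃ z ∈ A, ¬ av v z ≤ 1}.Finite := by
  classical
  have h1 : {v : FinitePlace K | ∃ z ∈ A, ¬ av v z ≤ 1} ⊆
      ⋃ z ∈ A, {v : FinitePlace K | ¬ av v z ≤ 1} := by
    rintro v ⟨z, hz, hv⟩
    exact Set.mem_biUnion hz hv
  refine (Set.Finite.biUnion A.finite_toSet (fun z _ => ?_)).subset h1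
  by_cases hz : z = 0
  · refine Set.finite_empty.subset (fun v hv => ?_)
    apply hv
    rw [hz, map_zero]
    exact zero_le_one
  · refine (FinitePlace.hasFiniteMulSupport hz).subset (fun v hv hcon => ?_)
    apply hv
    exact le_of_eq hcon

lemma fin_ult (v : FinitePlace K) : ∀ x y, av v (x + y) ≤ max (av v x) (av v y) :=
  fun x y => FinitePlace.add_le v x y

/-- bound for the normalised value at almost all finite places -/
lemma nv_le_one [DecidableEq K] {v : AbsoluteValue K ℝ}
    (hv : ∀ x y, v (x + y) ≤ max (v x) (v y))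
    {a b : K} {σ : Fin k → ℕ} {f : MvPolynomial (Fin k × Fin 3) K} (hf : MultiHom σ f)
    (hc : ∀ z ∈ cfs f, v z ≤ 1) (P : Fin k → SPt a b) :
    nv v σ f (fun j => crd (P j)) ≤ 1 := by
  choose c hc' using fun j => exists_sup v (crd (P j))
  have hpos : ∀ j, 0 < v (crd (P j) (c j)) := fun j => by
    rw [hc']
    exact sup_pos v (crd_ne_zero _)
  have hne : ∀ j, crd (P j) (c j) ≠ 0 := fun j => v.pos_iff.mp (hpos j)
  set r : Fin k → K := fun j => (crd (P j) (c j))⁻¹ with hr
  have hr0 : ∀ j, r j ≠ 0 := fun j => inv_ne_zero (hne j)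
  have hsup : ∀ j, (⨆ e, v ((r j • crd (P j)) e)) = 1 := by
    intro j
    rw [sup_smul, hr, map_inv₀, ← hc' j]
    exact inv_mul_cancel₀ (hpos j).ne'
  rw [← nv_smul v hf r hr0]
  unfold nv
  simp only [hsup, one_pow, Finset.prod_const_one, div_one]
  refine evc_le_na hv _ (fun m hm => hc _ (Finset.mem_image_of_mem _ hm)) _ (fun j e => ?_)
  rw [← hsup j]
  exact le_sup v _ e

/-- height with respect to the closed subscheme defined by the forms `f` -/
noncomputable def hY {a b : K} {s : ℕ} (f : Fin s → MvPolynomial (Fin k × Fin 3) K)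
    (δ : Fin s → Fin k → ℕ) (P : Fin k → SPt a b) : ℝ :=
  tot (fun v => -Real.log (⨆ i, nv v (δ i) (f i) (fun j => crd (P j))))

/-- From the local to the global inequality. -/
theorem glob [DecidableEq K] {a b : K} {s : ℕ} (f : Fin s → MvPolynomial (Fin k × Fin 3) K)
    (δ : Fin s → Fin k → ℕ) (hf : ∀ i, MultiHom (δ i) (f i)) {N m : ℕ} (hN : 0 < N)
    (n : Fin m → Fin k → ℤ) (G : MvPolynomial (Fin m) K) (d : Fin m → ℕ)
    (hloc : ∃ A : Finset K, ∀ v : AbsoluteValue K ℝ, ∃ M : ℝ, 1 ≤ M ∧
      ((∀ x y, v (x + y) ≤ max (v x) (v y)) → (∀ z ∈ A, v z ≤ 1) → M = 1) ∧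
      ∀ P : Fin k → SPt a b,
        (v (hev G d (fun l => crd (∑ j, n l j • P j))) /
            ∏ l, (⨆ c, v (crd (∑ j, n l j • P j) c)) ^ d l) ^ N ≤
          M * ⨆ i, nv v (δ i) (f i) (fun j => crd (P j))) :
    ∃ C : ℝ, ∀ P : Fin k → SPt a b, hev G d (fun l => crd (∑ j, n l j • P j)) ≠ 0 →
      (∃ i, evc (f i) (fun j => crd (P j)) ≠ 0) ∧
      FS (fun v => -Real.log (⨆ i, nv v (δ i) (f i) (fun j => crd (P j)))) ∧
      hY f δ P ≤ N * ∑ l, (d l : ℝ) * logHeight (crd (∑ j, n l j • P j)) + C := by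
  classical
  obtain ⟨A, hA⟩ := hloc
  choose M hM1 hM2 hM3 using hA
  refine ⟨tot (fun v => Real.log (M v)), fun P hP => ?_⟩
  set g : K := hev G d (fun l => crd (∑ j, n l j • P j)) with hg
  set w : Fin m → Fin 3 → K := fun l => crd (∑ j, n l j • P j) with hw
  have hw0 : ∀ l, w l ≠ 0 := fun l => crd_ne_zero _
  set T : AbsoluteValue K ℝ → ℝ := fun v => v g / ∏ l, (⨆ c, v (w l c)) ^ d l with hT
  set U : AbsoluteValue K ℝ → ℝ := fun v => ⨆ i, nv v (δ i) (f i) (fun j => crd (P j)) with hU
  have hT0 : ∀ v, 0 < T v := fun v => div_pos (v.pos hP)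
    (Finset.prod_pos (fun l _ => pow_pos (sup_pos v (hw0 l)) _))
  have hloc : ∀ v, T v ^ N ≤ M v * U v := fun v => hM3 v P
  have hM0 : ∀ v, 0 < M v := fun v => zero_lt_one.trans_le (hM1 v)
  have hU0 : ∀ v, 0 < U v := by
    intro v
    by_contra hcon
    have h1 : M v * U v ≤ 0 := mul_nonpos_of_nonneg_of_nonpos (hM0 v).le (not_lt.mp hcon)
    have h2 := pow_pos (hT0 v) N
    linarith [hloc v]
  have hlogT : ∀ v, Real.log (T v) =
      Real.log (v g) - ∑ l, (d l : ℝ) * Real.log (⨆ c, v (w l c)) := by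
    intro v
    rw [hT]
    simp only
    rw [Real.log_div (v.pos hP).ne' (Finset.prod_pos
      (fun l _ => pow_pos (sup_pos v (hw0 l)) _)).ne', Real.log_prod
      (fun l _ => (pow_pos (sup_pos v (hw0 l)) _).ne')]
    simp_rw [Real.log_pow]
  have hineq : ∀ v, -Real.log (U v) ≤
      Real.log (M v) + ((-N : ℝ) * Real.log (v g) +
        ∑ l, ((N : ℝ) * d l) * Real.log (⨆ c, v (w l c))) := by
    intro v
    have h1 := Real.log_le_log (pow_pos (hT0 v) N) (hloc v)
    rw [Real.log_pow, Real.log_mul (hM0 v).ne' (hU0 v).ne', hlogT v] at h1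
    have h2 : ∑ l, ((N : ℝ) * d l) * Real.log (⨆ c, v (w l c)) =
        N * ∑ l, (d l : ℝ) * Real.log (⨆ c, v (w l c)) := by
      rw [Finset.mul_sum]
      exact Finset.sum_congr rfl (fun l _ => by ring)
    rw [h2]
    linarith
  have FM : FS (fun v => Real.log (M v)) := by
    refine (bad_set A).subset (fun v hv => ?_)
    by_contra hcon
    apply hv
    simp only [Set.mem_ofPred_eq, not_exists, not_and, not_not] at hcon
    change Real.log (M (av v)) = 0
    rw [hM2 (av v) (fin_ult v) hcon, Real.log_one]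
  have Fg : FS (fun v => Real.log (v g)) := FS_log hP
  have Fw : ∀ l, FS (fun v => Real.log (⨆ c, v (w l c))) := fun l => FS_sup (hw0 l)
  have Fsum : FS (fun v => ∑ l, ((N : ℝ) * d l) * Real.log (⨆ c, v (w l c))) :=
    FS_sum _ (fun l _ => FS_mul (Fw l) _)
  have FT : FS (fun v => Real.log (T v)) := by
    have h1 : (fun v => Real.log (T v)) = fun v => Real.log (v g) +
        ∑ l, (-(d l : ℝ)) * Real.log (⨆ c, v (w l c)) := by
      funext v
      rw [hlogT v, sub_eq_add_neg, ← Finset.sum_neg_distrib]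
      congr 1
      exact Finset.sum_congr rfl (fun l _ => by ring)
    rw [h1]
    exact FS_add Fg (FS_sum _ (fun l _ => FS_mul (Fw l) _))
  have FU : FS (fun v => -Real.log (U v)) := by
    refine ((FM.union FT).union (bad_set (Finset.univ.biUnion (fun i => cfs (f i))))).subset
      (fun v hv => ?_)
    by_contra hcon
    simp only [Set.mem_union, Set.mem_ofPred_eq, not_or, not_not, not_exists, not_and] at hcon
    obtain ⟨⟨h1, h2⟩, h3⟩ := hcon
    apply hv
    have hM : M (av v) = 1 := by
      rcases Real.log_eq_zero.mp h1 with h | h | h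
      · exact absurd h (hM0 _).ne'
      · exact h
      · linarith [hM0 (av v)]
    have hTv : T (av v) = 1 := by
      rcases Real.log_eq_zero.mp h2 with h | h | h
      · exact absurd h (hT0 _).ne'
      · exact h
      · linarith [hT0 (av v)]
    have h4 := hloc (av v)
    rw [hM, hTv, one_pow, one_mul] at h4
    have h5 : U (av v) ≤ 1 := by
      rcases isEmpty_or_nonempty (Fin s) with he | he
      · simp only [hU, Real.iSup_of_isEmpty]
        exact zero_le_one
      · refine ciSup_le (fun i => nv_le_one (fin_ult v) (hf i) (fun z hz => h3 z ?_) P)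
        exact Finset.mem_biUnion.mpr ⟨i, Finset.mem_univ _, hz⟩
    change -Real.log (U (av v)) = 0
    rw [le_antisymm h5 h4, Real.log_one, neg_zero]
  refine ⟨?_, FU, ?_⟩
  · by_contra hcon
    push Not at hcon
    have w0 : InfinitePlace K := Classical.arbitrary _
    have h1 := hU0 (ai w0)
    have h2 : U (ai w0) = 0 := by
      have : (fun i => nv (ai w0) (δ i) (f i) (fun j => crd (P j))) = fun _ => 0 := by
        funext i
        simp [nv, hcon i]
      rw [hU]
      simp only
      rw [show (⨆ i, nv (ai w0) (δ i) (f i) (fun j => crd (P j))) =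
        iSup (fun i => nv (ai w0) (δ i) (f i) (fun j => crd (P j))) from rfl, this]
      rcases isEmpty_or_nonempty (Fin s) with he | he
      · rw [Real.iSup_of_isEmpty]
      · rw [ciSup_const]
    rw [h2] at h1
    exact lt_irrefl _ h1
  · have h1 : hY f δ P ≤ tot (fun v => Real.log (M v) + ((-N : ℝ) * Real.log (v g) +
        ∑ l, ((N : ℝ) * d l) * Real.log (⨆ c, v (w l c)))) :=
      tot_le FU (FS_add FM (FS_add (FS_mul Fg _) Fsum)) (fun w => hineq (ai w))
        (fun v => hineq (av v))
    rw [tot_add FM (FS_add (FS_mul Fg _) Fsum), tot_add (FS_mul Fg _) Fsum, tot_mul Fg, tot_log hP,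
      tot_sum _ (fun l _ => FS_mul (Fw l) _)] at h1
    have h2 : ∑ l, tot (fun v => ((N : ℝ) * d l) * Real.log (⨆ c, v (w l c))) =
        N * ∑ l, (d l : ℝ) * logHeight (w l) := by
      rw [Finset.mul_sum]
      refine Finset.sum_congr rfl (fun l _ => ?_)
      rw [tot_mul (Fw l), tot_sup (hw0 l)]
      ring
    rw [h2] at h1
    linarith

end Pool.Agent.TH954.V
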